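import Pool.Agent.Lib_helper45.HSK.Defs
import Pool.Agent.Lib_helper84.HSGF.GI1

/-! # HSR, block RA (CEN): the center and the automorphy factor -/

namespace Pool.Agent.HSG

open Complex MeasureTheory Filter Topology UpperHalfPlane NumberField IsDedekindDomain
open scoped nonZeroDivisors MatrixGroups ENNReal

variable {K : Type} [Field K] [NumberField K]

theorem ra_row_ne (g : GL (Fin 2) K) : (g : Matrix (Fin 2) (Fin 2) K) 1 ≠ 0 := by
  intro h
  have h1 : (g : Matrix (Fin 2) (Fin 2) K).det ≠ 0 := by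
    have := (Matrix.GeneralLinearGroup.det g).ne_zero
    exact this
  apply h1
  rw [Matrix.det_fin_two, show (g : Matrix (Fin 2) (Fin 2) K) 1 0 = 0 from congrFun h 0,
    show (g : Matrix (Fin 2) (Fin 2) K) 1 1 = 0 from congrFun h 1]
  ring

theorem zp_iff (g : GP K) : g ∈ ZP K ↔ Sc (g : GL (Fin 2) K) := by
  unfold ZP
  rw [Subgroup.mem_center_iff]
  constructor
  · intro h
    have hu : ∀ a b : K, ∃ u : GP K, ((u : GL (Fin 2) K) : Matrix (Fin 2) (Fin 2) K) =
        !![1, a; 0, 1] * !![1, 0; b, 1] := by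
      intro a b
      have hd : (!![1, a; 0, 1] * !![1, 0; b, 1] : Matrix (Fin 2) (Fin 2) K).det = 1 := by
        rw [Matrix.det_mul]
        simp [Matrix.det_fin_two]
      refine ⟨⟨Matrix.GeneralLinearGroup.mkOfDetNeZero _ (by rw [hd]; exact one_ne_zero), ?_⟩, rfl⟩
      intro w
      show 0 < w (!![1, a; 0, 1] * !![1, 0; b, 1] : Matrix (Fin 2) (Fin 2) K).det
      rw [hd, map_one]
      exact one_pos
    obtain ⟨u1, hu1⟩ := hu 1 0
    obtain ⟨u2, hu2⟩ := hu 0 1
    have h1 := h u1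
    have h2 := h u2
    have h1' := congrArg (fun x : GP K => ((x : GL (Fin 2) K) : Matrix (Fin 2) (Fin 2) K)) h1
    have h2' := congrArg (fun x : GP K => ((x : GL (Fin 2) K) : Matrix (Fin 2) (Fin 2) K)) h2
    simp only [Subgroup.coe_mul, Units.val_mul, hu1, hu2] at h1' h2'
    have e1 := congrFun (congrFun h1' 0) 0
    have e2 := congrFun (congrFun h1' 0) 1
    have e3 := congrFun (congrFun h2' 0) 0
    simp [Matrix.mul_apply, Fin.sum_univ_two] at e1 e2 e3
    have hx : ((g : GL (Fin 2) K) : Matrix (Fin 2) (Fin 2) K) =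
        Matrix.scalar (Fin 2) (((g : GL (Fin 2) K) : Matrix (Fin 2) (Fin 2) K) 0 0) := by
      ext i j
      fin_cases i <;> fin_cases j
      · simp
      · simp [e3]
      · simp [e1]
      · simp
        linear_combination e2
    have hx0 : ((g : GL (Fin 2) K) : Matrix (Fin 2) (Fin 2) K) 0 0 ≠ 0 := by
      intro h0
      have hd : ((g : GL (Fin 2) K) : Matrix (Fin 2) (Fin 2) K).det ≠ 0 :=
        (Matrix.GeneralLinearGroup.det (g : GL (Fin 2) K)).ne_zero
      apply hd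
      rw [hx, h0]
      simp
    exact ⟨Units.mk0 _ hx0, hx⟩
  · rintro ⟨x, hx⟩ h
    apply Subtype.ext
    apply Units.ext
    show ((h : GL (Fin 2) K) : Matrix (Fin 2) (Fin 2) K) * (g : GL (Fin 2) K) =
      ((g : GL (Fin 2) K) : Matrix (Fin 2) (Fin 2) K) * (h : GL (Fin 2) K)
    rw [hx]
    exact (Matrix.scalar_commute (x : K) (fun r => Commute.all _ _) _).symm.eq

theorem lz_mul (g h : GL (Fin 2) K) (hh : h ∈ GP K) (z : Em K → ℍ) (w : Em K) :
    lz ((g * h) 1) z w = lz (g 1) (h • z) w * lz (h 1) z w := by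
  have h1 := lz_act h hh ((g * h) 1) z w
  have h2 : Matrix.vecMul ((g * h : GL (Fin 2) K) 1)
      ((h⁻¹ : GL (Fin 2) K) : Matrix (Fin 2) (Fin 2) K) = g 1 := by
    have h3 : ((g * h : GL (Fin 2) K) : Matrix (Fin 2) (Fin 2) K) *
        ((h⁻¹ : GL (Fin 2) K) : Matrix (Fin 2) (Fin 2) K) = g := by
      rw [← Units.val_mul, mul_inv_cancel_right]
    exact congrFun h3 1
  rw [h2] at h1
  exact h1.symm

theorem JJ_mul (k : ℕ) (g h : GL (Fin 2) K) (hh : h ∈ GP K) (z : Em K → ℍ) :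
    JJ k (g * h) z = JJ k g (h • z) * JJ k h z := by
  unfold JJ
  rw [← Finset.prod_mul_distrib]
  apply Finset.prod_congr rfl
  intro w _
  rw [lz_mul g h hh z w, norm_mul, ← mul_pow, Complex.ofReal_mul, mul_div_mul_comm]

theorem JJ_norm (k : ℕ) (g : GL (Fin 2) K) (z : Em K → ℍ) : ‖JJ k g z‖ = 1 := by
  unfold JJ
  rw [norm_prod]
  apply Finset.prod_eq_one
  intro w _
  have h := lz_ne (ra_row_ne g) z w
  rw [norm_pow, norm_div, Complex.norm_real, norm_norm, div_self (norm_ne_zero_iff.2 h), one_pow]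

theorem ra_lz_sc {g : GL (Fin 2) K} {x : Kˣ}
    (hx : (g : Matrix (Fin 2) (Fin 2) K) = Matrix.scalar (Fin 2) (x : K)) (z : Em K → ℍ)
    (w : Em K) : lz (g 1) z w = ((w (x : K) : ℝ) : ℂ) := by
  have h0 : (g : Matrix (Fin 2) (Fin 2) K) 1 0 = 0 := by rw [hx]; simp
  have h1 : (g : Matrix (Fin 2) (Fin 2) K) 1 1 = x := by rw [hx]; simp
  unfold lz
  rw [h0, h1, map_zero, Complex.ofReal_zero, zero_mul, zero_add]

theorem JJ_sc {k : ℕ} (hk : Even k) {g : GL (Fin 2) K} (hg : Sc g) (z : Em K → ℍ) :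
    JJ k g z = 1 := by
  obtain ⟨x, hx⟩ := hg
  unfold JJ
  apply Finset.prod_eq_one
  intro w _
  have h0 : w (x : K) ≠ 0 := by
    rw [map_ne_zero]
    exact x.ne_zero
  obtain ⟨m, hm⟩ := hk.two_dvd
  rw [ra_lz_sc hx, Complex.norm_real, ← Complex.ofReal_div, hm, pow_mul, ← Complex.ofReal_pow,
    div_pow, Real.norm_eq_abs, sq_abs, div_self (pow_ne_zero 2 h0), Complex.ofReal_one, one_pow]

theorem sc_act {g : GL (Fin 2) K} (hg : Sc g) (z : Em K → ℍ) : g • z = z := by
  obtain ⟨x, hx⟩ := hg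
  show mob g z = z
  funext w
  show (Matrix.GeneralLinearGroup.map (n := Fin 2) w g) • z w = z w
  have h0 : w (x : K) ≠ 0 := by
    rw [map_ne_zero]
    exact x.ne_zero
  have h00 : (g : Matrix (Fin 2) (Fin 2) K) 0 0 = x := by rw [hx]; simp
  have h01 : (g : Matrix (Fin 2) (Fin 2) K) 0 1 = 0 := by rw [hx]; simp
  have h10 : (g : Matrix (Fin 2) (Fin 2) K) 1 0 = 0 := by rw [hx]; simp
  have h11 : (g : Matrix (Fin 2) (Fin 2) K) 1 1 = x := by rw [hx]; simp
  have hd : 0 < (Matrix.GeneralLinearGroup.det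
      (Matrix.GeneralLinearGroup.map (n := Fin 2) w g)).val := by
    show 0 < (Matrix.map (g : Matrix (Fin 2) (Fin 2) K) w).det
    rw [Matrix.det_fin_two]
    simp only [Matrix.map_apply, h00, h01, h10, h11, map_zero, mul_zero, sub_zero]
    exact mul_self_pos.2 h0
  apply UpperHalfPlane.ext
  rw [UpperHalfPlane.coe_smul_of_det_pos hd]
  simp only [UpperHalfPlane.num, UpperHalfPlane.denom, Matrix.GeneralLinearGroup.map_apply, h00,
    h01, h10, h11, map_zero, Complex.ofReal_zero, add_zero, zero_mul, zero_add]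
  have h2 : ((w (x : K) : ℝ) : ℂ) ≠ 0 := by exact_mod_cast h0
  field_simp

theorem NY_act {g : GL (Fin 2) K} (hg : g ∈ GP K) (z : Em K → ℍ) :
    NY (g • z) = (∏ w : Em K, w (g : Matrix (Fin 2) (Fin 2) K).det) * NY z /
      (∏ w, ‖lz (g 1) z w‖) ^ 2 := by
  unfold NY
  rw [← Finset.prod_mul_distrib, ← Finset.prod_pow, ← Finset.prod_div_distrib]
  exact Finset.prod_congr rfl fun w _ => im_act g hg z w


end Pool.Agent.HSG
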