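import Pool.Agent.Lib_helper45.HSK.Defs
import Pool.Agent.Lib_helper45.HSRF.RA
import Pool.Agent.Lib_helper84.HSGF.GA1
import Pool.Agent.Lib_helper84.HSGF.GB2

/-! # Hilbert-Selberg, stage 2, block RB: the stabiliser of the standard lattice -/

namespace Pool.Agent.HSG

open Complex MeasureTheory Filter Topology UpperHalfPlane NumberField IsDedekindDomain
open scoped nonZeroDivisors MatrixGroups ENNReal

variable {K : Type} [Field K] [NumberField K]

theorem rb_mul_one (L : Lat K) : L.mul 1 = L := by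
  have h1 : (1 : GL (Fin 2) K) • L = L := one_smul _ _
  have h2 : (1 : GL (Fin 2) K) • L = L.mul (1 : GL (Fin 2) K)⁻¹ := rfl
  rw [h2, inv_one] at h1
  exact h1

theorem rb_mem_prI (x : Kˣ) (y : K) : y ∈ (prI x).m ↔ ∃ c : 𝓞 K, y = (c : K) * x := by
  have h1 := mem_prI_mul x (1 : Id K) y
  rw [mul_one, mem_m_one] at h1
  rw [h1]
  have hx : (x : K) ≠ 0 := x.ne_zero
  constructor
  · rintro ⟨c, hc⟩
    refine ⟨c, ?_⟩
    rw [hc, mul_comm, ← mul_assoc, Units.val_inv_eq_inv_val, mul_inv_cancel₀ hx, one_mul]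
  · rintro ⟨c, hc⟩
    refine ⟨c, ?_⟩
    rw [hc, Units.val_inv_eq_inv_val]
    field_simp

theorem rb_scalar {g : GL (Fin 2) K} {x : Kˣ}
    (hg : (g : Matrix (Fin 2) (Fin 2) K) = Matrix.scalar (Fin 2) (x : K)) (L : Lat K) :
    L.mul g = L.sm (prI x) := by
  have hv : ∀ u : Fin 2 → K, Matrix.vecMul u (g : Matrix (Fin 2) (Fin 2) K) = (x : K) • u := by
    intro u
    rw [hg]
    ext i
    simp [Matrix.vecMul, dotProduct, Matrix.diagonal_apply, mul_comm]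
  ext v
  constructor
  · rintro ⟨u, hu, rfl⟩
    show Matrix.vecMul u (g : Matrix (Fin 2) (Fin 2) K) ∈ ((prI x).m • L.M :
      Submodule (𝓞 K) (Fin 2 → K))
    rw [hv]
    exact Submodule.smul_mem_smul ((rb_mem_prI x _).mpr ⟨1, by simp⟩) hu
  · intro hv'
    have hv1 : v ∈ ((prI x).m • L.M : Submodule (𝓞 K) (Fin 2 → K)) := hv'
    show v ∈ (L.mul g).M
    have hle : ((prI x).m • L.M : Submodule (𝓞 K) (Fin 2 → K)) ≤ (L.mul g).M := by
      rw [Submodule.smul_le]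
      intro r hr n hn
      obtain ⟨c, rfl⟩ := (rb_mem_prI x r).mp hr
      refine ⟨c • n, L.M.smul_mem c hn, ?_⟩
      show Matrix.vecMul (c • n) (g : Matrix (Fin 2) (Fin 2) K) = ((c : K) * x) • n
      rw [hv]
      ext i
      show (x : K) * (c • n) i = (c : K) * x * n i
      rw [Pi.smul_apply, Algebra.smul_def]
      show (x : K) * ((c : K) * n i) = (c : K) * x * n i
      ring
    exact hle hv1

theorem St_sm (g : GL (Fin 2) K) (a : Id K) (L : Lat K) : St g (L.sm a) ↔ St g L := by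
  constructor
  · rintro ⟨b, hb⟩
    refine ⟨b * a⁻¹, ?_⟩
    have h1 := congrArg (fun M : Lat K => M.sm a⁻¹) hb
    rw [mul_sm, sm_sm, sm_sm, mul_inv_cancel, sm_one] at h1
    exact h1
  · rintro ⟨b, hb⟩
    refine ⟨b * a, ?_⟩
    rw [mul_sm, hb, sm_sm]

theorem St_mul (g h : GL (Fin 2) K) (L : Lat K) : St (g * h) L ↔ St h (L.mul g) := by
  unfold St
  rw [mul_mul]

theorem St_sc {g h : GL (Fin 2) K} (hg : Sc g) (L : Lat K) :
    (St (g * h) L ↔ St h L) ∧ (St (h * g) L ↔ St h L) := by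
  obtain ⟨x, hx⟩ := hg
  have h1 : St (g * h) L ↔ St h L := by
    rw [St_mul, rb_scalar hx, St_sm]
  have h2 : h * g = g * h := by
    apply Units.ext
    rw [Units.val_mul, Units.val_mul, hx]
    exact (Matrix.scalar_commute (x : K) (fun _ => mul_comm _ _) _).symm.eq
  exact ⟨h1, by rw [h2]; exact h1⟩

theorem St_inv {g : GL (Fin 2) K} (hg : St g (Lat.ds 1 1)) : St g⁻¹ (Lat.ds 1 1) := by
  obtain ⟨a, ha⟩ := hg
  refine ⟨a⁻¹, ?_⟩
  have h1 := congrArg (fun M : Lat K => (M.mul g⁻¹).sm a⁻¹) ha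
  rw [← mul_mul, mul_inv_cancel, rb_mul_one, mul_sm, sm_sm, mul_inv_cancel, sm_one] at h1
  exact h1.symm

theorem St_two {g h : GL (Fin 2) K} {L : Lat K} (hg : St g L) (hh : St h L) :
    St (g⁻¹ * h) (Lat.ds 1 1) := by
  obtain ⟨a, ha⟩ := hg
  obtain ⟨b, hb⟩ := hh
  have h1 : L.sm a⁻¹ = (Lat.ds 1 1).mul g⁻¹ := by
    have h2 := congrArg (fun M : Lat K => (M.mul g⁻¹).sm a⁻¹) ha
    rw [← mul_mul, mul_inv_cancel, rb_mul_one, mul_sm, sm_sm, mul_inv_cancel, sm_one] at h2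
    exact h2
  refine ⟨b * a⁻¹, ?_⟩
  rw [mul_mul, ← h1, mul_sm, hb, sm_sm]

theorem St_comp {g h : GL (Fin 2) K} {L : Lat K} (hg : St g L) (hh : St h (Lat.ds 1 1)) :
    St (g * h) L := by
  obtain ⟨a, ha⟩ := hg
  obtain ⟨b, hb⟩ := hh
  refine ⟨b * a, ?_⟩
  rw [mul_mul, ha, mul_sm, hb, sm_sm]

/-- the representatives -/
theorem rp_spec (g : GP K) : ∃ t : GL (Fin 2) K, t ∈ GP K ∧ Sc t ∧
    rp (g : PG K) = (g : GL (Fin 2) K) * t := by
  obtain ⟨h, hh⟩ := QuotientGroup.mk_out_eq_mul (ZP K) g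
  refine ⟨((h : GP K) : GL (Fin 2) K), (h : GP K).2, (zp_iff _).mp h.2, ?_⟩
  show (((g : PG K).out : GP K) : GL (Fin 2) K) = _
  rw [hh]
  rfl

theorem rp_mem (c : PG K) : rp c ∈ GP K := (c.out : GP K).2

theorem rp_inj {c c' : PG K} (h : Sc ((rp c)⁻¹ * rp c')) : c = c' := by
  have h1 : (c.out : GP K)⁻¹ * c'.out ∈ ZP K := by
    rw [zp_iff]
    exact h
  have h2 := (QuotientGroup.eq (s := ZP K)).mpr h1
  rw [QuotientGroup.out_eq', QuotientGroup.out_eq'] at h2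
  exact h2

theorem rp_act (g : GP K) (z : Em K → ℍ) :
    rp (g : PG K) • z = (g : GL (Fin 2) K) • z ∧
      (rp (g : PG K))⁻¹ • z = (g : GL (Fin 2) K)⁻¹ • z := by
  obtain ⟨t, -, ht, h⟩ := rp_spec g
  rw [h]
  constructor
  · rw [mul_smul, sc_act ht]
  · rw [mul_inv_rev, mul_smul, inv_smul_eq_iff, sc_act ht]

theorem rp_St (g : GP K) (L : Lat K) : St (rp (g : PG K)) L ↔ St (g : GL (Fin 2) K) L := by
  obtain ⟨t, -, ht, h⟩ := rp_spec g
  rw [h]
  exact (St_sc ht L).2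

/-- the terms depend only on the class modulo scalars -/
theorem kt_rp {k : ℕ} (hk : Even k) (z₀ : Em K → ℍ) (g : GP K) (z : Em K → ℍ) (L : Lat K) :
    kt k z₀ (rp (g : PG K)) z L = kt k z₀ (g : GL (Fin 2) K) z L := by
  obtain ⟨t, ht0, ht, h⟩ := rp_spec g
  unfold kt
  have h1 := (rp_act g z).2
  have h2 : ∀ w : Em K → ℍ, JJ k (rp (g : PG K)) w = JJ k (g : GL (Fin 2) K) w := by
    intro w
    rw [h, JJ_mul k _ _ ht0, sc_act ht, JJ_sc hk ht, mul_one]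
  rw [h1, h2]
  by_cases hS : St (g : GL (Fin 2) K) L
  · rw [if_pos hS, if_pos ((rp_St g L).mpr hS)]
  · rw [if_neg hS, if_neg (fun h' => hS ((rp_St g L).mp h'))]


end Pool.Agent.HSG
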