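import Pool.Agent.Lib_helper45.HSK.Defs
import Pool.Agent.Lib_helper45.HSRF.RA
import Pool.Agent.Lib_helper45.HSRF.RB
import Pool.Agent.Lib_helper84.HSGF.GA3
import Pool.Agent.Lib_helper84.HSGF.GB1
import Pool.Agent.Lib_helper84.HSGF.GD1
import Pool.Agent.Lib_helper84.HSGF.GI1

/-! # HSR, block RC1 (TRF): transformation of the kernel -/

namespace Pool.Agent.HSG

open Complex MeasureTheory Filter Topology UpperHalfPlane NumberField IsDedekindDomain
open scoped nonZeroDivisors MatrixGroups ENNReal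

variable {K : Type} [Field K] [NumberField K]

theorem rc1_kt (k : ℕ) (z₀ : Em K → ℍ) (h g : GL (Fin 2) K) (hg : g ∈ GP K)
    (z : Em K → ℍ) (L : Lat K) :
    kt k z₀ (h * g) (h • z) L = JJ k h z * kt k z₀ g z (L.mul h) := by
  have e1 : (h * g)⁻¹ • h • z = g⁻¹ • z := by
    rw [mul_inv_rev, mul_smul, inv_smul_smul]
  unfold kt
  rw [e1, JJ_mul k h g hg, smul_inv_smul]
  by_cases hs : St g (L.mul h)
  · rw [if_pos hs, if_pos ((St_mul h g L).2 hs), mul_assoc]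
  · rw [if_neg hs, if_neg (fun h' => hs ((St_mul h g L).1 h')), mul_zero]

theorem kp_slash {k : ℕ} (hk : Even k) (z₀ : Em K → ℍ) {h : GL (Fin 2) K} (hh : h ∈ GP K)
    (z : Em K → ℍ) (L : Lat K) : kp k z₀ (h • z) L = JJ k h z * kp k z₀ z (L.mul h) := by
  have hN : (ZP K).Normal := by
    unfold ZP
    infer_instance
  unfold kp
  rw [← tsum_mul_left]
  have h0 := (Equiv.mulLeft ((⟨h, hh⟩ : GP K) : PG K)).tsum_eq
    (fun c => kt k z₀ (rp c) (h • z) L)
  rw [← h0]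
  apply tsum_congr
  intro c
  have h1 : (Equiv.mulLeft ((⟨h, hh⟩ : GP K) : PG K)) c =
      (((⟨h, hh⟩ : GP K) * c.out : GP K) : PG K) := by
    rw [Equiv.coe_mulLeft, QuotientGroup.mk_mul]
    congr 1
    exact (QuotientGroup.out_eq' c).symm
  rw [h1, kt_rp hk]
  exact rc1_kt k z₀ h (rp c) (rp_mem c) z L

theorem kp_sm (k : ℕ) (z₀ : Em K → ℍ) (a : Id K) (z : Em K → ℍ) (L : Lat K) :
    kp k z₀ z (L.sm a) = kp k z₀ z L := by
  unfold kp
  apply tsum_congr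
  intro c
  unfold kt
  by_cases hs : St (rp c) L
  · rw [if_pos hs, if_pos ((St_sm _ a L).2 hs)]
  · rw [if_neg hs, if_neg (fun h' => hs ((St_sm _ a L).1 h'))]

theorem rc1_NY_pos (z : Em K → ℍ) : 0 < NY z := Finset.prod_pos fun w _ => (z w).im_pos

theorem rc1_row_ne (g : GL (Fin 2) K) : (g : Matrix (Fin 2) (Fin 2) K) 1 ≠ 0 := by
  intro h
  have h1 : (g : Matrix (Fin 2) (Fin 2) K).det ≠ 0 :=
    (Matrix.GeneralLinearGroup.det g).ne_zero
  apply h1
  rw [Matrix.det_fin_two, show (g : Matrix (Fin 2) (Fin 2) K) 1 0 = 0 from congrFun h 0,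
    show (g : Matrix (Fin 2) (Fin 2) K) 1 1 = 0 from congrFun h 1]
  ring

theorem kF_slash [IsTotallyReal K] {k : ℕ} (hk : Even k) (z₀ : Em K → ℍ) {g : GL (Fin 2) K} (hg : g ∈ GP K)
    (z : Em K → ℍ) (L : Lat K) :
    kF k z₀ (g • z) L = (∏ w, lz (g 1) z w ^ k) * kF k z₀ z (L.mul g) := by
  have hP : 0 < ∏ w, ‖lz (g 1) z w‖ :=
    Finset.prod_pos fun w _ => norm_pos_iff.2 (lz_ne (rc1_row_ne g) z w)
  have hdet : nI (prI (Matrix.GeneralLinearGroup.det g)) =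
      ∏ w : Em K, w (g : Matrix (Fin 2) (Fin 2) K).det := by
    rw [nI_prI]
    apply Finset.prod_congr rfl
    intro w _
    exact abs_of_pos (hg w)
  have h1 : NY (g • z) * nI L.det = (NY z * nI (L.mul g).det) / (∏ w, ‖lz (g 1) z w‖) ^ 2 := by
    rw [NY_act hg, det_mul, nI_mul, hdet]
    ring
  have hpos : 0 < NY z * nI (L.mul g).det := mul_pos (rc1_NY_pos z) (nI_pos _)
  have h2 : (NY (g • z) * nI L.det) ^ (-(k : ℝ) / 2) =
      (NY z * nI (L.mul g).det) ^ (-(k : ℝ) / 2) * (∏ w, ‖lz (g 1) z w‖) ^ k := by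
    rw [h1, Real.div_rpow hpos.le (by positivity), div_eq_mul_inv]
    congr 1
    rw [← Real.rpow_neg (by positivity), ← Real.rpow_natCast (_) 2, ← Real.rpow_mul hP.le,
      ← Real.rpow_natCast _ k]
    congr 1
    push_cast
    ring
  have h3 : JJ k g z * (((∏ w, ‖lz (g 1) z w‖) ^ k : ℝ) : ℂ) = ∏ w, lz (g 1) z w ^ k := by
    unfold JJ
    rw [← Finset.prod_pow, Complex.ofReal_prod, ← Finset.prod_mul_distrib]
    apply Finset.prod_congr rfl
    intro w _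
    have h4 : ((‖lz (g 1) z w‖ : ℝ) : ℂ) ≠ 0 := by
      exact_mod_cast norm_ne_zero_iff.2 (lz_ne (rc1_row_ne g) z w)
    rw [Complex.ofReal_pow, ← mul_pow, div_mul_cancel₀ _ h4]
  unfold kF
  rw [kp_slash hk z₀ hg, h2, ← h3, Complex.ofReal_mul]
  ring

theorem kF_sm (k : ℕ) (z₀ : Em K → ℍ) (a : Id K) (z : Em K → ℍ) (L : Lat K) :
    kF k z₀ z (L.sm a) = ((nI a ^ k : ℝ) : ℂ)⁻¹ * kF k z₀ z L := by
  have ha := nI_pos a
  have hpos : 0 < NY z * nI L.det := mul_pos (rc1_NY_pos z) (nI_pos _)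
  have h1 : NY z * nI (L.sm a).det = nI a ^ 2 * (NY z * nI L.det) := by
    rw [det_sm, nI_mul, pow_two, nI_mul]
    ring
  have h2 : (NY z * nI (L.sm a).det) ^ (-(k : ℝ) / 2) =
      (nI a ^ k)⁻¹ * (NY z * nI L.det) ^ (-(k : ℝ) / 2) := by
    rw [h1, Real.mul_rpow (by positivity) hpos.le]
    congr 1
    rw [← Real.rpow_natCast (nI a) 2, ← Real.rpow_mul ha.le, ← Real.rpow_natCast _ k,
      ← Real.rpow_neg ha.le]
    congr 1
    push_cast
    ring
  unfold kF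
  rw [kp_sm, h2, Complex.ofReal_mul, Complex.ofReal_inv]
  ring


end Pool.Agent.HSG
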