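import Pool.Agent.Lib_helper45.HSK.Defs
import Pool.Agent.Lib_helper45.HSRF.RA
import Pool.Agent.Lib_helper45.HSRF.RB
import Pool.Agent.Lib_helper84.HSGF.GU2

/-!
# Block RC2 (TST): the terms of the kernel
-/

namespace Pool.Agent.HSG

open Complex MeasureTheory Filter Topology UpperHalfPlane NumberField IsDedekindDomain
open scoped nonZeroDivisors MatrixGroups ENNReal

variable {K : Type} [Field K] [NumberField K]

theorem kt_norm (k : ℕ) (z₀ : Em K → ℍ) {g : GL (Fin 2) K} {z : Em K → ℍ} {L : Lat K}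
    (hg : St g L) : ‖kt k z₀ g z L‖ = chW z₀ (g⁻¹ • z) ^ (-(k : ℝ) / 2) := by
  unfold kt
  rw [if_pos hg, norm_mul, JJ_norm, one_mul, ew_norm]
  rfl

theorem tsum_std (f : (Em K → ℍ) → ℝ≥0∞) (z : Em K → ℍ) (L : Lat K) :
    ∃ z' : Em K → ℍ, ∑' c : {c : PG K // St (rp c) L}, f ((rp c.1)⁻¹ • z) ≤
      ∑' c : {c : PG K // St (rp c) (Lat.ds 1 1)}, f ((rp c.1)⁻¹ • z') := by
  by_cases hne : Nonempty {c : PG K // St (rp c) L}
  swap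
  · have : IsEmpty {c : PG K // St (rp c) L} := not_nonempty_iff.mp hne
    exact ⟨z, by rw [tsum_empty]; exact zero_le⟩
  obtain ⟨c0, hc0⟩ := hne
  refine ⟨(rp c0)⁻¹ • z, ?_⟩
  have hm : ∀ c : PG K, (rp c0)⁻¹ * rp c ∈ GP K := fun c =>
    (GP K).mul_mem ((GP K).inv_mem (rp_mem c0)) (rp_mem c)
  let φ : {c : PG K // St (rp c) L} → {c : PG K // St (rp c) (Lat.ds 1 1)} := fun c =>
    ⟨((⟨(rp c0)⁻¹ * rp c.1, hm c.1⟩ : GP K) : PG K), (rp_St _ _).2 (St_two hc0 c.2)⟩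
  have hφ : Function.Injective φ := by
    intro c c' h
    have h1 : ((⟨(rp c0)⁻¹ * rp c.1, hm c.1⟩ : GP K) : PG K) =
        ((⟨(rp c0)⁻¹ * rp c'.1, hm c'.1⟩ : GP K) : PG K) := congrArg Subtype.val h
    rw [QuotientGroup.eq] at h1
    have h2 := (zp_iff _).1 h1
    have h3 : (rp c.1)⁻¹ * rp c'.1 = (((⟨(rp c0)⁻¹ * rp c.1, hm c.1⟩ : GP K)⁻¹ *
        (⟨(rp c0)⁻¹ * rp c'.1, hm c'.1⟩ : GP K) : GP K) : GL (Fin 2) K) := by
      rw [Subgroup.coe_mul, Subgroup.coe_inv]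
      group
    rw [← h3] at h2
    exact Subtype.ext (rp_inj h2)
  have hf : ∀ c, f ((rp (φ c).1)⁻¹ • ((rp c0)⁻¹ • z)) = f ((rp c.1)⁻¹ • z) := by
    intro c
    have h1 := (rp_act ⟨(rp c0)⁻¹ * rp c.1, hm c.1⟩ ((rp c0)⁻¹ • z)).2
    have h2 : (rp (φ c).1)⁻¹ • ((rp c0)⁻¹ • z) =
      ((rp c0)⁻¹ * rp c.1)⁻¹ • ((rp c0)⁻¹ • z) := h1
    rw [h2, smul_smul]
    congr 2
    group
  calc ∑' c : {c : PG K // St (rp c) L}, f ((rp c.1)⁻¹ • z)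
      = ∑' c : {c : PG K // St (rp c) L}, f ((rp (φ c).1)⁻¹ • ((rp c0)⁻¹ • z)) :=
        tsum_congr fun c => (hf c).symm
    _ ≤ _ := ENNReal.tsum_comp_le_tsum_of_injective hφ
        (fun c : {c : PG K // St (rp c) (Lat.ds 1 1)} => f ((rp c.1)⁻¹ • ((rp c0)⁻¹ • z)))


end Pool.Agent.HSG
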