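import Pool.Agent.Lib_helper45.HSK.Defs
import Pool.Agent.Lib_helper84.HSGF.GI1

/-! # Hilbert-Selberg, stage 2, block RD1: the function `ch` -/

namespace Pool.Agent.HSG

open Complex MeasureTheory Filter Topology UpperHalfPlane NumberField IsDedekindDomain
open scoped nonZeroDivisors MatrixGroups ENNReal

variable {K : Type} [Field K] [NumberField K]

theorem rd1_norm (z w : ℂ) : ‖z - starRingEnd ℂ w‖ ^ 2 =
    (z.re - w.re) ^ 2 + (z.im + w.im) ^ 2 := by
  rw [← Complex.normSq_eq_norm_sq, Complex.normSq_apply]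
  simp only [Complex.sub_re, Complex.sub_im, Complex.conj_re, Complex.conj_im]
  ring

theorem ch_form (z w : ℍ) : WA.ch z w = 1 + ((z.re - w.re) ^ 2 + (z.im - w.im) ^ 2) /
    (4 * z.im * w.im) := by
  have hz := z.im_pos.ne'
  have hw := w.im_pos.ne'
  rw [WA.ch, rd1_norm]
  simp only [UpperHalfPlane.coe_re, UpperHalfPlane.coe_im]
  field_simp
  ring

theorem ch_log (z w : ℍ) : (z.im / w.im + w.im / z.im + 2) / 4 ≤ WA.ch z w := by
  have hz := z.im_pos
  have hw := w.im_pos
  have h1 : (z.im / w.im + w.im / z.im + 2) / 4 = (z.im + w.im) ^ 2 / (4 * z.im * w.im) := by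
    field_simp
    ring
  rw [WA.ch, rd1_norm, h1]
  simp only [UpperHalfPlane.coe_re, UpperHalfPlane.coe_im]
  have := sq_nonneg (z.re - w.re)
  gcongr
  linarith

theorem rd1_one (z w : ℍ) : 1 ≤ WA.ch z w := by
  rw [ch_form]
  have hz := z.im_pos
  have hw := w.im_pos
  have h1 : 0 ≤ ((z.re - w.re) ^ 2 + (z.im - w.im) ^ 2) / (4 * z.im * w.im) := by positivity
  linarith

theorem chW_ge (z z' : Em K → ℍ) : 1 ≤ chW z z' ∧ ∀ w, WA.ch (z w) (z' w) ≤ chW z z' := by
  have h0 : ∀ s : Finset (Em K), 1 ≤ ∏ w ∈ s, WA.ch (z w) (z' w) := by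
    intro s
    refine Finset.prod_induction _ (fun x => 1 ≤ x) (fun a b ha hb => ?_) le_rfl
      (fun w _ => rd1_one _ _)
    nlinarith
  refine ⟨h0 _, fun w => ?_⟩
  classical
  unfold chW
  rw [← Finset.mul_prod_erase Finset.univ (fun w => WA.ch (z w) (z' w)) (Finset.mem_univ w)]
  have h1 := h0 (Finset.univ.erase w)
  have h2 := rd1_one (z w) (z' w)
  nlinarith

theorem rd1_comm (z w : ℍ) : WA.ch z w = WA.ch w z := by
  rw [ch_form, ch_form]
  congr 1
  ring

theorem chW_symm (z z' : Em K → ℍ) : chW z z' = chW z' z :=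
  Finset.prod_congr rfl fun w _ => rd1_comm _ _

theorem rd1_act {g : GL (Fin 2) K} (hg : g ∈ GP K) (z z' : Em K → ℍ) (w : Em K) :
    WA.ch ((g • z) w) ((g • z') w) = WA.ch (z w) (z' w) := by
  have hD : ((Matrix.GeneralLinearGroup.map (n := Fin 2) w g).det : ℝˣ).val =
      w (g : Matrix (Fin 2) (Fin 2) K).det := by
    rw [Matrix.GeneralLinearGroup.val_det_apply]
    have h1 : ((Matrix.GeneralLinearGroup.map (n := Fin 2) w g : GL (Fin 2) ℝ) :
        Matrix (Fin 2) (Fin 2) ℝ) = w.mapMatrix (g : Matrix (Fin 2) (Fin 2) K) := by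
      ext i j
      simp
    rw [h1, RingHom.map_det]
  have hpos : 0 < w (g : Matrix (Fin 2) (Fin 2) K).det := hg w
  have hrow : (g 1 : Fin 2 → K) ≠ 0 := by
    intro h
    have h1 : (g : Matrix (Fin 2) (Fin 2) K).det = 0 := by
      apply Matrix.det_eq_zero_of_row_eq_zero 1
      intro j
      exact congrFun h j
    rw [h1, map_zero] at hpos
    exact lt_irrefl _ hpos
  have hact : ∀ y : Em K → ℍ, (((g • y) w : ℍ) : ℂ) = lz (g 0) y w / lz (g 1) y w := by
    intro y
    have h3 := UpperHalfPlane.coe_smul_of_det_pos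
      (g := Matrix.GeneralLinearGroup.map (n := Fin 2) w g) (by rw [hD]; exact hpos) (y w)
    have h4 : denom (Matrix.GeneralLinearGroup.map (n := Fin 2) w g) (y w) = lz (g 1) y w := by
      simp [denom, lz]
    have h5 : num (Matrix.GeneralLinearGroup.map (n := Fin 2) w g) (y w) = lz (g 0) y w := by
      simp [num, lz]
    rw [h4, h5] at h3
    exact h3
  have hg' : ∀ w : Em K, 0 < w (g : Matrix (Fin 2) (Fin 2) K).det := hg
  have hn := lz_ne hrow z w
  have hn' := lz_ne hrow z' w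
  have hn'c : starRingEnd ℂ (lz (g 1) z' w) ≠ 0 := by
    rw [Ne, map_eq_zero]
    exact hn'
  have hdet : (g : Matrix (Fin 2) (Fin 2) K).det = g 0 0 * g 1 1 - g 0 1 * g 1 0 :=
    Matrix.det_fin_two _
  have hnum : lz (g 0) z w * starRingEnd ℂ (lz (g 1) z' w) -
      starRingEnd ℂ (lz (g 0) z' w) * lz (g 1) z w =
      ((w (g : Matrix (Fin 2) (Fin 2) K).det : ℝ) : ℂ) *
        ((z w : ℂ) - starRingEnd ℂ (z' w : ℂ)) := by
    rw [hdet]
    simp only [lz, map_add, map_mul, map_sub, Complex.conj_ofReal]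
    push_cast
    ring
  have hdiff : (((g • z) w : ℍ) : ℂ) - starRingEnd ℂ (((g • z') w : ℍ) : ℂ) =
      ((w (g : Matrix (Fin 2) (Fin 2) K).det : ℝ) : ℂ) *
        ((z w : ℂ) - starRingEnd ℂ (z' w : ℂ)) /
        (lz (g 1) z w * starRingEnd ℂ (lz (g 1) z' w)) := by
    rw [← hnum, hact, hact, map_div₀]
    field_simp
  rw [WA.ch, WA.ch, hdiff, im_act g hg', im_act g hg', norm_div, norm_mul, norm_mul,
    Complex.norm_conj, Complex.norm_real, Real.norm_eq_abs, abs_of_pos hpos]
  have h1 : ‖lz (g 1) z w‖ ≠ 0 := norm_ne_zero_iff.mpr hn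
  have h2 : ‖lz (g 1) z' w‖ ≠ 0 := norm_ne_zero_iff.mpr hn'
  have h3 := (z w).im_pos.ne'
  have h4 := (z' w).im_pos.ne'
  have h5 := hpos.ne'
  field_simp

theorem chW_act {g : GL (Fin 2) K} (hg : g ∈ GP K) (z z' : Em K → ℍ) :
    chW (g • z) (g • z') = chW z z' :=
  Finset.prod_congr rfl fun w _ => rd1_act hg z z' w

theorem rd1_eq (z w : ℍ) : WA.ch z w = Real.cosh (dist z w / 2) ^ 2 := by
  rw [UpperHalfPlane.cosh_half_dist, WA.ch, div_pow, mul_pow, Real.sq_sqrt
    (mul_nonneg z.im_pos.le w.im_pos.le), Complex.dist_eq]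
  congr 1
  ring

theorem rd1_tri (z w v : ℍ) : WA.ch z v ≤ 4 * WA.ch z w * WA.ch w v := by
  rw [rd1_eq, rd1_eq, rd1_eq]
  have h1 : Real.cosh (dist z v / 2) ≤ Real.cosh (dist z w / 2 + dist w v / 2) := by
    rw [Real.cosh_le_cosh, abs_of_nonneg (by positivity), abs_of_nonneg (by positivity)]
    have := dist_triangle z w v
    linarith
  have h2 : Real.cosh (dist z w / 2 + dist w v / 2) ≤
      2 * (Real.cosh (dist z w / 2) * Real.cosh (dist w v / 2)) := by
    rw [Real.cosh_add]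
    have h3 : Real.sinh (dist z w / 2) ≤ Real.cosh (dist z w / 2) := (Real.sinh_lt_cosh _).le
    have h4 : Real.sinh (dist w v / 2) ≤ Real.cosh (dist w v / 2) := (Real.sinh_lt_cosh _).le
    have h5 : 0 ≤ Real.sinh (dist w v / 2) := Real.sinh_nonneg_iff.mpr (by positivity)
    have h6 := Real.cosh_pos (dist z w / 2)
    nlinarith [mul_le_mul h3 h4 h5 h6.le]
  have h7 := Real.cosh_pos (dist z v / 2)
  calc Real.cosh (dist z v / 2) ^ 2
      ≤ (2 * (Real.cosh (dist z w / 2) * Real.cosh (dist w v / 2))) ^ 2 :=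
        pow_le_pow_left₀ h7.le (h1.trans h2) 2
    _ = _ := by ring

/-- `cosh(a + b) ≤ 2 cosh a cosh b` -/
theorem chW_tri (z z' z'' : Em K → ℍ) :
    chW z z'' ≤ 4 ^ Fintype.card (Em K) * chW z z' * chW z' z'' := by
  have h1 : (4 : ℝ) ^ Fintype.card (Em K) = ∏ _w : Em K, (4 : ℝ) := by
    rw [Finset.prod_const, Finset.card_univ]
  unfold chW
  rw [h1, ← Finset.prod_mul_distrib, ← Finset.prod_mul_distrib]
  exact Finset.prod_le_prod (fun w _ => zero_le_one.trans (rd1_one _ _)) fun w _ => rd1_tri _ _ _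

theorem chW_box {r : ℝ} (hr : r ≤ 1 / 4) {z z' : Em K → ℍ} (hz : z ∈ BX K r)
    (hz' : z' ∈ BX K r) : chW z z' ≤ 2 ^ Fintype.card (Em K) := by
  have h1 : (2 : ℝ) ^ Fintype.card (Em K) = ∏ _w : Em K, (2 : ℝ) := by
    rw [Finset.prod_const, Finset.card_univ]
  unfold chW
  rw [h1]
  refine Finset.prod_le_prod (fun w _ => zero_le_one.trans (rd1_one _ _)) fun w _ => ?_
  have ha := abs_le.mp ((hz w).1.trans hr)
  have hb := abs_le.mp ((hz w).2.trans hr)
  have hc := abs_le.mp ((hz' w).1.trans hr)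
  have hd := abs_le.mp ((hz' w).2.trans hr)
  rw [ch_form]
  have h2 : ((z w).re - (z' w).re) ^ 2 ≤ 1 / 4 := by nlinarith
  have h3 : ((z w).im - (z' w).im) ^ 2 ≤ 1 / 4 := by nlinarith
  have h4 : 49 / 4 ≤ 4 * (z w).im * (z' w).im := by nlinarith
  have h5 : (((z w).re - (z' w).re) ^ 2 + ((z w).im - (z' w).im) ^ 2) /
      (4 * (z w).im * (z' w).im) ≤ 1 := by
    rw [div_le_one (by linarith)]
    linarith
  linarith

/-- locally uniformly -/
theorem chW_near (z : Em K → ℍ) : ∃ s : ℝ, 0 < s ∧ ∀ z' : Em K → ℂ,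
    dist z' (fun w => (z w : ℂ)) < s → (∀ w, 0 < (z' w).im) →
      chW z (fun w => ofComplex (z' w)) ≤ 2 ∧ NY z / 2 ≤ NY (fun w => ofComplex (z' w)) := by
  set z0 : Em K → ℂ := fun w => (z w : ℂ) with hz0
  set G : (Em K → ℂ) → ℝ := fun y => ∏ w : Em K, (1 + (((z w).re - (y w).re) ^ 2 +
    ((z w).im - (y w).im) ^ 2) / (4 * (z w).im * (y w).im)) with hG
  set H : (Em K → ℂ) → ℝ := fun y => ∏ w : Em K, (y w).im with hH
  have hGc : ContinuousAt G z0 := by
    refine tendsto_finsetProd _ fun w _ => ?_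
    have hre : ContinuousAt (fun y : Em K → ℂ => (y w).re) z0 :=
      (Complex.continuous_re.comp (continuous_apply w)).continuousAt
    have him : ContinuousAt (fun y : Em K → ℂ => (y w).im) z0 :=
      (Complex.continuous_im.comp (continuous_apply w)).continuousAt
    have hne : 4 * (z w).im * (z0 w).im ≠ 0 := by
      have h := (z w).im_pos.ne'
      have h' : (z0 w).im ≠ 0 := h
      positivity
    exact continuousAt_const.add ((((continuousAt_const.sub hre).pow 2).add
      ((continuousAt_const.sub him).pow 2)).div (continuousAt_const.mul him) hne)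
  have hHc : ContinuousAt H z0 := by
    refine tendsto_finsetProd _ fun w _ => ?_
    exact (Complex.continuous_im.comp (continuous_apply w)).continuousAt
  have hG0 : G z0 = 1 := by
    refine Finset.prod_eq_one fun w _ => ?_
    simp [hz0]
  have hH0 : H z0 = NY z := rfl
  have hNY : 0 < NY z := Finset.prod_pos fun w _ => (z w).im_pos
  have h1 : ∀ᶠ y in 𝓝 z0, G y < 2 := by
    have := hGc.tendsto
    rw [hG0] at this
    exact this.eventually_lt_const (by norm_num)
  have h2 : ∀ᶠ y in 𝓝 z0, NY z / 2 < H y := by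
    have := hHc.tendsto
    rw [hH0] at this
    exact this.eventually_const_lt (by linarith)
  obtain ⟨s, hs, hs'⟩ := Metric.eventually_nhds_iff.mp (h1.and h2)
  refine ⟨s, hs, fun y hy him => ?_⟩
  obtain ⟨hg, hh⟩ := hs' hy
  have hco : ∀ w, ((ofComplex (y w) : ℍ) : ℂ) = y w := fun w => by
    rw [UpperHalfPlane.ofComplex_apply_of_im_pos (him w)]
  have hre : ∀ w, (ofComplex (y w) : ℍ).re = (y w).re := fun w => by
    rw [← UpperHalfPlane.coe_re, hco]
  have him' : ∀ w, (ofComplex (y w) : ℍ).im = (y w).im := fun w => by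
    rw [← UpperHalfPlane.coe_im, hco]
  constructor
  · have : chW z (fun w => ofComplex (y w)) = G y := by
      refine Finset.prod_congr rfl fun w _ => ?_
      rw [ch_form, hre, him']
    rw [this]
    exact hg.le
  · have : NY (fun w => ofComplex (y w)) = H y := by
      refine Finset.prod_congr rfl fun w _ => ?_
      rw [him']
    rw [this]
    exact hh.le

end Pool.Agent.HSG

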