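import Pool.Agent.Lib_helper45.HSK.Defs

/-! # HSR block RD2 (MEA): the measure -/

namespace Pool.Agent.HSG

open Complex MeasureTheory Filter Topology UpperHalfPlane NumberField IsDedekindDomain
open scoped nonZeroDivisors MatrixGroups ENNReal

variable {K : Type} [Field K] [NumberField K]

theorem gp_mp {g : GL (Fin 2) K} (hg : g ∈ GP K) :
    MeasurePreserving (fun z : Em K → ℍ => g • z) volume volume := by
  have h1 : ∀ w : Em K, MeasurePreserving
      (fun z : ℍ => (Matrix.GeneralLinearGroup.map (n := Fin 2) w g) • z) volume volume :=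
    fun w => measurePreserving_smul _ _
  exact volume_preserving_pi h1

/-- the one variable box -/
def rd2_B (r : ℝ) : Set ℍ := {τ | |τ.re| ≤ r ∧ |τ.im - 2| ≤ r}

theorem rd2_eq (r : ℝ) : BX K r = Set.pi Set.univ (fun _ : Em K => rd2_B r) := by
  ext z
  simp only [Set.mem_pi, Set.mem_univ, forall_true_left]
  rfl

theorem rd2_pre (r : ℝ) : rd2_B r =
    (UpperHalfPlane.coe ⁻¹' (Set.Icc (-r) r ×ℂ Set.Icc (2 - r) (2 + r)) : Set ℍ) := by
  ext z
  simp only [rd2_B, Set.mem_ofPred_eq, Set.mem_preimage, Complex.mem_reProdIm, Set.mem_Icc,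
    abs_le, UpperHalfPlane.coe_re, UpperHalfPlane.coe_im]
  constructor
  · rintro ⟨h1, h2, h3⟩
    exact ⟨h1, by linarith, by linarith⟩
  · rintro ⟨h1, h2, h3⟩
    exact ⟨h1, by linarith, by linarith⟩

theorem rd2_compact (r : ℝ) (hr1 : r ≤ 1 / 4) : IsCompact (rd2_B r) := by
  rw [rd2_pre]
  refine UpperHalfPlane.isOpenEmbedding_coe.isInducing.isCompact_preimage'
    (isCompact_Icc.reProdIm isCompact_Icc) ?_
  intro z hz
  rw [Complex.mem_reProdIm] at hz
  have h1 : 0 < z.im := by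
    have := hz.2.1
    linarith
  exact ⟨⟨z, h1⟩, rfl⟩

theorem rd2_pos (r : ℝ) (hr : 0 < r) (hr1 : r ≤ 1 / 4) : 0 < volume (rd2_B r) := by
  rw [UpperHalfPlane.volume_eq_lintegral, setLIntegral_pos_iff (by fun_prop)]
  have hU : IsOpen (Set.Ioo (-r) r ×ℂ Set.Ioo (2 - r) (2 + r)) :=
    isOpen_Ioo.reProdIm isOpen_Ioo
  have hne : (Set.Ioo (-r) r ×ℂ Set.Ioo (2 - r) (2 + r)).Nonempty := by
    refine ⟨⟨0, 2⟩, ?_⟩
    rw [Complex.mem_reProdIm]
    exact ⟨⟨by simpa using hr, by simpa using hr⟩, by simpa using hr, by simpa using hr⟩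
  refine lt_of_lt_of_le (hU.measure_pos volume hne) (measure_mono ?_)
  intro z hz
  rw [Complex.mem_reProdIm] at hz
  have h1 : 0 < z.im := by
    have := hz.2.1
    linarith
  refine ⟨?_, ⟨z, h1⟩, ?_, rfl⟩
  · rw [Function.mem_support]
    have h2 : ‖z.im‖₊ ≠ 0 := by
      rw [ne_eq, nnnorm_eq_zero]
      exact h1.ne'
    have h3 : (1 / ‖z.im‖₊) ^ 2 ≠ (0 : NNReal) := by positivity
    exact_mod_cast h3
  · rw [rd2_pre]
    exact ⟨Set.Ioo_subset_Icc_self hz.1, Set.Ioo_subset_Icc_self hz.2⟩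

theorem bx_meas (r : ℝ) (hr : 0 < r) (hr1 : r ≤ 1 / 4) : MeasurableSet (BX K r) ∧
    0 < volume (BX K r) ∧ volume (BX K r) < ∞ := by
  have hc := rd2_compact r hr1
  rw [rd2_eq]
  refine ⟨MeasurableSet.univ_pi fun _ => hc.isClosed.measurableSet, ?_, ?_⟩
  · rw [volume_pi_pi]
    exact pos_iff_ne_zero.mpr (Finset.prod_ne_zero_iff.mpr fun w _ => (rd2_pos r hr hr1).ne')
  · rw [volume_pi_pi]
    exact ENNReal.prod_lt_top fun w _ => hc.measure_lt_top

end Pool.Agent.HSG
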