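import Pool.Agent.Lib_helper45.HSK.Defs
import Pool.Agent.Lib_helper84.HSGF.GA1
import Pool.Agent.Lib_helper84.HSGF.GA3
import Pool.Agent.Lib_helper84.HSGF.GB1
import Pool.Agent.Lib_helper84.HSGF.GB2
import Pool.Agent.Lib_helper84.HSGF.GI1

/-!
# HSR, block RE1 (PAR): elements of the extended modular group which fix the cusp
-/

namespace Pool.Agent.HSG

open Complex MeasureTheory Filter Topology UpperHalfPlane NumberField IsDedekindDomain
open scoped nonZeroDivisors MatrixGroups ENNReal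

variable {K : Type} [Field K] [NumberField K]

theorem re1_mul_act (g : GL (Fin 2) K) (L : Lat K) : g • (L.mul g) = L := by
  show (L.mul g).mul g⁻¹ = L
  rw [← mul_mul, mul_inv_cancel]
  have h1 : (1 : GL (Fin 2) K) • L = L := one_smul _ L
  have h2 : (1 : GL (Fin 2) K) • L = L.mul 1⁻¹ := rfl
  rw [h2, inv_one] at h1
  exact h1

omit [NumberField K] in
theorem re1_e_ne : (![0, 1] : Fin 2 → K) ≠ 0 := by
  intro h
  have := congrFun h 1
  simp at this

section tr
variable [IsTotallyReal K]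

theorem gap_hyp {g : GL (Fin 2) K} (hg : g ∈ GP K) (hs : St g (Lat.ds 1 1))
    (h : dt ![0, 1] (Matrix.vecMul ![0, 1] ((g⁻¹ : GL (Fin 2) K) : Matrix (Fin 2) (Fin 2) K)) ≠ 0)
    (z : Em K → ℍ) : NY z * NY (g • z) ≤ 1 := by
  obtain ⟨a, ha⟩ := hs
  have h1 : ht (Matrix.vecMul ![0, 1] ((g⁻¹ : GL (Fin 2) K) : Matrix (Fin 2) (Fin 2) K)) (g • z)
      (Lat.ds 1 1) = NY z := by
    rw [← re1_mul_act g (Lat.ds 1 1), ht_act g hg re1_e_ne, ha, ht_sm a re1_e_ne, ht_ds, div_one,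
      nI_one, mul_one]
  have h2 : ht ![0, 1] (g • z) (Lat.ds 1 1) = NY (g • z) := by
    rw [ht_ds, div_one, nI_one, mul_one]
  have h3 := ht_two h (g • z) (Lat.ds 1 1)
  rw [h1, h2] at h3
  rw [mul_comm]
  exact h3

theorem gap_par {g : GL (Fin 2) K} (hg : g ∈ GP K) (hs : St g (Lat.ds 1 1))
    (h : dt ![0, 1] (Matrix.vecMul ![0, 1] ((g⁻¹ : GL (Fin 2) K) : Matrix (Fin 2) (Fin 2) K)) = 0) :
    ∃ (ε : Kˣ) (β : K), ε ∈ Up K ∧ β ∈ (1 : Id K).m ∧ (ε = 1 → β = 0 → Sc g) ∧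
      ∀ (z : Em K → ℍ) (w : Em K), ((g • z) w).im = w (ε : K) * (z w).im ∧
        ((g • z) w).re = w (ε : K) * (z w).re + w β := by
  obtain ⟨a, ha⟩ := hs
  set G : Matrix (Fin 2) (Fin 2) K := (g : Matrix (Fin 2) (Fin 2) K) with hG
  set H : Matrix (Fin 2) (Fin 2) K := ((g⁻¹ : GL (Fin 2) K) : Matrix (Fin 2) (Fin 2) K) with hH
  have hHG : H * G = 1 := by
    rw [hG, hH, ← Units.val_mul, inv_mul_cancel]
    rfl
  have hH10 : H 1 0 = 0 := by
    have h1 : Matrix.vecMul ![0, 1] H 0 = H 1 0 := by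
      simp [Matrix.vecMul, dotProduct, Fin.sum_univ_two]
    have h2 : dt ![0, 1] (Matrix.vecMul ![0, 1] H) = -(Matrix.vecMul ![0, 1] H 0) := by
      simp [dt]
    rw [h2, h1] at h
    exact neg_eq_zero.mp h
  have e10 : H 1 0 * G 0 0 + H 1 1 * G 1 0 = 0 := by
    have h1 := congrFun (congrFun hHG 1) 0
    simpa [Matrix.mul_apply, Fin.sum_univ_two] using h1
  have e11 : H 1 0 * G 0 1 + H 1 1 * G 1 1 = 1 := by
    have h1 := congrFun (congrFun hHG 1) 1
    simpa [Matrix.mul_apply, Fin.sum_univ_two] using h1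
  have e00 : H 0 0 * G 0 0 + H 0 1 * G 1 0 = 1 := by
    have h1 := congrFun (congrFun hHG 0) 0
    simpa [Matrix.mul_apply, Fin.sum_univ_two] using h1
  rw [hH10, zero_mul, zero_add] at e10 e11
  have hH11 : H 1 1 ≠ 0 := left_ne_zero_of_mul_eq_one e11
  have hG11 : G 1 1 ≠ 0 := right_ne_zero_of_mul_eq_one e11
  have hG10 : G 1 0 = 0 := (mul_eq_zero.mp e10).resolve_left hH11
  rw [hG10, mul_zero, add_zero] at e00
  have hG00 : G 0 0 ≠ 0 := right_ne_zero_of_mul_eq_one e00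
  have hdet : G.det = G 0 0 * G 1 1 := by rw [Matrix.det_fin_two, hG10]; ring
  set α : Kˣ := Units.mk0 (G 0 0) hG00 with hα
  set δ : Kˣ := Units.mk0 (G 1 1) hG11 with hδ
  have hgd : Matrix.GeneralLinearGroup.det g = α * δ := by
    ext
    rw [Units.val_mul, hα, hδ, Units.val_mk0, Units.val_mk0, ← hdet]
    rfl
  -- the ideal
  have hpa : prI δ = a := by
    have h1 : Matrix.vecMul ![0, 1] H = ((δ⁻¹ : Kˣ) : K) • (![0, 1] : Fin 2 → K) := by
      have h2 : ((δ⁻¹ : Kˣ) : K) = H 1 1 := by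
        rw [Units.val_inv_eq_inv_val, hδ, Units.val_mk0]
        exact (eq_inv_of_mul_eq_one_left e11).symm
      rw [h2]
      ext i
      fin_cases i
      · simp [Matrix.vecMul, dotProduct, Fin.sum_univ_two, hH10]
      · simp [Matrix.vecMul, dotProduct, Fin.sum_univ_two]
    have h3 := av_act g ((Lat.ds 1 1).mul g) (v := ![0, 1]) re1_e_ne
    rw [re1_mul_act, ← hH, h1, av_scal _ _ re1_e_ne, ha, av_sm _ _ re1_e_ne, av_ds, map_inv,
      inv_inv, mul_one, mul_one] at h3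
    exact h3
  have hpε : prI α = a := by
    have h1 := det_mul (Lat.ds 1 1) g
    rw [ha, det_sm, det_ds, hgd, map_mul, hpa, mul_one, mul_one, mul_one, pow_two] at h1
    exact (mul_right_cancel h1).symm
  have hβ : ((δ⁻¹ : Kˣ) : K) * G 0 1 ∈ (1 : Id K).m := by
    rw [← mem_prI_mul, hpa]
    have h1 : (Matrix.vecMul ![1, 0] G) ∈ ((Lat.ds 1 1).mul g).M := by
      refine ⟨![1, 0], ⟨?_, ?_⟩, rfl⟩
      · show (![1, 0] : Fin 2 → K) 0 ∈ (1 : Id K).m
        rw [mem_m_one]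
        exact ⟨1, by simp⟩
      · show (![1, 0] : Fin 2 → K) 1 ∈ (1 : Id K).m
        exact (1 : Id K).m.zero_mem
    rw [ha, ds_sm] at h1
    have h2 : (Matrix.vecMul ![1, 0] G) 1 ∈ (a * 1).m := h1.2
    have h3 : Matrix.vecMul ![1, 0] G 1 = G 0 1 := by
      simp [Matrix.vecMul, dotProduct, Fin.sum_univ_two]
    rw [h3] at h2
    exact h2
  have hpos : ∀ w : Em K, 0 < w (G 0 0) * w (G 1 1) := by
    intro w
    have h1 := hg w
    rw [← hG, hdet, map_mul] at h1
    exact h1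
  refine ⟨α * δ⁻¹, ((δ⁻¹ : Kˣ) : K) * G 0 1, ?_, hβ, ?_, ?_⟩
  · refine ⟨?_, ?_⟩
    · intro w
      have h1 := hpos w
      have h2 : w (G 1 1) ≠ 0 := by
        intro h3
        rw [h3, mul_zero] at h1
        exact lt_irrefl _ h1
      have h4 : w ((α * δ⁻¹ : Kˣ) : K) = w (G 0 0) / w (G 1 1) := by
        rw [Units.val_mul, Units.val_inv_eq_inv_val, hα, hδ, Units.val_mk0, Units.val_mk0, map_mul,
          map_inv₀, div_eq_mul_inv]
      rw [h4, show w (G 0 0) / w (G 1 1) = (w (G 0 0) * w (G 1 1)) / (w (G 1 1)) ^ 2 by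
        field_simp]
      positivity
    · show prI (α * δ⁻¹) = 1
      rw [map_mul, map_inv, hpa, hpε, mul_inv_cancel]
  · intro h1 h2
    refine ⟨δ, ?_⟩
    have h3 : G 0 1 = 0 := by
      rcases mul_eq_zero.mp h2 with h | h
      · exact absurd h (Units.ne_zero _)
      · exact h
    have h4 : α = δ := by rwa [mul_inv_eq_one] at h1
    have h5 : G 0 0 = G 1 1 := by
      have := congrArg (fun u : Kˣ => (u : K)) h4
      simpa [hα, hδ] using this
    rw [← hG]
    ext i j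
    fin_cases i <;> fin_cases j
    · simp [hδ, h5]
    · simp [h3]
    · simp [hG10]
    · simp [hδ]
  · intro z w
    have hd : 0 < (Matrix.GeneralLinearGroup.map (n := Fin 2) w g).det.val := by
      have h1 := hg w
      rw [← hG] at h1
      have h2 : (Matrix.GeneralLinearGroup.map (n := Fin 2) w g).det.val = w G.det := by
        rw [hG]
        simp [RingHom.map_det]
      rw [h2]
      exact h1
    have h1 : (((g • z) w : ℍ) : ℂ) = ((w (G 0 0) : ℝ) * (z w : ℂ) + (w (G 0 1) : ℝ)) /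
        ((w (G 1 1) : ℝ) : ℂ) := by
      have h2 : (g • z) w = (Matrix.GeneralLinearGroup.map (n := Fin 2) w g) • z w := rfl
      rw [h2, coe_smul_of_det_pos hd]
      have h3 : denom (Matrix.GeneralLinearGroup.map (n := Fin 2) w g) (z w : ℂ) =
          ((w (G 1 1) : ℝ) : ℂ) := by
        simp [denom, ← hG, hG10]
      rw [h3]
      congr 1
    have h2 : w (G 1 1) ≠ 0 := by
      have h3 := hpos w
      intro h4
      rw [h4, mul_zero] at h3
      exact lt_irrefl _ h3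
    have h4 : w ((α * δ⁻¹ : Kˣ) : K) = w (G 0 0) / w (G 1 1) := by
      rw [Units.val_mul, Units.val_inv_eq_inv_val, hα, hδ, Units.val_mk0, Units.val_mk0, map_mul,
        map_inv₀, div_eq_mul_inv]
    have h5 : w (((δ⁻¹ : Kˣ) : K) * G 0 1) = w (G 0 1) / w (G 1 1) := by
      rw [Units.val_inv_eq_inv_val, hδ, Units.val_mk0, map_mul, map_inv₀]
      field_simp
    have h6 : (((g • z) w : ℍ) : ℂ) = ((w (G 0 0) / w (G 1 1) : ℝ) : ℂ) * (z w : ℂ) +
        ((w (G 0 1) / w (G 1 1) : ℝ) : ℂ) := by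
      rw [h1]
      push_cast
      have : ((w (G 1 1) : ℝ) : ℂ) ≠ 0 := by exact_mod_cast h2
      field_simp
    rw [h4, h5]
    constructor
    · have h7 := congrArg Complex.im h6
      rw [coe_im] at h7
      rw [h7]
      simp
    · have h7 := congrArg Complex.re h6
      rw [coe_re] at h7
      rw [h7]
      simp

end tr


end Pool.Agent.HSG
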