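import Pool.Agent.Lib_helper45.HSK.Defs
import Pool.Agent.Lib_helper45.HSRF.RD1
import Pool.Agent.Lib_helper45.HSRF.RE1
import Pool.Agent.Lib_helper84.HSGF.GA3
import Pool.Agent.Lib_helper84.HSGF.GD1
import Pool.Agent.Lib_helper84.HSGF.GF1

/-!
# HSR, block RE2 (GAP): no elements of the extended modular group near the identity
-/

namespace Pool.Agent.HSG

open Complex MeasureTheory Filter Topology UpperHalfPlane NumberField IsDedekindDomain
open scoped nonZeroDivisors MatrixGroups ENNReal

variable {K : Type} [Field K] [NumberField K]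

theorem re2_cosh {x s : ℝ} (hs : 0 ≤ s) (h : s ≤ |x|) :
    2 + s ^ 2 / 2 ≤ Real.exp x + Real.exp (-x) := by
  have key : ∀ y : ℝ, 0 ≤ y → 2 + y ^ 2 / 2 ≤ Real.exp y + Real.exp (-y) := by
    intro y hy
    have h1 := Real.quadratic_le_exp_of_nonneg hy
    have h2 := Real.add_one_le_exp (-y)
    linarith
  have h1 : 2 + |x| ^ 2 / 2 ≤ Real.exp x + Real.exp (-x) := by
    rcases abs_cases x with ⟨h2, h3⟩ | ⟨h2, h3⟩
    · rw [h2]
      exact key x h3
    · rw [h2]
      have := key (-x) (by linarith)
      rw [neg_neg] at this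
      linarith
  have h2 : s ^ 2 ≤ |x| ^ 2 := pow_le_pow_left₀ hs h 2
  linarith

/-- the lower bound for `ch` in terms of the logarithms of the imaginary parts -/
theorem re2_ch (a b : ℍ) {s : ℝ} (hs : 0 ≤ s)
    (h : s ≤ |Real.log a.im - Real.log b.im|) : 1 + s ^ 2 / 8 ≤ WA.ch a b := by
  have h1 := ch_log a b
  have h2 := re2_cosh hs h
  have h3 : Real.exp (Real.log a.im - Real.log b.im) = a.im / b.im := by
    rw [Real.exp_sub, Real.exp_log a.im_pos, Real.exp_log b.im_pos]
  have h4 : Real.exp (-(Real.log a.im - Real.log b.im)) = b.im / a.im := by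
    rw [neg_sub, Real.exp_sub, Real.exp_log a.im_pos, Real.exp_log b.im_pos]
  rw [h3, h4] at h2
  linarith

section tr
variable [IsTotallyReal K]

theorem re2_unit : ∃ c : ℝ, 0 < c ∧ ∀ ε ∈ Uu K, (∀ w, |lg ε w| < c) → ε = 1 ∨ ε = -1 := by
  classical
  set T : Finset Kˣ := (uu_finite (K := K) 1).toFinset.filter (fun ε => ¬ (ε = 1 ∨ ε = -1)) with hT
  obtain ⟨c, hc, hcf⟩ : ∃ c : ℝ, 0 < c ∧ ∀ ε ∈ T, c ≤ ∑ w, |lg ε w| := by
    rcases T.eq_empty_or_nonempty with h | h
    · exact ⟨1, one_pos, fun ε hε => by simp [h] at hε⟩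
    · obtain ⟨ε0, h0, hmin⟩ := T.exists_min_image (fun ε => ∑ w, |lg ε w|) h
      refine ⟨_, ?_, hmin⟩
      rw [hT, Finset.mem_filter, Set.Finite.mem_toFinset] at h0
      have h1 : ∃ w, lg ε0 w ≠ 0 := by
        by_contra hcon
        push Not at hcon
        exact h0.2 (lg_ker h0.1.1 hcon)
      obtain ⟨w, hw⟩ := h1
      exact Finset.sum_pos' (fun _ _ => abs_nonneg _) ⟨w, Finset.mem_univ _, abs_pos.mpr hw⟩
  set n : ℝ := (Fintype.card (Em K) : ℝ) with hn
  have hn0 : 0 ≤ n := Nat.cast_nonneg _
  refine ⟨min 1 (c / (n + 1)), by positivity, ?_⟩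
  intro ε hε hlt
  by_contra hcon
  have h1 : ε ∈ T := by
    rw [hT, Finset.mem_filter, Set.Finite.mem_toFinset]
    exact ⟨⟨hε, fun w => ((hlt w).trans_le (min_le_left _ _)).le⟩, hcon⟩
  have h2 := hcf ε h1
  have h3 : ∑ w, |lg ε w| ≤ ∑ _w : Em K, c / (n + 1) :=
    Finset.sum_le_sum fun w _ => ((hlt w).trans_le (min_le_right _ _)).le
  rw [Finset.sum_const, Finset.card_univ, nsmul_eq_mul, ← hn] at h3
  have h4 : n * (c / (n + 1)) < c := by
    rw [mul_div_assoc', div_lt_iff₀ (by positivity)]
    nlinarith
  linarith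

theorem gap_exists : ∃ r δ : ℝ, GapB K r δ := by
  obtain ⟨c, hc, hu⟩ := re2_unit (K := K)
  have hn : Nonempty (Em K) := by
    rw [← Fintype.card_pos_iff, card_em]
    exact dg_pos
  refine ⟨min (1 / 4) (c / 4), min (1 / 81) (c ^ 2 / 32), ?_⟩
  refine ⟨by positivity, min_le_left _ _, by positivity, ?_⟩
  intro g hg hs z hz z' hz' hlt
  set r : ℝ := min (1 / 4) (c / 4) with hr
  have hr1 : r ≤ 1 / 4 := min_le_left _ _
  have hr2 : r ≤ c / 4 := min_le_right _ _
  have hr0 : 0 < r := by positivity
  have hδ1 : chW (g • z) z' < 1 + 1 / 81 := hlt.trans_le (by gcongr; exact min_le_left _ _)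
  have hδ2 : chW (g • z) z' < 1 + c ^ 2 / 32 := hlt.trans_le (by gcongr; exact min_le_right _ _)
  have hch : ∀ w, WA.ch ((g • z) w) (z' w) ≤ chW (g • z) z' := (chW_ge (g • z) z').2
  have hzim : ∀ w, 2 - r ≤ (z w).im ∧ (z w).im ≤ 2 + r := fun w => by
    have := abs_le.mp (hz w).2
    constructor <;> linarith [this.1, this.2]
  have hzim' : ∀ w, 2 - r ≤ (z' w).im ∧ (z' w).im ≤ 2 + r := fun w => by
    have := abs_le.mp (hz' w).2
    constructor <;> linarith [this.1, this.2]
  by_cases hd : dt ![0, 1]
      (Matrix.vecMul ![0, 1] ((g⁻¹ : GL (Fin 2) K) : Matrix (Fin 2) (Fin 2) K)) = 0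
  · obtain ⟨ε, β, hε, hβ, hsc, hact⟩ := gap_par hg hs hd
    by_cases h1 : ε = 1
    · by_cases h2 : β = 0
      · exact hsc h1 h2
      · exfalso
        -- some conjugate of `β` has absolute value at least 1
        obtain ⟨w, hw⟩ : ∃ w : Em K, 1 ≤ |w β| := by
          by_contra hcon
          push Not at hcon
          have h3 : nI (1 : Id K) ≤ nI (prI (Units.mk0 β h2)) := nI_mem hβ
          rw [nI_one, nI_prI] at h3
          have h4 : ∏ w : Em K, |w ((Units.mk0 β h2 : Kˣ) : K)| < ∏ _w : Em K, (1 : ℝ) := by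
            refine Finset.prod_lt_prod_of_nonempty (fun w _ => ?_) (fun w _ => ?_)
              Finset.univ_nonempty
            · rw [abs_pos, Units.val_mk0]
              exact fun h5 => h2 ((map_eq_zero w).mp h5)
            · rw [Units.val_mk0]
              exact hcon w
          rw [Finset.prod_const_one] at h4
          exact absurd h3 (not_le.mpr h4)
        have h3 := ch_form ((g • z) w) (z' w)
        obtain ⟨h4, h5⟩ := hact z w
        rw [h1, Units.val_one, map_one, one_mul] at h4 h5
        rw [h4, h5] at h3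
        have h6 : (1 / 2 : ℝ) ≤ |(z w).re + w β - (z' w).re| := by
          have h7 := (hz w).1
          have h8 := (hz' w).1
          have h9 : |w β| ≤ |(z w).re + w β - (z' w).re| + |(z w).re| + |(z' w).re| := by
            have e1 : w β = ((z w).re + w β - (z' w).re) + (-(z w).re) + (z' w).re := by ring
            calc |w β| = |((z w).re + w β - (z' w).re) + (-(z w).re) + (z' w).re| := by rw [← e1]
              _ ≤ |(z w).re + w β - (z' w).re| + |-(z w).re| + |(z' w).re| := abs_add_three _ _ _
              _ = _ := by rw [abs_neg]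
          linarith
        have h7 : (1 / 4 : ℝ) ≤ ((z w).re + w β - (z' w).re) ^ 2 := by
          rw [← sq_abs]
          nlinarith
        have h8 : 0 < (z w).im := (z w).im_pos
        have h9 : 0 < (z' w).im := (z' w).im_pos
        have h10 : 4 * (z w).im * (z' w).im ≤ 81 / 4 := by
          have e1 : (z w).im ≤ 9 / 4 := by linarith [(hzim w).2]
          have e2 : (z' w).im ≤ 9 / 4 := by linarith [(hzim' w).2]
          nlinarith
        have h11 : (1 / 81 : ℝ) ≤ (((z w).re + w β - (z' w).re) ^ 2 + ((z w).im - (z' w).im) ^ 2) /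
            (4 * (z w).im * (z' w).im) := by
          rw [le_div_iff₀ (by positivity)]
          nlinarith [sq_nonneg ((z w).im - (z' w).im)]
        have h12 := hch w
        rw [h3] at h12
        linarith
    · exfalso
      -- some conjugate of the unit is not close to 1
      obtain ⟨w, hw⟩ : ∃ w : Em K, c ≤ |lg ε w| := by
        by_contra hcon
        push Not at hcon
        rcases hu ε hε.2 hcon with h3 | h3
        · exact h1 h3
        · obtain ⟨w⟩ := hn
          have h4 := hε.1 w
          rw [h3] at h4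
          simp at h4
          linarith
      have h2 : 0 < w (ε : K) := hε.1 w
      have h3 : lg ε w = Real.log (w (ε : K)) := by
        show Real.log |w (ε : K)| = _
        rw [abs_of_pos h2]
      have h4 := (hact z w).1
      have h5 : Real.log ((g • z) w).im = lg ε w + Real.log (z w).im := by
        rw [h4, Real.log_mul h2.ne' (z w).im_pos.ne', h3]
      -- the logarithms of the imaginary parts in the box
      have hlog : ∀ y y' : ℝ, 2 - r ≤ y → y ≤ 2 + r → 2 - r ≤ y' → y' ≤ 2 + r →
          Real.log y - Real.log y' ≤ c / 2 := by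
        intro y y' h6 h7 h8 h9
        have hy : 0 < y := by linarith
        have hy' : 0 < y' := by linarith
        rw [← Real.log_div hy.ne' hy'.ne', Real.log_le_iff_le_exp (by positivity)]
        have e1 : y / y' ≤ c / 2 + 1 := by
          rw [div_le_iff₀ hy']
          nlinarith
        exact e1.trans (Real.add_one_le_exp _)
      have h6 : |Real.log (z w).im - Real.log (z' w).im| ≤ c / 2 := by
        rw [abs_le]
        have e1 := hlog _ _ (hzim w).1 (hzim w).2 (hzim' w).1 (hzim' w).2
        have e2 := hlog _ _ (hzim' w).1 (hzim' w).2 (hzim w).1 (hzim w).2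
        constructor <;> linarith
      have h7 : c / 2 ≤ |Real.log ((g • z) w).im - Real.log (z' w).im| := by
        rw [h5]
        have e1 : |lg ε w| ≤ |lg ε w + Real.log (z w).im - Real.log (z' w).im| +
            |Real.log (z w).im - Real.log (z' w).im| := by
          have e2 : lg ε w = (lg ε w + Real.log (z w).im - Real.log (z' w).im) -
            (Real.log (z w).im - Real.log (z' w).im) := by ring
          calc |lg ε w| = |(lg ε w + Real.log (z w).im - Real.log (z' w).im) -
            (Real.log (z w).im - Real.log (z' w).im)| := by rw [← e2]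
            _ ≤ _ := abs_sub _ _
        linarith
      have h8 := re2_ch ((g • z) w) (z' w) (by positivity) h7
      have h9 := hch w
      have h10 : (c / 2) ^ 2 / 8 = c ^ 2 / 32 := by ring
      rw [h10] at h8
      linarith
  · exfalso
    have h1 := gap_hyp hg hs hd z
    -- the product of the ratios of the imaginary parts
    obtain ⟨w, hw⟩ : ∃ w : Em K, (49 / 16 : ℝ) ≤ (z' w).im / ((g • z) w).im := by
      by_contra hcon
      push Not at hcon
      have h2 : ∏ w, (z' w).im / ((g • z) w).im < ∏ _w : Em K, (49 / 16 : ℝ) := by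
        refine Finset.prod_lt_prod_of_nonempty (fun w _ => ?_) (fun w _ => hcon w)
          Finset.univ_nonempty
        exact div_pos (z' w).im_pos ((g • z) w).im_pos
      rw [Finset.prod_div_distrib, Finset.prod_const] at h2
      have h3 : 0 < NY (g • z) := Finset.prod_pos fun w _ => ((g • z) w).im_pos
      have h4 : (7 / 4 : ℝ) ^ (Finset.univ : Finset (Em K)).card ≤ NY z := by
        rw [← Finset.prod_const]
        exact Finset.prod_le_prod (fun _ _ => by norm_num) fun w _ => by linarith [(hzim w).1]
      have h5 : (7 / 4 : ℝ) ^ (Finset.univ : Finset (Em K)).card ≤ NY z' := by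
        rw [← Finset.prod_const]
        exact Finset.prod_le_prod (fun _ _ => by norm_num) fun w _ => by linarith [(hzim' w).1]
      have h6 : (∏ w, (z' w).im) / ∏ w, ((g • z) w).im = NY z' / NY (g • z) := rfl
      rw [h6, div_lt_iff₀ h3] at h2
      have h7 : (49 / 16 : ℝ) ^ (Finset.univ : Finset (Em K)).card =
          (7 / 4 : ℝ) ^ (Finset.univ : Finset (Em K)).card *
            (7 / 4 : ℝ) ^ (Finset.univ : Finset (Em K)).card := by
        rw [← mul_pow]
        norm_num
      rw [h7] at h2
      set q : ℝ := (7 / 4 : ℝ) ^ (Finset.univ : Finset (Em K)).card with hq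
      have hq0 : 0 < q := by positivity
      have h8 : q * q * NY (g • z) ≤ q * 1 := by
        rw [mul_assoc]
        refine mul_le_mul_of_nonneg_left ?_ hq0.le
        exact (mul_le_mul_of_nonneg_right h4 h3.le).trans h1
      linarith
    have h2 := ch_log ((g • z) w) (z' w)
    have h3 := hch w
    have h4 : 0 < ((g • z) w).im / (z' w).im := div_pos ((g • z) w).im_pos (z' w).im_pos
    linarith

end tr


end Pool.Agent.HSG
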