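import Pool.Agent.Lib_helper45.HSK.Defs
import Pool.Agent.Lib_helper98.WAF.A1
import Pool.Agent.Lib_helper45.HSRF.RB
import Pool.Agent.Lib_helper45.HSRF.RC2
import Pool.Agent.Lib_helper45.HSRF.RD1
import Pool.Agent.Lib_helper45.HSRF.RD2
import Pool.Agent.Lib_helper84.HSGF.GU2

/-! # Hilbert-Selberg, stage 2, block RF1: the sum over the extended modular group -/

namespace Pool.Agent.HSG

open Complex MeasureTheory Filter Topology UpperHalfPlane NumberField IsDedekindDomain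
open scoped nonZeroDivisors MatrixGroups ENNReal

variable {K : Type} [Field K] [NumberField K]

theorem rf1_countPG (K : Type) [Field K] [NumberField K] : Countable (PG K) := by
  have := countK K
  have h1 : Countable (Matrix (Fin 2) (Fin 2) K) := inferInstanceAs (Countable (Fin 2 → Fin 2 → K))
  have h2 : Countable (GL (Fin 2) K) := by
    have hi : Function.Injective (fun g : GL (Fin 2) K => (g : Matrix (Fin 2) (Fin 2) K)) :=
      fun a b hab => Units.ext hab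
    exact hi.countable
  have h3 : Countable (GP K) := Subtype.countable
  exact Quotient.countable

theorem rf1_self (z : Em K → ℍ) : chW z z = 1 := by
  unfold chW
  refine Finset.prod_eq_one fun w _ => ?_
  rw [ch_form]
  simp

theorem rf1_cont (z' : Em K → ℍ) : Continuous (fun z : Em K → ℍ => chW z z') := by
  unfold chW
  refine continuous_finsetProd _ fun w _ => ?_
  have h1 : Continuous (fun z : Em K → ℍ => (z w, z' w)) :=
    (continuous_apply w).prodMk continuous_const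
  exact WA.ch_cont.comp h1

theorem rf1_meas (z' : Em K → ℍ) :
    Measurable (fun z : Em K → ℍ => ENNReal.ofReal (chW z z' ^ (-(8 : ℝ)))) := by
  refine ENNReal.measurable_ofReal.comp ?_
  exact (rf1_cont z').measurable.pow_const _

theorem rf1_lint : ∃ C : ℝ, 0 < C ∧ ∀ z' : Em K → ℍ,
    ∫⁻ z : Em K → ℍ, ENNReal.ofReal (chW z z' ^ (-(8 : ℝ))) ≤ ENNReal.ofReal C := by
  obtain ⟨C, hC⟩ := ew_lint (ι := Em K)
  refine ⟨max C 1, lt_max_of_lt_right one_pos, fun z' => ?_⟩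
  refine le_trans (le_of_eq ?_) ((hC 16 le_rfl z').trans (ENNReal.ofReal_le_ofReal (le_max_left _ _)))
  refine lintegral_congr fun z => ?_
  rw [← ofReal_norm, ew_norm]
  rw [chW_symm z z']
  unfold chW
  norm_num

theorem rf1_pt {n : ℕ} {a b : ℝ} (ha : 1 ≤ a) (hb : 1 ≤ b) (h : b ≤ 8 ^ n * a) :
    a ^ (-(8 : ℝ)) ≤ (8 ^ n) ^ (8 : ℝ) * b ^ (-(8 : ℝ)) := by
  have h8 : (0 : ℝ) < 8 ^ n := by positivity
  have ha0 : 0 < a := by linarith
  have hb0 : 0 < b := by linarith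
  rw [Real.rpow_neg ha0.le, Real.rpow_neg hb0.le, ← div_eq_mul_inv, inv_eq_one_div,
    div_le_div_iff₀ (by positivity) (by positivity), one_mul, ← Real.mul_rpow h8.le ha0.le]
  exact Real.rpow_le_rpow hb0.le h (by norm_num)

theorem rf1_term {r : ℝ} (hr0 : 0 < r) (hr : r ≤ 1 / 4) {z₀ : Em K → ℍ} (hz₀ : z₀ ∈ BX K r)
    {g : GL (Fin 2) K} (hg : g ∈ GP K) (z : Em K → ℍ) :
    volume (BX K r) * ENNReal.ofReal (chW z₀ (g⁻¹ • z) ^ (-(8 : ℝ))) ≤
      ENNReal.ofReal ((8 ^ Fintype.card (Em K)) ^ (8 : ℝ)) *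
        ∫⁻ ζ in {ζ : Em K → ℍ | g⁻¹ • ζ ∈ BX K r}, ENNReal.ofReal (chW ζ z ^ (-(8 : ℝ))) := by
  obtain ⟨hm, -, -⟩ := bx_meas (K := K) r hr0 hr
  have hgi : g⁻¹ ∈ GP K := (GP K).inv_mem hg
  have hmp := gp_mp hgi
  have h1 := hmp.setLIntegral_comp_preimage hm
    (f := fun ζ : Em K → ℍ => ENNReal.ofReal (chW (g • ζ) z ^ (-(8 : ℝ))))
    ((rf1_meas z).comp (gp_mp hg).measurable)
  have h2 : ∫⁻ ζ in {ζ : Em K → ℍ | g⁻¹ • ζ ∈ BX K r}, ENNReal.ofReal (chW ζ z ^ (-(8 : ℝ))) =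
      ∫⁻ ζ in BX K r, ENNReal.ofReal (chW (g • ζ) z ^ (-(8 : ℝ))) := by
    rw [← h1]
    simp only [smul_inv_smul]
    rfl
  rw [h2, ← lintegral_const_mul' _ _ ENNReal.ofReal_ne_top]
  have h3 : volume (BX K r) * ENNReal.ofReal (chW z₀ (g⁻¹ • z) ^ (-(8 : ℝ))) =
      ∫⁻ _ in BX K r, ENNReal.ofReal (chW z₀ (g⁻¹ • z) ^ (-(8 : ℝ))) := by
    rw [setLIntegral_const, mul_comm]
  rw [h3]
  refine setLIntegral_mono' hm fun ζ hζ => ?_
  rw [← ENNReal.ofReal_mul (by positivity)]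
  refine ENNReal.ofReal_le_ofReal ?_
  have h4 : chW (g • ζ) z = chW ζ (g⁻¹ • z) := by
    rw [← chW_act hgi (g • ζ) z, inv_smul_smul]
  rw [h4]
  refine rf1_pt (chW_ge _ _).1 (chW_ge _ _).1 ?_
  calc chW ζ (g⁻¹ • z) ≤ 4 ^ Fintype.card (Em K) * chW ζ z₀ * chW z₀ (g⁻¹ • z) := chW_tri _ _ _
    _ ≤ 4 ^ Fintype.card (Em K) * 2 ^ Fintype.card (Em K) * chW z₀ (g⁻¹ • z) := by
        have h5 := chW_box hr hζ hz₀
        have h6 : (0 : ℝ) ≤ chW z₀ (g⁻¹ • z) := zero_le_one.trans (chW_ge _ _).1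
        gcongr
    _ = 8 ^ Fintype.card (Em K) * chW z₀ (g⁻¹ • z) := by
        rw [← mul_pow]
        norm_num

set_option linter.unusedSectionVars false in
variable [IsTotallyReal K] in
theorem sg_bound {r δ : ℝ} (h : GapB K r δ) : ∃ C : ℝ, 0 < C ∧ ∀ z₀ ∈ BX K r, ∀ (z : Em K → ℍ)
    (L : Lat K), ∑' c : {c : PG K // St (rp c) L},
      ENNReal.ofReal (chW z₀ ((rp c.1)⁻¹ • z) ^ (-(8 : ℝ))) ≤ ENNReal.ofReal C := by
  obtain ⟨C, hC0, hC⟩ := rf1_lint (K := K)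
  obtain ⟨hm, hV0, hV1⟩ := bx_meas (K := K) r h.rpos h.rle
  have hVr : 0 < (volume (BX K r)).toReal := ENNReal.toReal_pos hV0.ne' hV1.ne
  have := rf1_countPG K
  refine ⟨(8 ^ Fintype.card (Em K)) ^ (8 : ℝ) * C / (volume (BX K r)).toReal, by positivity,
    fun z₀ hz₀ z L => ?_⟩
  obtain ⟨z', hz'⟩ := tsum_std (fun x : Em K → ℍ => ENNReal.ofReal (chW z₀ x ^ (-(8 : ℝ)))) z L
  refine hz'.trans ?_
  have h1 : volume (BX K r) * ∑' c : {c : PG K // St (rp c) (Lat.ds 1 1)},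
      ENNReal.ofReal (chW z₀ ((rp c.1)⁻¹ • z') ^ (-(8 : ℝ))) ≤
      ENNReal.ofReal ((8 ^ Fintype.card (Em K)) ^ (8 : ℝ)) * ENNReal.ofReal C := by
    rw [← ENNReal.tsum_mul_left]
    calc ∑' c : {c : PG K // St (rp c) (Lat.ds 1 1)}, volume (BX K r) *
          ENNReal.ofReal (chW z₀ ((rp c.1)⁻¹ • z') ^ (-(8 : ℝ)))
        ≤ ∑' c : {c : PG K // St (rp c) (Lat.ds 1 1)},
          ENNReal.ofReal ((8 ^ Fintype.card (Em K)) ^ (8 : ℝ)) *
            ∫⁻ ζ in {ζ : Em K → ℍ | (rp c.1)⁻¹ • ζ ∈ BX K r},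
              ENNReal.ofReal (chW ζ z' ^ (-(8 : ℝ))) :=
          ENNReal.tsum_le_tsum fun c => rf1_term h.rpos h.rle hz₀ (rp_mem c.1) z'
      _ = ENNReal.ofReal ((8 ^ Fintype.card (Em K)) ^ (8 : ℝ)) *
          ∑' c : {c : PG K // St (rp c) (Lat.ds 1 1)},
            ∫⁻ ζ in {ζ : Em K → ℍ | (rp c.1)⁻¹ • ζ ∈ BX K r},
              ENNReal.ofReal (chW ζ z' ^ (-(8 : ℝ))) := ENNReal.tsum_mul_left
      _ ≤ _ := by
          refine mul_le_mul_right ?_ _
          rw [← lintegral_iUnion]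
          · exact (setLIntegral_le_lintegral _ _).trans (hC z')
          · intro c
            exact (gp_mp ((GP K).inv_mem (rp_mem c.1))).measurable hm
          · intro c c' hcc
            rw [Function.onFun, Set.disjoint_left]
            intro ζ hζ hζ'
            apply hcc
            apply Subtype.ext
            apply rp_inj
            refine h.gap _ ((GP K).mul_mem ((GP K).inv_mem (rp_mem c.1)) (rp_mem c'.1))
              (St_two c.2 c'.2) ((rp c'.1)⁻¹ • ζ) hζ' ((rp c.1)⁻¹ • ζ) hζ ?_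
            rw [mul_smul, smul_inv_smul, rf1_self]
            linarith [h.dpos]
  rw [ENNReal.ofReal_div_of_pos hVr, ENNReal.ofReal_toReal hV1.ne, ENNReal.ofReal_mul (by positivity),
    ENNReal.le_div_iff_mul_le (Or.inl hV0.ne') (Or.inl hV1.ne), mul_comm]
  exact h1

end Pool.Agent.HSG
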