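import Pool.Agent.Lib_helper45.HSK.Defs
import Pool.Agent.Lib_helper45.HSRF.RA
import Pool.Agent.Lib_helper45.HSRF.RB
import Pool.Agent.Lib_helper45.HSRF.RC2
import Pool.Agent.Lib_helper45.HSRF.RD1
import Pool.Agent.Lib_helper45.HSRF.RF1
import Pool.Agent.Lib_helper84.HSGF.GB2

/-! # Hilbert-Selberg, stage 2: block RF2 (RST), the contribution of the other classes -/

namespace Pool.Agent.HSG

open Complex MeasureTheory Filter Topology UpperHalfPlane NumberField IsDedekindDomain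
open scoped nonZeroDivisors MatrixGroups ENNReal

variable {K : Type} [Field K] [NumberField K]

omit [NumberField K] in
theorem rf2_sc_one : Sc (1 : GL (Fin 2) K) := ⟨1, by simp⟩

omit [NumberField K] in
theorem rf2_sc_mul {g h : GL (Fin 2) K} (hg : Sc g) (hh : Sc h) : Sc (g * h) := by
  obtain ⟨x, hx⟩ := hg
  obtain ⟨y, hy⟩ := hh
  refine ⟨x * y, ?_⟩
  rw [Units.val_mul, hx, hy, Units.val_mul, map_mul]

theorem rf2_St_one : St (1 : GL (Fin 2) K) (Lat.ds 1 1) := by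
  have h1 : (Lat.ds 1 1 : Lat K).mul (1 : GL (Fin 2) K)⁻¹ = Lat.ds 1 1 :=
    one_smul (GL (Fin 2) K) (Lat.ds 1 1 : Lat K)
  rw [inv_one] at h1
  exact ⟨1, by rw [h1, sm_one]⟩

/-- the term of the trivial class -/
theorem rf2_one {k : ℕ} (hk : Even k) (z₀ z : Em K → ℍ) :
    kt k z₀ (rp ((1 : GP K) : PG K)) z (Lat.ds 1 1) = EW k z₀ z := by
  rw [kt_rp hk]
  have h1 : ((1 : GP K) : GL (Fin 2) K) = 1 := rfl
  rw [h1, kt, if_pos rf2_St_one, inv_one, one_smul, JJ_sc hk rf2_sc_one, one_mul]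

/-- the other classes -/
theorem rf2_far {r δ : ℝ} (h : GapB K r δ) {z₀ z : Em K → ℍ} (hz₀ : z₀ ∈ BX K r) (hz : z ∈ BX K r)
    {c : PG K} (hc : c ≠ ((1 : GP K) : PG K)) (hs : St (rp c) (Lat.ds 1 1)) :
    1 + δ ≤ chW z₀ ((rp c)⁻¹ • z) := by
  by_contra hlt
  rw [not_le, chW_symm] at hlt
  have h1 := h.gap (rp c)⁻¹ ((GP K).inv_mem (rp_mem c)) (St_inv hs) z hz z₀ hz₀ hlt
  refine hc (rp_inj ?_)
  obtain ⟨t, _, ht, h2⟩ := rp_spec (1 : GP K)
  refine rf2_sc_mul h1 ?_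
  rw [h2]
  exact rf2_sc_mul rf2_sc_one ht

section tr
variable [IsTotallyReal K]

theorem sg_rest {r δ : ℝ} (h : GapB K r δ) : ∃ C : ℝ, 0 < C ∧ ∀ k : ℕ, 16 ≤ k → Even k →
    ∀ z₀ ∈ BX K r, ∀ z ∈ BX K r,
      ‖kp k z₀ z (Lat.ds 1 1) - EW k z₀ z‖ ≤ C * (1 + δ) ^ (8 - (k : ℝ) / 2) := by
  classical
  obtain ⟨C, hC, hsum⟩ := sg_bound h
  refine ⟨C, hC, fun k hk he z₀ hz₀ z hz => ?_⟩
  have hδ := h.dpos
  have hk' : (16 : ℝ) ≤ k := by exact_mod_cast hk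
  set G : PG K → ℝ := fun c => if St (rp c) (Lat.ds 1 1) then
    chW z₀ ((rp c)⁻¹ • z) ^ (-(8 : ℝ)) else 0 with hG
  have hX : ∀ c : PG K, 1 ≤ chW z₀ ((rp c)⁻¹ • z) := fun c => (chW_ge _ _).1
  have hG0 : ∀ c, 0 ≤ G c := by
    intro c
    simp only [hG]
    split_ifs
    · exact Real.rpow_nonneg (zero_le_one.trans (hX c)) _
    · exact le_rfl
  have hGsum : ∑' c, ENNReal.ofReal (G c) ≤ ENNReal.ofReal C := by
    refine le_trans (le_of_eq ?_) (hsum z₀ hz₀ z (Lat.ds 1 1))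
    have h0 := tsum_subtype {c : PG K | St (rp c) (Lat.ds 1 1)}
      (fun c => ENNReal.ofReal (chW z₀ ((rp c)⁻¹ • z) ^ (-(8 : ℝ))))
    refine Eq.trans ?_ h0.symm
    refine tsum_congr fun c => ?_
    by_cases hc : St (rp c) (Lat.ds 1 1)
    · simp only [hG]
      rw [if_pos hc, Set.indicator_of_mem (by exact hc)]
    · simp only [hG]
      rw [if_neg hc, Set.indicator_of_notMem (by exact hc), ENNReal.ofReal_zero]
  have hGne : ∑' c, ENNReal.ofReal (G c) ≠ ∞ := ne_top_of_le_ne_top ENNReal.ofReal_ne_top hGsum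
  have hGs : Summable G := by
    refine (ENNReal.summable_toReal hGne).congr fun c => ?_
    rw [ENNReal.toReal_ofReal (hG0 c)]
  have hGle : ∑' c, G c ≤ C := by
    rw [← ENNReal.ofReal_tsum_of_nonneg hG0 hGs] at hGsum
    exact (ENNReal.ofReal_le_ofReal_iff hC.le).1 hGsum
  have hkt : ∀ c, ‖kt k z₀ (rp c) z (Lat.ds 1 1)‖ ≤ G c := by
    intro c
    by_cases hc : St (rp c) (Lat.ds 1 1)
    · rw [kt_norm k z₀ hc]
      simp only [hG]
      rw [if_pos hc]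
      exact Real.rpow_le_rpow_of_exponent_le (hX c) (by linarith)
    · simp only [hG]
      rw [kt, if_neg hc, if_neg hc, norm_zero]
  have hkts : Summable (fun c : PG K => kt k z₀ (rp c) z (Lat.ds 1 1)) :=
    Summable.of_norm_bounded hGs hkt
  have h1 : kp k z₀ z (Lat.ds 1 1) - EW k z₀ z = ∑' c : PG K,
      ite (c = ((1 : GP K) : PG K)) 0 (kt k z₀ (rp c) z (Lat.ds 1 1)) := by
    rw [kp, hkts.tsum_eq_add_tsum_ite ((1 : GP K) : PG K), rf2_one he, add_sub_cancel_left]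
  rw [h1]
  have h2 : ∀ c : PG K, ‖ite (c = ((1 : GP K) : PG K)) 0 (kt k z₀ (rp c) z (Lat.ds 1 1))‖ ≤
      (1 + δ) ^ (8 - (k : ℝ) / 2) * G c := by
    intro c
    have h3 : 0 ≤ (1 + δ) ^ (8 - (k : ℝ) / 2) := Real.rpow_nonneg (by linarith) _
    by_cases hc1 : c = ((1 : GP K) : PG K)
    · rw [if_pos hc1, norm_zero]
      exact mul_nonneg h3 (hG0 c)
    rw [if_neg hc1]
    by_cases hc : St (rp c) (Lat.ds 1 1)
    · have h4 := rf2_far h hz₀ hz hc1 hc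
      rw [kt_norm k z₀ hc]
      simp only [hG]
      rw [if_pos hc]
      have h5 : chW z₀ ((rp c)⁻¹ • z) ^ (-(k : ℝ) / 2) =
          chW z₀ ((rp c)⁻¹ • z) ^ (8 - (k : ℝ) / 2) * chW z₀ ((rp c)⁻¹ • z) ^ (-(8 : ℝ)) := by
        rw [← Real.rpow_add (by linarith [hX c])]
        congr 1
        ring
      rw [h5]
      refine mul_le_mul_of_nonneg_right ?_ (Real.rpow_nonneg (zero_le_one.trans (hX c)) _)
      exact Real.rpow_le_rpow_of_nonpos (by linarith) h4 (by linarith)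
    · rw [kt, if_neg hc, norm_zero]
      exact mul_nonneg h3 (hG0 c)
  calc ‖∑' c : PG K, ite (c = ((1 : GP K) : PG K)) 0 (kt k z₀ (rp c) z (Lat.ds 1 1))‖ ≤
        ∑' c : PG K, (1 + δ) ^ (8 - (k : ℝ) / 2) * G c :=
        tsum_of_norm_bounded (hGs.mul_left _).hasSum h2
    _ = (1 + δ) ^ (8 - (k : ℝ) / 2) * ∑' c : PG K, G c := tsum_mul_left
    _ ≤ (1 + δ) ^ (8 - (k : ℝ) / 2) * C :=
        mul_le_mul_of_nonneg_left hGle (Real.rpow_nonneg (by linarith) _)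
    _ = C * (1 + δ) ^ (8 - (k : ℝ) / 2) := mul_comm _ _

end tr

end Pool.Agent.HSG
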