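import Pool.Agent.Lib_helper45.HSK.Defs

/-! # Hilbert-Selberg, stage 2: block RG1 (HOL), sums of holomorphic functions -/

namespace Pool.Agent.HSG

open Complex MeasureTheory Filter Topology UpperHalfPlane NumberField IsDedekindDomain
open scoped nonZeroDivisors MatrixGroups ENNReal

theorem rg1_open (ι : Type) [Fintype ι] : IsOpen (UH ι) := by
  have h : UH ι = ⋂ w : ι, {z : ι → ℂ | 0 < (z w).im} := by
    ext z
    simp [UH]
  rw [h]
  refine isOpen_iInter_of_finite fun w => ?_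
  exact isOpen_lt continuous_const (Complex.continuous_im.comp (continuous_apply w))

/-- Cauchy's estimate for the Fréchet derivative -/
theorem rg1_cauchy {E : Type} [NormedAddCommGroup E] [NormedSpace ℂ E] {f : E → ℂ} {z₀ : E}
    {s B : ℝ} (hs : 0 < s) (hf : DifferentiableOn ℂ f (Metric.ball z₀ s))
    (hB : ∀ z ∈ Metric.ball z₀ s, ‖f z‖ ≤ B) {z : E} (hz : z ∈ Metric.ball z₀ (s / 2)) :
    ‖fderiv ℂ f z‖ ≤ B / (s / 4) := by
  have hz' : dist z z₀ < s / 2 := Metric.mem_ball.1 hz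
  have hzs : z ∈ Metric.ball z₀ s := Metric.mem_ball.2 (by linarith)
  have hB0 : 0 ≤ B := (norm_nonneg _).trans (hB z hzs)
  have hdz : DifferentiableAt ℂ f z := hf.differentiableAt (Metric.isOpen_ball.mem_nhds hzs)
  refine ContinuousLinearMap.opNorm_le_of_unit_norm (𝕜 := ℂ) (by positivity) fun v hv => ?_
  have hline : ∀ t : ℂ, ‖t‖ ≤ s / 4 → z + t • v ∈ Metric.ball z₀ s := by
    intro t ht
    rw [Metric.mem_ball]
    calc dist (z + t • v) z₀ ≤ dist (z + t • v) z + dist z z₀ := dist_triangle _ _ _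
      _ = ‖t‖ + dist z z₀ := by
          rw [dist_eq_norm, add_sub_cancel_left, norm_smul, hv, mul_one]
      _ < s := by linarith
  have hd : ∀ t : ℂ, ‖t‖ ≤ s / 4 → DifferentiableAt ℂ (fun t : ℂ => f (z + t • v)) t := by
    intro t ht
    have h1 : DifferentiableAt ℂ f (z + t • v) :=
      hf.differentiableAt (Metric.isOpen_ball.mem_nhds (hline t ht))
    have h2 : DifferentiableAt ℂ (fun t : ℂ => z + t • v) t := by fun_prop
    exact DifferentiableAt.comp t h1 h2
  have hc : DiffContOnCl ℂ (fun t : ℂ => f (z + t • v)) (Metric.ball 0 (s / 4)) := by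
    refine DifferentiableOn.diffContOnCl fun t ht => ?_
    have h1 : t ∈ Metric.closedBall (0 : ℂ) (s / 4) := Metric.closure_ball_subset_closedBall ht
    rw [mem_closedBall_zero_iff] at h1
    exact (hd t h1).differentiableWithinAt
  have h1 := Complex.norm_deriv_le_of_forall_mem_sphere_norm_le (R := s / 4) (by positivity) hc
    (C := B) (fun t ht => by
      rw [mem_sphere_zero_iff_norm] at ht
      exact hB _ (hline t ht.le))
  have h2 : deriv (fun t : ℂ => f (z + t • v)) 0 = fderiv ℂ f z v := by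
    have h3 : HasFDerivAt f (fderiv ℂ f z) (z + (0 : ℂ) • v) := by
      rw [zero_smul, add_zero]
      exact hdz.hasFDerivAt
    have h4 : HasDerivAt (fun t : ℂ => z + t • v) v 0 := by
      have h5 := ((hasDerivAt_id (0 : ℂ)).smul_const v).const_add z
      rwa [one_smul] at h5
    exact (h3.comp_hasDerivAt 0 h4).deriv
  rwa [h2] at h1

theorem holo_tsum {ι I : Type} [Fintype ι] {f : I → (ι → ℂ) → ℂ}
    (hf : ∀ i, DifferentiableOn ℂ (f i) (UH ι))
    (hb : ∀ z ∈ UH ι, ∃ s : ℝ, 0 < s ∧ ∃ u : I → ℝ, Summable u ∧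
      ∀ i, ∀ z' ∈ Metric.ball z s ∩ UH ι, ‖f i z'‖ ≤ u i) :
    DifferentiableOn ℂ (fun z => ∑' i, f i z) (UH ι) := by
  intro z₀ hz₀
  obtain ⟨s₁, hs₁, u, hu, hbd⟩ := hb z₀ hz₀
  obtain ⟨s₂, hs₂, hball⟩ := Metric.isOpen_iff.1 (rg1_open ι) z₀ hz₀
  set s := min s₁ s₂ with hs
  have hs0 : 0 < s := lt_min hs₁ hs₂
  have hsub : Metric.ball z₀ s ⊆ UH ι :=
    (Metric.ball_subset_ball (min_le_right _ _)).trans hball
  have hsub' : Metric.ball z₀ s ⊆ Metric.ball z₀ s₁ := Metric.ball_subset_ball (min_le_left _ _)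
  have hfd : ∀ i, DifferentiableOn ℂ (f i) (Metric.ball z₀ s) := fun i => (hf i).mono hsub
  have hfb : ∀ i, ∀ z ∈ Metric.ball z₀ s, ‖f i z‖ ≤ u i := fun i z hz =>
    hbd i z ⟨hsub' hz, hsub hz⟩
  have hmem : z₀ ∈ Metric.ball z₀ (s / 2) := Metric.mem_ball_self (by positivity)
  have hhalf : Metric.ball z₀ (s / 2) ⊆ Metric.ball z₀ s := Metric.ball_subset_ball (by linarith)
  have h1 := hasFDerivAt_tsum_of_isPreconnected (𝕜 := ℂ) (f := f)
    (f' := fun i z => fderiv ℂ (f i) z) (u := fun i => u i / (s / 4)) (s := Metric.ball z₀ (s / 2))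
    (x₀ := z₀) (x := z₀) (hu.div_const _) Metric.isOpen_ball
    (convex_ball z₀ (s / 2)).isPreconnected
    (fun i z hz => ((hfd i).differentiableAt (Metric.isOpen_ball.mem_nhds (hhalf hz))).hasFDerivAt)
    (fun i z hz => rg1_cauchy hs0 (hfd i) (hfb i) hz) hmem
    (Summable.of_norm_bounded hu fun i => hfb i z₀ (hhalf hmem)) hmem
  exact h1.differentiableAt.differentiableWithinAt

end Pool.Agent.HSG
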