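import Pool.Agent.Lib_helper45.HSK.Defs
import Pool.Agent.Lib_helper84.HSGF.GI1

/-! # HSR block RG2 (KTH): every term is holomorphic -/

namespace Pool.Agent.HSG

open Complex MeasureTheory Filter Topology UpperHalfPlane NumberField IsDedekindDomain
open scoped nonZeroDivisors MatrixGroups ENNReal

variable {K : Type} [Field K] [NumberField K]

/-- the Moebius map of the inverse at one place, as a function of a complex number -/
noncomputable def rg2_M (g : GL (Fin 2) K) (w : Em K) (ζ : ℂ) : ℂ :=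
  (((Matrix.GeneralLinearGroup.map (n := Fin 2) w g⁻¹) • (ofComplex ζ : ℍ) : ℍ) : ℂ)

theorem rg2_det {g : GL (Fin 2) K} (hg : g ∈ GP K) (w : Em K) :
    0 < (Matrix.GeneralLinearGroup.map (n := Fin 2) w g⁻¹).det.val := by
  have h1 : g⁻¹ ∈ GP K := (GP K).inv_mem hg
  have h2 := h1 w
  have h3 : (Matrix.GeneralLinearGroup.map (n := Fin 2) w g⁻¹).det.val =
      w ((g⁻¹ : GL (Fin 2) K) : Matrix (Fin 2) (Fin 2) K).det := by
    rw [Matrix.GeneralLinearGroup.val_det_apply, RingHom.map_det]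
    rfl
  rw [h3]
  exact h2

theorem rg2_diff {g : GL (Fin 2) K} (hg : g ∈ GP K) (w : Em K) :
    DifferentiableOn ℂ (rg2_M g w) {ζ : ℂ | 0 < ζ.im} :=
  UpperHalfPlane.mdifferentiable_iff.mp
    (UpperHalfPlane.mdifferentiable_coe.comp (UpperHalfPlane.mdifferentiable_smul (rg2_det hg w)))

/-- one factor -/
noncomputable def rg2_f (k : ℕ) (z₀ : Em K → ℍ) (g : GL (Fin 2) K) (w : Em K) (ζ : ℂ) : ℂ :=
  (((w (g 1 0) : ℝ) : ℂ) * rg2_M g w ζ + ((w (g 1 1) : ℝ) : ℂ)) ^ k * WA.ez k (z₀ w) (rg2_M g w ζ)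

theorem rg2_fd (k : ℕ) (z₀ : Em K → ℍ) {g : GL (Fin 2) K} (hg : g ∈ GP K) (w : Em K) :
    DifferentiableOn ℂ (rg2_f k z₀ g w) {ζ : ℂ | 0 < ζ.im} := by
  have h1 := rg2_diff hg w
  have h2 : DifferentiableOn ℂ (fun ζ => WA.ez k (z₀ w) (rg2_M g w ζ)) {ζ : ℂ | 0 < ζ.im} := by
    refine DifferentiableOn.div (differentiableOn_const _) ((h1.sub_const _).pow k) ?_
    intro ζ _
    refine pow_ne_zero _ ?_
    intro h0
    have h3 := congrArg Complex.im h0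
    rw [Complex.sub_im, Complex.conj_im, UpperHalfPlane.coe_im, Complex.zero_im] at h3
    have h4 : 0 < (rg2_M g w ζ).im :=
      ((Matrix.GeneralLinearGroup.map (n := Fin 2) w g⁻¹) • (ofComplex ζ : ℍ)).im_pos
    have h5 := (z₀ w).im_pos
    linarith
  exact (((h1.const_mul _).add_const _).pow k).mul h2

theorem rg2_real (k : ℕ) {a b c d : ℝ} (ha : 0 < a) (hc : 0 < c) (hd : 0 < d)
    (h : b = d * a / c ^ 2) :
    a ^ ((k : ℝ) / 2) * b ^ (-(k : ℝ) / 2) = c ^ k * d ^ (-(k : ℝ) / 2) := by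
  have hb : 0 < b := by rw [h]; positivity
  have h1 : b ^ (-(k : ℝ) / 2) = d ^ (-(k : ℝ) / 2) * a ^ (-(k : ℝ) / 2) * c ^ k := by
    rw [h, Real.div_rpow (by positivity) (by positivity), Real.mul_rpow hd.le ha.le]
    have h2 : (c ^ 2) ^ (-(k : ℝ) / 2) = (c ^ k)⁻¹ := by
      rw [← Real.rpow_natCast c 2, ← Real.rpow_mul hc.le, ← Real.rpow_natCast c k,
        ← Real.rpow_neg hc.le]
      congr 1
      push_cast
      ring
    rw [h2, div_inv_eq_mul]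
  rw [h1]
  have h3 : a ^ ((k : ℝ) / 2) * a ^ (-(k : ℝ) / 2) = 1 := by
    rw [← Real.rpow_add ha]
    have : (k : ℝ) / 2 + -(k : ℝ) / 2 = 0 := by ring
    rw [this, Real.rpow_zero]
  calc a ^ ((k : ℝ) / 2) * (d ^ (-(k : ℝ) / 2) * a ^ (-(k : ℝ) / 2) * c ^ k)
      = (a ^ ((k : ℝ) / 2) * a ^ (-(k : ℝ) / 2)) * (c ^ k * d ^ (-(k : ℝ) / 2)) := by ring
    _ = _ := by rw [h3, one_mul]

theorem rg2_nn (L : Lat K) : 0 ≤ nI L.det := by
  unfold nI
  exact_mod_cast FractionalIdeal.absNorm_nonneg _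

theorem rg2_row (g : GL (Fin 2) K) : (g 1 : Fin 2 → K) ≠ 0 := by
  intro h0
  have h1 : (g : Matrix (Fin 2) (Fin 2) K).det = 0 :=
    Matrix.det_eq_zero_of_row_eq_zero 1 (fun j => congrFun h0 j)
  exact (Matrix.GeneralLinearGroup.det_ne_zero g) h1

theorem rg2_key (k : ℕ) (z₀ : Em K → ℍ) {g : GL (Fin 2) K} (hg : g ∈ GP K) (z : Em K → ℍ)
    (w : Em K) (m : ℂ) (hm : m = (((g⁻¹ • z) w : ℍ) : ℂ)) :
    (lz (g 1) (g⁻¹ • z) w / ((‖lz (g 1) (g⁻¹ • z) w‖ : ℝ) : ℂ)) ^ k *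
        WA.phf k (WA.ez k (z₀ w)) ((g⁻¹ • z) w) * (((z w).im ^ (-(k : ℝ) / 2) : ℝ) : ℂ) =
      (((w (g 1 0) : ℝ) : ℂ) * m + ((w (g 1 1) : ℝ) : ℂ)) ^ k * WA.ez k (z₀ w) m *
        (((w (g : Matrix (Fin 2) (Fin 2) K).det) ^ (-(k : ℝ) / 2) : ℝ) : ℂ) := by
  subst hm
  set u := g⁻¹ • z with hu
  have hz : z = g • u := by rw [hu, smul_inv_smul]
  have hl : lz (g 1) u w ≠ 0 := lz_ne (rg2_row g) u w
  have hl' : 0 < ‖lz (g 1) u w‖ := norm_pos_iff.mpr hl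
  have h1 := im_act g hg u w
  rw [← hz] at h1
  have h2 := rg2_real k (u w).im_pos hl' (hg w) h1
  have h3 : (((u w).im ^ ((k : ℝ) / 2) : ℝ) : ℂ) * (((z w).im ^ (-(k : ℝ) / 2) : ℝ) : ℂ) =
      ((‖lz (g 1) u w‖ : ℝ) : ℂ) ^ k *
        (((w (g : Matrix (Fin 2) (Fin 2) K).det) ^ (-(k : ℝ) / 2) : ℝ) : ℂ) := by
    rw [← Complex.ofReal_mul, h2, Complex.ofReal_mul, Complex.ofReal_pow]
  have h4 : lz (g 1) u w = ((w (g 1 0) : ℝ) : ℂ) * (u w : ℂ) + ((w (g 1 1) : ℝ) : ℂ) := rfl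
  rw [← h4]
  unfold WA.phf
  have hl3 : ((‖lz (g 1) u w‖ : ℝ) : ℂ) ^ k ≠ 0 :=
    pow_ne_zero _ (Complex.ofReal_ne_zero.mpr hl'.ne')
  rw [div_pow]
  calc lz (g 1) u w ^ k / ((‖lz (g 1) u w‖ : ℝ) : ℂ) ^ k *
        (WA.ez k (z₀ w) (u w) * (((u w).im ^ ((k : ℝ) / 2) : ℝ) : ℂ)) *
          (((z w).im ^ (-(k : ℝ) / 2) : ℝ) : ℂ)
      = lz (g 1) u w ^ k / ((‖lz (g 1) u w‖ : ℝ) : ℂ) ^ k * WA.ez k (z₀ w) (u w) *
        ((((u w).im ^ ((k : ℝ) / 2) : ℝ) : ℂ) * (((z w).im ^ (-(k : ℝ) / 2) : ℝ) : ℂ)) := by ring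
    _ = _ := by
      rw [h3]
      field_simp

theorem rg2_prod (f : Em K → (Em K → ℂ) → ℂ) (U : Set (Em K → ℂ))
    (hf : ∀ w, DifferentiableOn ℂ (f w) U) (s : Finset (Em K)) :
    DifferentiableOn ℂ (fun z : Em K → ℂ => ∏ w ∈ s, f w z) U := by
  classical
  induction s using Finset.induction_on with
  | empty => simp
  | insert a s ha ih =>
    have h1 : (fun z : Em K → ℂ => ∏ w ∈ insert a s, f w z) =
        fun z => f a z * ∏ w ∈ s, f w z := by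
      funext z
      rw [Finset.prod_insert ha]
    rw [h1]
    exact (hf a).mul ih

theorem kt_holo (k : ℕ) (z₀ : Em K → ℍ) {g : GL (Fin 2) K} (hg : g ∈ GP K) (L : Lat K) :
    DifferentiableOn ℂ (fun z : Em K → ℂ => kt k z₀ g (fun w => ofComplex (z w)) L *
      (((NY (fun w => ofComplex (z w)) * nI L.det) ^ (-(k : ℝ) / 2) : ℝ) : ℂ)) (UH (Em K)) := by
  classical
  by_cases hS : St g L
  · have hF : DifferentiableOn ℂ (fun z : Em K → ℂ => (∏ w, rg2_f k z₀ g w (z w)) *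
        ((∏ w : Em K, (((w (g : Matrix (Fin 2) (Fin 2) K).det) ^ (-(k : ℝ) / 2) : ℝ) : ℂ)) *
          ((nI L.det ^ (-(k : ℝ) / 2) : ℝ) : ℂ))) (UH (Em K)) := by
      refine DifferentiableOn.mul_const ?_ _
      refine rg2_prod (fun w z => rg2_f k z₀ g w (z w)) _ (fun w => ?_) Finset.univ
      have h1 : DifferentiableOn ℂ (fun z : Em K → ℂ => z w) (UH (Em K)) :=
        (ContinuousLinearMap.proj (R := ℂ) (φ := fun _ : Em K => ℂ) w).differentiable.differentiableOn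
      exact (rg2_fd k z₀ hg w).comp h1 (fun z hz => hz w)
    refine hF.congr fun z hz => ?_
    set y : Em K → ℍ := fun w => ofComplex (z w) with hy
    have h1 : kt k z₀ g y L = JJ k g (g⁻¹ • y) * EW k z₀ (g⁻¹ • y) := by
      unfold kt
      rw [if_pos hS]
    have h2 : (((NY y * nI L.det) ^ (-(k : ℝ) / 2) : ℝ) : ℂ) =
        (∏ w, (((y w).im ^ (-(k : ℝ) / 2) : ℝ) : ℂ)) * ((nI L.det ^ (-(k : ℝ) / 2) : ℝ) : ℂ) := by
      rw [Real.mul_rpow (NY_nonneg y) (rg2_nn L), Complex.ofReal_mul]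
      congr 1
      unfold NY
      rw [← Real.finsetProd_rpow _ _ (fun w _ => (y w).im_pos.le), Complex.ofReal_prod]
    rw [h1, h2]
    unfold JJ EW
    rw [← mul_assoc, ← mul_assoc, ← Finset.prod_mul_distrib, ← Finset.prod_mul_distrib,
      ← Finset.prod_mul_distrib]
    congr 1
    refine Finset.prod_congr rfl fun w _ => ?_
    exact rg2_key k z₀ hg y w (rg2_M g w (z w)) rfl
  · have h1 : (fun z : Em K → ℂ => kt k z₀ g (fun w => ofComplex (z w)) L *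
        (((NY (fun w => ofComplex (z w)) * nI L.det) ^ (-(k : ℝ) / 2) : ℝ) : ℂ)) = fun _ => 0 := by
      funext z
      unfold kt
      rw [if_neg hS, zero_mul]
    rw [h1]
    exact differentiableOn_const _

end Pool.Agent.HSG
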