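import Pool.Agent.Lib_helper45.HSK.Defs
import Pool.Agent.Lib_helper45.HSRF.RB
import Pool.Agent.Lib_helper45.HSRF.RC1
import Pool.Agent.Lib_helper45.HSRF.RC2
import Pool.Agent.Lib_helper45.HSRF.RD1
import Pool.Agent.Lib_helper45.HSRF.RF1
import Pool.Agent.Lib_helper45.HSRF.RG1
import Pool.Agent.Lib_helper45.HSRF.RG2
import Pool.Agent.Lib_helper84.HSGF.GA3

/-! # Hilbert-Selberg, stage 2, block RH: the kernel forms are forms -/

namespace Pool.Agent.HSG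

open Complex MeasureTheory Filter Topology UpperHalfPlane NumberField IsDedekindDomain
open scoped nonZeroDivisors MatrixGroups ENNReal

variable {K : Type} [Field K] [NumberField K]

section tr
variable [IsTotallyReal K]

theorem rh_inv {g : GL (Fin 2) K} (hg : g ∈ GP K) : g⁻¹ ∈ GP K := (GP K).inv_mem hg

/-- summability and bound of the majorant -/
theorem rh_sum {r δ : ℝ} (h : GapB K r δ) : ∃ C : ℝ, 0 < C ∧ ∀ z₀ ∈ BX K r, ∀ (z : Em K → ℍ)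
    (L : Lat K), Summable ({c : PG K | St (rp c) L}.indicator
        (fun c => chW z₀ ((rp c)⁻¹ • z) ^ (-(8 : ℝ)))) ∧
      ∑' c, {c : PG K | St (rp c) L}.indicator
        (fun c => chW z₀ ((rp c)⁻¹ • z) ^ (-(8 : ℝ))) c ≤ C := by
  obtain ⟨C, hC, hb⟩ := sg_bound h
  refine ⟨C, hC, fun z₀ hz₀ z L => ?_⟩
  have h1 := hb z₀ hz₀ z L
  have hnn : ∀ c : PG K, 0 ≤ chW z₀ ((rp c)⁻¹ • z) ^ (-(8 : ℝ)) := fun c =>
    Real.rpow_nonneg (zero_le_one.trans (chW_ge _ _).1) _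
  have h2 : ∑' c : {c : PG K // St (rp c) L},
      ENNReal.ofReal (chW z₀ ((rp c.1)⁻¹ • z) ^ (-(8 : ℝ))) ≠ ∞ :=
    ne_top_of_le_ne_top ENNReal.ofReal_ne_top h1
  have h3 : Summable (fun c : {c : PG K // St (rp c) L} =>
      chW z₀ ((rp c.1)⁻¹ • z) ^ (-(8 : ℝ))) := by
    have h4 := ENNReal.summable_toReal h2
    refine h4.congr fun c => ?_
    rw [ENNReal.toReal_ofReal (hnn c.1)]
  constructor
  · exact summable_subtype_iff_indicator.mp h3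
  · have h5 : ∑' c, {c : PG K | St (rp c) L}.indicator
        (fun c => chW z₀ ((rp c)⁻¹ • z) ^ (-(8 : ℝ))) c =
        ∑' c : {c : PG K // St (rp c) L}, chW z₀ ((rp c.1)⁻¹ • z) ^ (-(8 : ℝ)) :=
      (tsum_subtype {c : PG K | St (rp c) L}
        (fun c => chW z₀ ((rp c)⁻¹ • z) ^ (-(8 : ℝ)))).symm
    have h6 : ENNReal.ofReal (∑' c : {c : PG K // St (rp c) L},
        chW z₀ ((rp c.1)⁻¹ • z) ^ (-(8 : ℝ))) = ∑' c : {c : PG K // St (rp c) L},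
        ENNReal.ofReal (chW z₀ ((rp c.1)⁻¹ • z) ^ (-(8 : ℝ))) :=
      ENNReal.ofReal_tsum_of_nonneg (fun c => hnn c.1) h3
    have h7 : ENNReal.ofReal (∑' c : {c : PG K // St (rp c) L},
        chW z₀ ((rp c.1)⁻¹ • z) ^ (-(8 : ℝ))) ≤ ENNReal.ofReal C := h6.trans_le h1
    exact h5.trans_le ((ENNReal.ofReal_le_ofReal_iff hC.le).mp h7)

theorem rh_pow {k : ℕ} (hk : 16 ≤ k) {x : ℝ} (hx : 1 ≤ x) :
    x ^ (-(k : ℝ) / 2) ≤ x ^ (-(8 : ℝ)) := by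
  apply Real.rpow_le_rpow_of_exponent_le hx
  have : (16 : ℝ) ≤ k := by exact_mod_cast hk
  linarith

open scoped Classical in
theorem rh_kt {k : ℕ} (z₀ z : Em K → ℍ) (c : PG K) (L : Lat K) :
    ‖kt k z₀ (rp c) z L‖ = {c : PG K | St (rp c) L}.indicator
        (fun c => chW z₀ ((rp c)⁻¹ • z) ^ (-(k : ℝ) / 2)) c := by
  by_cases hc : St (rp c) L
  · rw [kt_norm k z₀ hc, Set.indicator_of_mem (show c ∈ {c : PG K | St (rp c) L} from hc)]
  · rw [Set.indicator_of_notMem (show c ∉ {c : PG K | St (rp c) L} from hc)]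
    unfold kt
    rw [if_neg hc, norm_zero]

theorem rh_kt_le {k : ℕ} (hk : 16 ≤ k) (z₀ z : Em K → ℍ) (c : PG K) (L : Lat K) :
    ‖kt k z₀ (rp c) z L‖ ≤ {c : PG K | St (rp c) L}.indicator
        (fun c => chW z₀ ((rp c)⁻¹ • z) ^ (-(8 : ℝ))) c := by
  rw [rh_kt]
  exact Set.indicator_le_indicator (rh_pow hk (chW_ge _ _).1)

theorem rh_kp {r δ : ℝ} (h : GapB K r δ) : ∃ C : ℝ, 0 < C ∧ ∀ k : ℕ, 16 ≤ k → ∀ z₀ ∈ BX K r,
    ∀ (z : Em K → ℍ) (L : Lat K), ‖kp k z₀ z L‖ ≤ C := by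
  obtain ⟨C, hC, hs⟩ := rh_sum h
  refine ⟨C, hC, fun k hk z₀ hz₀ z L => ?_⟩
  obtain ⟨h1, h2⟩ := hs z₀ hz₀ z L
  have h3 : Summable (fun c : PG K => ‖kt k z₀ (rp c) z L‖) :=
    Summable.of_nonneg_of_le (fun c => norm_nonneg _) (fun c => rh_kt_le hk z₀ z c L) h1
  unfold kp
  exact (norm_tsum_le_tsum_norm h3).trans
    ((h3.tsum_le_tsum (fun c => rh_kt_le hk z₀ z c L) h1).trans h2)

theorem rh_NY_pos (z : Em K → ℍ) : 0 < NY z := Finset.prod_pos fun w _ => (z w).im_pos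

/-- the local majorant -/
theorem rh_major {r δ : ℝ} (h : GapB K r δ) {k : ℕ} (hk : 16 ≤ k) {z₀ : Em K → ℍ}
    (hz₀ : z₀ ∈ BX K r) (L : Lat K) (z₁ : Em K → ℂ) (hz₁ : z₁ ∈ UH (Em K)) :
    ∃ s : ℝ, 0 < s ∧ ∃ u : PG K → ℝ, Summable u ∧
      ∀ c, ∀ z' ∈ Metric.ball z₁ s ∩ UH (Em K),
        ‖kt k z₀ (rp c) (fun w => ofComplex (z' w)) L *
          (((NY (fun w => ofComplex (z' w)) * nI L.det) ^ (-(k : ℝ) / 2) : ℝ) : ℂ)‖ ≤ u c := by
  set z1 : Em K → ℍ := fun w => ofComplex (z₁ w) with hz1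
  have hco : (fun w => (z1 w : ℂ)) = z₁ := by
    funext w
    rw [hz1]
    show ((ofComplex (z₁ w) : ℍ) : ℂ) = z₁ w
    rw [UpperHalfPlane.ofComplex_apply_of_im_pos (hz₁ w)]
  obtain ⟨s, hs, hnear⟩ := chW_near z1
  obtain ⟨C, hC, hsum⟩ := rh_sum h
  obtain ⟨h1, -⟩ := hsum z₀ hz₀ z1 L
  set N : ℝ := 4 ^ Fintype.card (Em K) * 2 with hN
  have hN1 : 0 < N := by positivity
  have hdet := nI_pos L.det
  set B : ℝ := N ^ ((k : ℝ) / 2) * (NY z1 / 2 * nI L.det) ^ (-(k : ℝ) / 2) with hB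
  have hk0 : 0 ≤ (k : ℝ) / 2 := by positivity
  have hy1 := rh_NY_pos z1
  have hB0 : 0 ≤ B := by
    apply mul_nonneg (Real.rpow_nonneg hN1.le _) (Real.rpow_nonneg (by positivity) _)
  refine ⟨s, hs, fun c => B * {c : PG K | St (rp c) L}.indicator
        (fun c => chW z₀ ((rp c)⁻¹ • z1) ^ (-(8 : ℝ))) c, h1.mul_left B, fun c z' hz' => ?_⟩
  have hd : dist z' (fun w => (z1 w : ℂ)) < s := by
    rw [hco]
    exact hz'.1
  obtain ⟨hn1, hn2⟩ := hnear z' hd hz'.2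
  set z : Em K → ℍ := fun w => ofComplex (z' w) with hz
  have hyz := rh_NY_pos z
  beta_reduce
  rw [norm_mul, Complex.norm_real, Real.norm_eq_abs,
    abs_of_nonneg (Real.rpow_nonneg (by positivity) _)]
  by_cases hc : St (rp c) L
  · rw [kt_norm k z₀ hc, Set.indicator_of_mem (show c ∈ {c : PG K | St (rp c) L} from hc)]
    have e1 : 1 ≤ chW z₀ ((rp c)⁻¹ • z) := (chW_ge _ _).1
    have e2 : 1 ≤ chW z₀ ((rp c)⁻¹ • z1) := (chW_ge _ _).1
    have e3 : chW z₀ ((rp c)⁻¹ • z1) ≤ N * chW z₀ ((rp c)⁻¹ • z) := by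
      have t1 := chW_tri z₀ ((rp c)⁻¹ • z) ((rp c)⁻¹ • z1)
      rw [chW_act (rh_inv (rp_mem c)), chW_symm z z1] at t1
      calc chW z₀ ((rp c)⁻¹ • z1) ≤
          4 ^ Fintype.card (Em K) * chW z₀ ((rp c)⁻¹ • z) * chW z1 z := t1
        _ ≤ 4 ^ Fintype.card (Em K) * chW z₀ ((rp c)⁻¹ • z) * 2 :=
            mul_le_mul_of_nonneg_left hn1 (by positivity)
        _ = _ := by rw [hN]; ring
    have e4 : chW z₀ ((rp c)⁻¹ • z) ^ (-(k : ℝ) / 2) ≤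
        N ^ ((k : ℝ) / 2) * chW z₀ ((rp c)⁻¹ • z1) ^ (-(8 : ℝ)) := by
      have hneg : -(k : ℝ) / 2 ≤ 0 := by
        have : (0 : ℝ) ≤ k := Nat.cast_nonneg k
        linarith
      have t1 : (N * chW z₀ ((rp c)⁻¹ • z)) ^ (-(k : ℝ) / 2) ≤
          chW z₀ ((rp c)⁻¹ • z1) ^ (-(k : ℝ) / 2) :=
        Real.rpow_le_rpow_of_nonpos (by linarith) e3 hneg
      have t2 : chW z₀ ((rp c)⁻¹ • z) ^ (-(k : ℝ) / 2) =
          N ^ ((k : ℝ) / 2) * (N * chW z₀ ((rp c)⁻¹ • z)) ^ (-(k : ℝ) / 2) := by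
        rw [Real.mul_rpow hN1.le (by linarith), ← mul_assoc, ← Real.rpow_add hN1,
          show (k : ℝ) / 2 + -(k : ℝ) / 2 = 0 by ring, Real.rpow_zero, one_mul]
      rw [t2]
      exact mul_le_mul_of_nonneg_left (t1.trans (rh_pow hk e2)) (Real.rpow_nonneg hN1.le _)
    have e5 : (NY z * nI L.det) ^ (-(k : ℝ) / 2) ≤
        (NY z1 / 2 * nI L.det) ^ (-(k : ℝ) / 2) := by
      apply Real.rpow_le_rpow_of_nonpos (by positivity)
        (mul_le_mul_of_nonneg_right hn2 hdet.le)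
      have : (0 : ℝ) ≤ k := Nat.cast_nonneg k
      linarith
    calc chW z₀ ((rp c)⁻¹ • z) ^ (-(k : ℝ) / 2) * (NY z * nI L.det) ^ (-(k : ℝ) / 2) ≤
        (N ^ ((k : ℝ) / 2) * chW z₀ ((rp c)⁻¹ • z1) ^ (-(8 : ℝ))) *
          (NY z1 / 2 * nI L.det) ^ (-(k : ℝ) / 2) :=
          mul_le_mul e4 e5 (Real.rpow_nonneg (by positivity) _)
            (mul_nonneg (Real.rpow_nonneg hN1.le _) (Real.rpow_nonneg (by linarith) _))
      _ = _ := by rw [hB]; ring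
  · rw [Set.indicator_of_notMem (show c ∉ {c : PG K | St (rp c) L} from hc)]
    unfold kt
    rw [if_neg hc, norm_zero, zero_mul, mul_zero]

theorem kF_form {r δ : ℝ} (h : GapB K r δ) {k : ℕ} (hk : 16 ≤ k) (he : Even k)
    {z₀ : Em K → ℍ} (hz : z₀ ∈ BX K r) : IsForm k (kF k z₀) := by
  refine ⟨?_, ?_, ?_, ?_⟩
  · intro L
    have h1 := holo_tsum (ι := Em K) (I := PG K)
      (f := fun c z => kt k z₀ (rp c) (fun w => ofComplex (z w)) L *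
        (((NY (fun w => ofComplex (z w)) * nI L.det) ^ (-(k : ℝ) / 2) : ℝ) : ℂ))
      (fun c => kt_holo k z₀ (rp_mem c) L) (fun z₁ hz₁ => rh_major h hk hz L z₁ hz₁)
    have h2 : (fun z : Em K → ℂ => kF k z₀ (fun w => ofComplex (z w)) L) =
        fun z => ∑' c : PG K, kt k z₀ (rp c) (fun w => ofComplex (z w)) L *
        (((NY (fun w => ofComplex (z w)) * nI L.det) ^ (-(k : ℝ) / 2) : ℝ) : ℂ) := by
      funext z
      rw [tsum_mul_right]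
      rfl
    rw [h2]
    exact h1
  · intro g hg z L
    exact kF_slash he z₀ hg z L
  · intro a z L
    exact kF_sm k z₀ a z L
  · intro L
    obtain ⟨C, hC, hb⟩ := rh_kp h
    refine ⟨C * nI L.det ^ (-(k : ℝ) / 2), fun z => ?_⟩
    have hy := rh_NY_pos z
    have hd := nI_pos L.det
    have h1 := hb k hk z₀ hz z L
    unfold kF
    rw [norm_mul, Complex.norm_real, Real.norm_eq_abs,
      abs_of_nonneg (Real.rpow_nonneg (by positivity) _), Real.mul_rpow hy.le hd.le]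
    have h2 : NY z ^ (-(k : ℝ) / 2) * NY z ^ ((k : ℝ) / 2) = 1 := by
      rw [← Real.rpow_add hy, show -(k : ℝ) / 2 + (k : ℝ) / 2 = 0 by ring, Real.rpow_zero]
    calc ‖kp k z₀ z L‖ * (NY z ^ (-(k : ℝ) / 2) * nI L.det ^ (-(k : ℝ) / 2)) *
          NY z ^ ((k : ℝ) / 2) =
        ‖kp k z₀ z L‖ * nI L.det ^ (-(k : ℝ) / 2) *
          (NY z ^ (-(k : ℝ) / 2) * NY z ^ ((k : ℝ) / 2)) := by ring
      _ = ‖kp k z₀ z L‖ * nI L.det ^ (-(k : ℝ) / 2) := by rw [h2, mul_one]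
      _ ≤ _ := mul_le_mul_of_nonneg_right h1 (Real.rpow_nonneg hd.le _)

end tr

end Pool.Agent.HSG

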