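import Pool.Agent.Lib_helper45.HSK.Defs

/-! # Block RI1 (GRA): sums over a grid -/

namespace Pool.Agent.HSG

open Complex MeasureTheory Filter Topology UpperHalfPlane NumberField IsDedekindDomain
open scoped nonZeroDivisors MatrixGroups ENNReal

variable {K : Type} [Field K] [NumberField K]

theorem grid1 {k : ℕ} (hk : 8 ≤ k) {t : ℝ} (ht : 0 ≤ t) :
    (1 + t / k) ^ (-(k : ℝ) / 2) ≤ (1 + t / 8) ^ (-(4 : ℝ)) := by
  have hk1 : (8 : ℝ) ≤ k := by exact_mod_cast hk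
  have hk0 : (0 : ℝ) < k := by linarith
  have h0 : 0 ≤ t / k := div_nonneg ht hk0.le
  have h1 : 1 + (k : ℝ) / 8 * (t / k) ≤ (1 + t / k) ^ ((k : ℝ) / 8) :=
    one_add_mul_self_le_rpow_one_add (by linarith) (by linarith)
  have h2 : (k : ℝ) / 8 * (t / k) = t / 8 := by field_simp
  rw [h2] at h1
  have h3 : (1 + t / k) ^ (-(k : ℝ) / 2) = ((1 + t / k) ^ ((k : ℝ) / 8)) ^ (-(4 : ℝ)) := by
    rw [← Real.rpow_mul (by linarith)]
    congr 1
    ring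
  rw [h3]
  exact Real.rpow_le_rpow_of_nonpos (by positivity) h1 (by norm_num)

theorem ri1_sumZ : Summable fun a : ℤ => (1 + (a : ℝ) ^ 2)⁻¹ := by
  have h : Summable fun a : ℤ => 1 / (a : ℝ) ^ 2 :=
    Real.summable_one_div_int_pow.mpr (by norm_num)
  refine Summable.of_norm_bounded_eventually h ?_
  rw [Filter.eventually_cofinite]
  refine (Set.finite_singleton (0 : ℤ)).subset fun a ha => ?_
  by_contra h0
  apply ha
  have h1 : (a : ℝ) ≠ 0 := by exact_mod_cast h0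
  have h2 : 0 < (a : ℝ) ^ 2 := by positivity
  rw [Real.norm_of_nonneg (by positivity), one_div]
  exact inv_anti₀ h2 (by linarith)

/-- for a sparse grid the off-diagonal sum is small -/
theorem grid2 (ι : Type) [Fintype ι] : ∃ A : ℝ, 0 < A ∧ ∀ s : Finset (ι → ℤ × ℤ), 0 ∉ s →
    ∑ m ∈ s, ∏ i, (1 + A * (((m i).1 : ℝ) ^ 2 + ((m i).2 : ℝ) ^ 2)) ^ (-(4 : ℝ)) ≤ 1 / 8 := by
  classical
  set h : ℤ × ℤ → ℝ := fun x => (1 + (x.1 : ℝ) ^ 2)⁻¹ * (1 + (x.2 : ℝ) ^ 2)⁻¹ with hh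
  have hs : Summable h := ri1_sumZ.mul_of_nonneg ri1_sumZ (fun a => by positivity)
    (fun a => by positivity)
  have hp : ∀ x, 0 ≤ h x := fun x => by rw [hh]; positivity
  set S : ℝ := ∑' x, h x with hS
  have hS0 : 0 ≤ S := tsum_nonneg hp
  set n : ℝ := (Fintype.card ι : ℝ) with hn
  have hn0 : 0 ≤ n := by positivity
  set A : ℝ := 2 + 32 * (n + 1) * S with hA
  have hnS : 0 ≤ 32 * (n + 1) * S := by positivity
  have hA2 : 2 ≤ A := by linarith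
  have hA0 : 0 < A := by linarith
  refine ⟨A, hA0, fun s h0 => ?_⟩
  set G : ℤ × ℤ → ℝ := fun x => (1 + A * ((x.1 : ℝ) ^ 2 + (x.2 : ℝ) ^ 2)) ^ (-(4 : ℝ)) with hG
  have hGp : ∀ x, 0 ≤ G x := fun x => Real.rpow_nonneg (by positivity) _
  have hG0 : G 0 = 1 := by simp [hG]
  have hGx : ∀ x, x ≠ 0 → G x ≤ 2 / A * h x := by
    intro x hx
    have hx1 : 1 ≤ (x.1 : ℝ) ^ 2 + (x.2 : ℝ) ^ 2 := by
      have h1 : 1 ≤ x.1 ^ 2 + x.2 ^ 2 := by
        by_contra hc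
        have h2 : x.1 ^ 2 = 0 := by nlinarith [sq_nonneg x.1, sq_nonneg x.2]
        have h3 : x.2 ^ 2 = 0 := by nlinarith [sq_nonneg x.1, sq_nonneg x.2]
        exact hx (Prod.ext (pow_eq_zero_iff (two_ne_zero) |>.mp h2)
          (pow_eq_zero_iff (two_ne_zero) |>.mp h3))
      exact_mod_cast h1
    set q : ℝ := (x.1 : ℝ) ^ 2 + (x.2 : ℝ) ^ 2 with hq
    have e1 : G x = ((1 + A * q) ^ 4)⁻¹ := by
      rw [hG]
      show (1 + A * q) ^ (-(4 : ℝ)) = _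
      rw [Real.rpow_neg (by positivity)]
      congr 1
      exact_mod_cast Real.rpow_natCast (1 + A * q) 4
    have e2 : h x = ((1 + (x.1 : ℝ) ^ 2) * (1 + (x.2 : ℝ) ^ 2))⁻¹ := by
      rw [hh, mul_inv]
    have e3 : (1 + (x.1 : ℝ) ^ 2) * (1 + (x.2 : ℝ) ^ 2) ≤ (1 + q) ^ 2 := by
      rw [hq]
      nlinarith [sq_nonneg (x.1 : ℝ), sq_nonneg (x.2 : ℝ), sq_nonneg ((x.1 : ℝ) ^ 2 + (x.2 : ℝ) ^ 2),
        mul_nonneg (sq_nonneg (x.1 : ℝ)) (sq_nonneg (x.2 : ℝ))]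
    have e4 : A / 2 * (1 + q) ≤ 1 + A * q := by nlinarith
    have e5 : 1 ≤ A / 2 := by linarith
    have e6 : A / 2 * ((1 + (x.1 : ℝ) ^ 2) * (1 + (x.2 : ℝ) ^ 2)) ≤ (1 + A * q) ^ 4 := by
      have f1 : 1 ≤ A / 2 * (1 + q) := by nlinarith
      have f2 : (A / 2 * (1 + q)) ^ 4 ≤ (1 + A * q) ^ 4 := pow_le_pow_left₀ (by linarith) e4 4
      have f3 : (A / 2 * (1 + q)) ^ 2 ≤ (A / 2 * (1 + q)) ^ 4 := pow_le_pow_right₀ f1 (by norm_num)
      have f4 : A / 2 * (1 + q) ^ 2 ≤ (A / 2 * (1 + q)) ^ 2 := by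
        rw [mul_pow]
        apply mul_le_mul_of_nonneg_right _ (sq_nonneg _)
        nlinarith
      have f5 : A / 2 * ((1 + (x.1 : ℝ) ^ 2) * (1 + (x.2 : ℝ) ^ 2)) ≤ A / 2 * (1 + q) ^ 2 :=
        mul_le_mul_of_nonneg_left e3 (by linarith)
      linarith
    rw [e1, e2]
    have e7 : 2 / A * ((1 + (x.1 : ℝ) ^ 2) * (1 + (x.2 : ℝ) ^ 2))⁻¹ =
        (A / 2 * ((1 + (x.1 : ℝ) ^ 2) * (1 + (x.2 : ℝ) ^ 2)))⁻¹ := by
      rw [mul_inv (A / 2), inv_div]
    rw [e7]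
    exact inv_anti₀ (by positivity) e6
  set T : Finset (ℤ × ℤ) := insert 0 (s.biUnion fun m => Finset.univ.image m) with hT
  have hT1 : ∑ x ∈ T, G x ≤ 1 + 2 / A * S := by
    have h1 : ∑ x ∈ T, G x = G 0 + ∑ x ∈ T.erase 0, G x :=
      (Finset.add_sum_erase T G (Finset.mem_insert_self _ _)).symm
    rw [h1, hG0]
    have h2 : ∑ x ∈ T.erase 0, G x ≤ ∑ x ∈ T.erase 0, 2 / A * h x :=
      Finset.sum_le_sum fun x hx => hGx x (Finset.ne_of_mem_erase hx)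
    have h3 : ∑ x ∈ T.erase 0, 2 / A * h x ≤ 2 / A * S := by
      rw [← Finset.mul_sum]
      exact mul_le_mul_of_nonneg_left (hs.sum_le_tsum _ fun x _ => hp x) (by positivity)
    linarith
  have hsub : insert 0 s ⊆ Fintype.piFinset fun _ : ι => T := by
    intro m hm
    rw [Fintype.mem_piFinset]
    intro i
    rcases Finset.mem_insert.mp hm with rfl | hm
    · exact Finset.mem_insert_self _ _
    · exact Finset.mem_insert_of_mem (Finset.mem_biUnion.mpr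
        ⟨m, hm, Finset.mem_image_of_mem _ (Finset.mem_univ i)⟩)
  have hsum : 1 + ∑ m ∈ s, ∏ i, G (m i) ≤ (∑ x ∈ T, G x) ^ Fintype.card ι := by
    have h1 : 1 + ∑ m ∈ s, ∏ i, G (m i) = ∑ m ∈ insert 0 s, ∏ i, G (m i) := by
      rw [Finset.sum_insert h0]
      congr 1
      symm
      exact Finset.prod_eq_one fun i _ => hG0
    rw [h1]
    calc ∑ m ∈ insert 0 s, ∏ i, G (m i)
        ≤ ∑ m ∈ Fintype.piFinset fun _ : ι => T, ∏ i, G (m i) :=
          Finset.sum_le_sum_of_subset_of_nonneg hsub fun m _ _ =>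
            Finset.prod_nonneg fun i _ => hGp _
      _ = ∏ _i : ι, ∑ x ∈ T, G x := (Finset.prod_univ_sum _ _).symm
      _ = _ := by rw [Finset.prod_const, Finset.card_univ]
  have hη : 2 / A * S ≤ 1 / (16 * (n + 1)) := by
    rw [div_mul_eq_mul_div, div_le_div_iff₀ hA0 (by positivity), hA]
    nlinarith
  have hb : (∑ x ∈ T, G x) ^ Fintype.card ι ≤ 9 / 8 := by
    have h1 : 0 ≤ ∑ x ∈ T, G x := Finset.sum_nonneg fun x _ => hGp x
    have h2 : ∑ x ∈ T, G x ≤ Real.exp (1 / (16 * (n + 1))) := by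
      have := Real.add_one_le_exp (1 / (16 * (n + 1)))
      linarith
    have h3 : (∑ x ∈ T, G x) ^ Fintype.card ι ≤ Real.exp (1 / (16 * (n + 1))) ^ Fintype.card ι :=
      pow_le_pow_left₀ h1 h2 _
    rw [← Real.exp_nat_mul, ← hn] at h3
    have h4 : n * (1 / (16 * (n + 1))) ≤ 1 / 16 := by
      rw [mul_one_div, div_le_div_iff₀ (by positivity) (by norm_num)]
      nlinarith
    have h5 : Real.exp (1 / 16) ≤ 9 / 8 := by
      have h6 := Real.one_sub_le_exp_neg (1 / 16 : ℝ)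
      rw [Real.exp_neg] at h6
      have h7 : 0 < Real.exp (1 / 16) := Real.exp_pos _
      have h8 : Real.exp (1 / 16) * (Real.exp (1 / 16))⁻¹ = 1 := mul_inv_cancel₀ h7.ne'
      nlinarith
    exact h3.trans ((Real.exp_le_exp.mpr h4).trans h5)
  have hfin := hsum.trans hb
  show ∑ m ∈ s, ∏ i, G (m i) ≤ 1 / 8
  linarith

end Pool.Agent.HSG
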