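import Pool.Agent.Lib_helper45.HSK.Defs
import Pool.Agent.Lib_helper45.HSRF.RD1
import Pool.Agent.Lib_helper45.HSRF.RI1

/-!
# HSR, block RI2 (GRD): the grid
-/

namespace Pool.Agent.HSG

open Complex MeasureTheory Filter Topology UpperHalfPlane NumberField IsDedekindDomain
open scoped nonZeroDivisors MatrixGroups ENNReal

variable {K : Type} [Field K] [NumberField K]

/-- the point `x + iy` -/
noncomputable def ri2_pt (x y : ℝ) : ℍ := if h : 0 < y then ⟨⟨x, y⟩, h⟩ else UpperHalfPlane.I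

theorem ri2_re {x y : ℝ} (h : 0 < y) : (ri2_pt x y).re = x := by
  unfold ri2_pt; rw [dif_pos h]; rfl

theorem ri2_im {x y : ℝ} (h : 0 < y) : (ri2_pt x y).im = y := by
  unfold ri2_pt; rw [dif_pos h]; rfl

theorem ri2_ch {k : ℕ} (hk : 8 ≤ k) {x y x' y' t : ℝ} (hy : 7 / 4 ≤ y) (hy2 : y ≤ 9 / 4)
    (hy' : 7 / 4 ≤ y') (hy2' : y' ≤ 9 / 4) (ht : 0 ≤ t)
    (h : (81 / 4) * (t / k) ≤ (x - x') ^ 2 + (y - y') ^ 2) :
    0 ≤ WA.ch (ri2_pt x y) (ri2_pt x' y') ^ (-(k : ℝ) / 2) ∧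
    WA.ch (ri2_pt x y) (ri2_pt x' y') ^ (-(k : ℝ) / 2) ≤ (1 + t / 8) ^ (-(4 : ℝ)) := by
  have h0 : 0 < y := by linarith
  have h0' : 0 < y' := by linarith
  have hk0 : (0 : ℝ) < k := by exact_mod_cast (by omega : 0 < k)
  have htk : 0 ≤ t / k := by positivity
  have h1 : 1 + t / k ≤ WA.ch (ri2_pt x y) (ri2_pt x' y') := by
    rw [ch_form, ri2_re h0, ri2_re h0', ri2_im h0, ri2_im h0']
    have h2 : 4 * y * y' ≤ 81 / 4 := by nlinarith
    have h3 : 0 < 4 * y * y' := by positivity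
    have h4 : t / k ≤ ((x - x') ^ 2 + (y - y') ^ 2) / (4 * y * y') := by
      rw [le_div_iff₀ h3]
      calc t / k * (4 * y * y') ≤ t / k * (81 / 4) := mul_le_mul_of_nonneg_left h2 htk
        _ = (81 / 4) * (t / k) := by ring
        _ ≤ _ := h
    linarith
  have h5 : 0 < WA.ch (ri2_pt x y) (ri2_pt x' y') := by linarith
  refine ⟨Real.rpow_nonneg h5.le _, ?_⟩
  refine (Real.rpow_le_rpow_of_nonpos (by linarith) h1 ?_).trans (grid1 hk ht)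
  have : 0 ≤ (k : ℝ) / 2 := by positivity
  linarith [neg_div (2 : ℝ) (k : ℝ)]

/-- the number of points in one variable -/
theorem ri2_num {a r : ℝ} (ha : 0 < a) (hr : 0 < r) {k : ℕ} (hk : 1 ≤ k) :
    r ^ 2 / a ^ 2 * k ≤ ((2 * ⌊r * √(k : ℝ) / a⌋₊ + 1 : ℕ) : ℝ) ^ 2 ∧
    ((2 * ⌊r * √(k : ℝ) / a⌋₊ + 1 : ℕ) : ℝ) ^ 2 ≤ (2 * r / a + 1) ^ 2 * k := by
  have hk1 : (1 : ℝ) ≤ k := by exact_mod_cast hk
  have hs : √(k : ℝ) ^ 2 = k := Real.sq_sqrt (by linarith)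
  have hs1 : 1 ≤ √(k : ℝ) := by rw [Real.one_le_sqrt]; exact hk1
  have hx : 0 ≤ r * √(k : ℝ) / a := by positivity
  have h1 := Nat.floor_le hx
  have h2 := Nat.lt_floor_add_one (r * √(k : ℝ) / a)
  obtain ⟨M, hM⟩ : ∃ M : ℕ, M = ⌊r * √(k : ℝ) / a⌋₊ := ⟨_, rfl⟩
  obtain ⟨x, hxd⟩ : ∃ x : ℝ, x = r * √(k : ℝ) / a := ⟨_, rfl⟩
  rw [← hM, ← hxd] at h1 h2
  rw [← hxd] at hx
  rw [← hM]
  push_cast
  have hM0 : (0 : ℝ) ≤ M := Nat.cast_nonneg M
  constructor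
  · have h3 : x ≤ 2 * M + 1 := by linarith
    calc r ^ 2 / a ^ 2 * k = x ^ 2 := by rw [hxd, div_pow, mul_pow, hs]; ring
      _ ≤ _ := by
        apply pow_le_pow_left₀ hx h3
  · have h3 : 2 * (M : ℝ) + 1 ≤ (2 * r / a + 1) * √(k : ℝ) := by
      calc 2 * (M : ℝ) + 1 ≤ 2 * x + √(k : ℝ) := by linarith
        _ = _ := by rw [hxd]; ring
    calc (2 * (M : ℝ) + 1) ^ 2 ≤ ((2 * r / a + 1) * √(k : ℝ)) ^ 2 :=
          pow_le_pow_left₀ (by positivity) h3 2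
      _ = _ := by rw [mul_pow, hs]

theorem grid {r : ℝ} (hr : 0 < r) (hr1 : r ≤ 1 / 4) : ∃ (c C : ℝ) (k₀ : ℕ), 0 < c ∧ 0 < C ∧
    ∀ k : ℕ, k₀ ≤ k → ∃ (n : ℕ) (z : Fin n → (Em K → ℍ)),
      c * (k : ℝ) ^ Fintype.card (Em K) ≤ n ∧ (n : ℝ) ≤ C * (k : ℝ) ^ Fintype.card (Em K) ∧
      (∀ i, z i ∈ BX K r) ∧
      ∀ i, ∑ j ∈ Finset.univ.erase i, chW (z j) (z i) ^ (-(k : ℝ) / 2) ≤ 1 / 4 := by
  classical
  obtain ⟨A, hA, hgrid⟩ := grid2 (Em K)
  obtain ⟨a, ha0, ha⟩ : ∃ a : ℝ, 0 < a ∧ a ^ 2 = 162 * A :=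
    ⟨√(162 * A), by positivity, Real.sq_sqrt (by positivity)⟩
  refine ⟨(r ^ 2 / a ^ 2) ^ Fintype.card (Em K), ((2 * r / a + 1) ^ 2) ^ Fintype.card (Em K), 8,
    by positivity, by positivity, fun k hk => ?_⟩
  have hk0 : (0 : ℝ) < k := by exact_mod_cast (by omega : 0 < k)
  have hs0 : 0 < √(k : ℝ) := Real.sqrt_pos.mpr hk0
  have hs : √(k : ℝ) ^ 2 = k := Real.sq_sqrt hk0.le
  obtain ⟨hn1, hn2⟩ := ri2_num ha0 hr (by omega : 1 ≤ k)
  obtain ⟨M, hM⟩ : ∃ M : ℕ, M = ⌊r * √(k : ℝ) / a⌋₊ := ⟨_, rfl⟩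
  rw [← hM] at hn1 hn2
  have hMr : a * M / √(k : ℝ) ≤ r := by
    have h1 := Nat.floor_le (by positivity : 0 ≤ r * √(k : ℝ) / a)
    rw [← hM, le_div_iff₀ ha0] at h1
    rw [div_le_iff₀ hs0]
    linarith
  -- the index set
  obtain ⟨Q, hQ⟩ : ∃ Q : Finset (ℤ × ℤ), Q = Finset.Icc (-(M : ℤ)) M ×ˢ Finset.Icc (-(M : ℤ)) M :=
    ⟨_, rfl⟩
  have hQc : Q.card = (2 * M + 1) ^ 2 := by
    rw [hQ, Finset.card_product, Int.card_Icc, sq]
    congr 1 <;> omega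
  obtain ⟨S, hS⟩ : ∃ S : Finset (Em K → ℤ × ℤ), S = Fintype.piFinset (fun _ => Q) := ⟨_, rfl⟩
  have hSc : S.card = ((2 * M + 1) ^ 2) ^ Fintype.card (Em K) := by
    rw [hS, Fintype.card_piFinset, Finset.prod_const, hQc, Finset.card_univ]
  -- the coordinates
  have hco : ∀ m ∈ S, ∀ w, |a * ((m w).1 : ℝ) / √(k : ℝ)| ≤ r ∧ |a * ((m w).2 : ℝ) / √(k : ℝ)| ≤ r := by
    intro m hm w
    rw [hS, Fintype.mem_piFinset] at hm
    have h1 := hm w
    rw [hQ, Finset.mem_product, Finset.mem_Icc, Finset.mem_Icc] at h1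
    have key : ∀ b : ℤ, -(M : ℤ) ≤ b → b ≤ M → |a * (b : ℝ) / √(k : ℝ)| ≤ r := by
      intro b h2 h3
      have h4 : |(b : ℝ)| ≤ M := by
        rw [abs_le]
        constructor
        · exact_mod_cast h2
        · exact_mod_cast h3
      rw [abs_div, abs_mul, abs_of_pos ha0, abs_of_pos hs0]
      exact (div_le_div_of_nonneg_right (mul_le_mul_of_nonneg_left h4 ha0.le) hs0.le).trans hMr
    exact ⟨key _ h1.1.1 h1.1.2, key _ h1.2.1 h1.2.2⟩
  obtain ⟨P, hP⟩ : ∃ P : (Em K → ℤ × ℤ) → (Em K → ℍ), P = fun m w =>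
    ri2_pt (a * ((m w).1 : ℝ) / √(k : ℝ)) (2 + a * ((m w).2 : ℝ) / √(k : ℝ)) := ⟨_, rfl⟩
  have hterm : ∀ m ∈ S, ∀ m' ∈ S, chW (P m') (P m) ^ (-(k : ℝ) / 2) ≤
      ∏ w, (1 + A * ((((m' - m) w).1 : ℝ) ^ 2 + (((m' - m) w).2 : ℝ) ^ 2)) ^ (-(4 : ℝ)) := by
    intro m hm m' hm'
    have hone : ∀ w, 0 ≤ WA.ch (P m' w) (P m w) ^ (-(k : ℝ) / 2) ∧
        WA.ch (P m' w) (P m w) ^ (-(k : ℝ) / 2) ≤
        (1 + A * ((((m' - m) w).1 : ℝ) ^ 2 + (((m' - m) w).2 : ℝ) ^ 2)) ^ (-(4 : ℝ)) := by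
      intro w
      obtain ⟨h1, h2⟩ := hco m hm w
      obtain ⟨h1', h2'⟩ := hco m' hm' w
      rw [abs_le] at h1 h2 h1' h2'
      have h3 := ri2_ch hk (x := a * ((m' w).1 : ℝ) / √(k : ℝ))
        (y := 2 + a * ((m' w).2 : ℝ) / √(k : ℝ)) (x' := a * ((m w).1 : ℝ) / √(k : ℝ))
        (y' := 2 + a * ((m w).2 : ℝ) / √(k : ℝ))
        (t := 8 * (A * ((((m' - m) w).1 : ℝ) ^ 2 + (((m' - m) w).2 : ℝ) ^ 2)))
        (by linarith) (by linarith) (by linarith) (by linarith) (by positivity) (by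
          have h4 : (a * ((m' w).1 : ℝ) / √(k : ℝ) - a * ((m w).1 : ℝ) / √(k : ℝ)) ^ 2 +
              (2 + a * ((m' w).2 : ℝ) / √(k : ℝ) - (2 + a * ((m w).2 : ℝ) / √(k : ℝ))) ^ 2 =
              a ^ 2 * ((((m' w).1 : ℝ) - (m w).1) ^ 2 + (((m' w).2 : ℝ) - (m w).2) ^ 2) /
                √(k : ℝ) ^ 2 := by
            field_simp
            ring
          rw [h4, hs, ha]
          have h5 : (((m' - m) w).1 : ℝ) = ((m' w).1 : ℝ) - (m w).1 := by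
            rw [Pi.sub_apply, Prod.fst_sub, Int.cast_sub]
          have h6 : (((m' - m) w).2 : ℝ) = ((m' w).2 : ℝ) - (m w).2 := by
            rw [Pi.sub_apply, Prod.snd_sub, Int.cast_sub]
          rw [h5, h6]
          apply le_of_eq
          ring)
      rw [mul_div_cancel_left₀ _ (by norm_num : (8 : ℝ) ≠ 0)] at h3
      rw [hP]
      exact h3
    have hch : ∀ w, 0 ≤ WA.ch (P m' w) (P m w) := by
      intro w
      rw [ch_form]
      have h1 := (P m' w).im_pos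
      have h2 := (P m w).im_pos
      positivity
    unfold chW
    rw [← Real.finsetProd_rpow _ _ (fun w _ => hch w)]
    exact Finset.prod_le_prod (fun w _ => (hone w).1) (fun w _ => (hone w).2)
  refine ⟨S.card, fun i => P (S.equivFin.symm i).1, ?_, ?_, ?_, ?_⟩
  · rw [hSc, ← mul_pow]
    push_cast at hn1 ⊢
    exact pow_le_pow_left₀ (by positivity) hn1 _
  · rw [hSc, ← mul_pow]
    push_cast at hn2 ⊢
    exact pow_le_pow_left₀ (by positivity) hn2 _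
  · intro i w
    obtain ⟨h1, h2⟩ := hco _ (S.equivFin.symm i).2 w
    have h3 : 0 < 2 + a * (((S.equivFin.symm i).1 w).2 : ℝ) / √(k : ℝ) := by
      rw [abs_le] at h2
      linarith
    rw [hP]
    dsimp only
    rw [ri2_re h3, ri2_im h3, add_sub_cancel_left]
    exact ⟨h1, h2⟩
  · intro i
    obtain ⟨m, hm⟩ : ∃ m : S, m = S.equivFin.symm i := ⟨_, rfl⟩
    have hinj : Function.Injective (fun j : Fin S.card => ((S.equivFin.symm j).1 - m.1)) := by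
      intro j j' hjj
      have h1 : (S.equivFin.symm j).1 = (S.equivFin.symm j').1 := sub_left_injective hjj
      exact S.equivFin.symm.injective (Subtype.ext h1)
    calc ∑ j ∈ Finset.univ.erase i, chW (P (S.equivFin.symm j).1) (P (S.equivFin.symm i).1) ^
          (-(k : ℝ) / 2)
        ≤ ∑ j ∈ Finset.univ.erase i, ∏ w, (1 + A * (((((S.equivFin.symm j).1 - m.1) w).1 : ℝ) ^ 2 +
            ((((S.equivFin.symm j).1 - m.1) w).2 : ℝ) ^ 2)) ^ (-(4 : ℝ)) := by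
          apply Finset.sum_le_sum
          intro j _
          rw [← hm]
          exact hterm m.1 m.2 _ (S.equivFin.symm j).2
      _ = ∑ q ∈ (Finset.univ.erase i).image (fun j : Fin S.card => ((S.equivFin.symm j).1 - m.1)),
            ∏ w, (1 + A * (((q w).1 : ℝ) ^ 2 + ((q w).2 : ℝ) ^ 2)) ^ (-(4 : ℝ)) := by
          rw [Finset.sum_image (fun x _ y _ h => hinj h)]
      _ ≤ 1 / 8 := by
          apply hgrid
          intro h0
          rw [Finset.mem_image] at h0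
          obtain ⟨j, hj, hj0⟩ := h0
          rw [Finset.mem_erase] at hj
          apply hj.1
          have h1 : (S.equivFin.symm j).1 = (S.equivFin.symm i).1 := by
            rw [← hm]
            exact sub_eq_zero.mp hj0
          exact S.equivFin.symm.injective (Subtype.ext h1)
      _ ≤ 1 / 4 := by norm_num

end Pool.Agent.HSG
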