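import Pool.Agent.Lib_helper45.HSK.Defs
import Pool.Agent.Lib_helper45.HSRF.RD1
import Pool.Agent.Lib_helper45.HSRF.RE2
import Pool.Agent.Lib_helper45.HSRF.RF2
import Pool.Agent.Lib_helper45.HSRF.RH
import Pool.Agent.Lib_helper45.HSRF.RI2
import Pool.Agent.Lib_helper84.HSGF.GA3
import Pool.Agent.Lib_helper84.HSGF.GD1
import Pool.Agent.Lib_helper84.HSGF.GU2

/-! Block RJ (GRM): linear independence of the kernel forms. -/

namespace Pool.Agent.HSG

open Complex MeasureTheory Filter Topology UpperHalfPlane NumberField IsDedekindDomain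
open scoped nonZeroDivisors MatrixGroups ENNReal

variable {K : Type} [Field K] [NumberField K]

theorem rj_chW_self (z : Em K → ℍ) : chW z z = 1 := by
  unfold chW
  refine Finset.prod_eq_one fun w _ => ?_
  rw [ch_form]
  simp

theorem rj_ew_norm (k : ℕ) (z w : Em K → ℍ) : ‖EW k z w‖ = chW z w ^ (-(k : ℝ) / 2) :=
  ew_norm k z w

theorem rj_NY_pos (z : Em K → ℍ) : 0 < NY z := Finset.prod_pos fun w _ => (z w).im_pos

/-- exponential decay beats polynomial growth -/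
theorem rj_decay (C δ : ℝ) (hδ : 0 < δ) (m : ℕ) : ∃ k₀ : ℕ, ∀ k : ℕ, k₀ ≤ k →
    C * (k : ℝ) ^ m * (1 + δ) ^ (8 - (k : ℝ) / 2) ≤ 1 / 4 := by
  set q : ℝ := (1 + δ) ^ (-(1 / 2) : ℝ) with hq
  have hd : (0 : ℝ) < 1 + δ := by linarith
  have hq0 : 0 < q := Real.rpow_pos_of_pos hd _
  have hq1 : q < 1 := Real.rpow_lt_one_of_one_lt_of_neg (by linarith) (by norm_num)
  have h1 := tendsto_pow_const_mul_const_pow_of_abs_lt_one m (r := q)
    (by rw [abs_of_pos hq0]; exact hq1)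
  have h2 : Tendsto (fun k : ℕ => C * (1 + δ) ^ (8 : ℝ) * ((k : ℝ) ^ m * q ^ k)) atTop (𝓝 0) := by
    have := h1.const_mul (C * (1 + δ) ^ (8 : ℝ))
    rwa [mul_zero] at this
  have h3 : ∀ᶠ k : ℕ in atTop, C * (1 + δ) ^ (8 : ℝ) * ((k : ℝ) ^ m * q ^ k) < 1 / 4 :=
    h2.eventually (gt_mem_nhds (by norm_num))
  obtain ⟨k₀, hk₀⟩ := eventually_atTop.1 h3
  refine ⟨k₀, fun k hk => ?_⟩
  have h4 : (1 + δ) ^ (8 - (k : ℝ) / 2) = (1 + δ) ^ (8 : ℝ) * q ^ k := by
    rw [hq, ← Real.rpow_natCast ((1 + δ) ^ (-(1 / 2) : ℝ)) k, ← Real.rpow_mul hd.le,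
      ← Real.rpow_add hd]
    congr 1
    ring
  have h5 := (hk₀ k hk).le
  calc C * (k : ℝ) ^ m * (1 + δ) ^ (8 - (k : ℝ) / 2)
      = C * (1 + δ) ^ (8 : ℝ) * ((k : ℝ) ^ m * q ^ k) := by rw [h4]; ring
    _ ≤ 1 / 4 := h5

section tr2
variable [IsTotallyReal K]

/-- the forms at a sparse grid are linearly independent -/
theorem rj_indep {r δ : ℝ} (hg : GapB K r δ) {k : ℕ} (hk : 16 ≤ k) (he : Even k) {n : ℕ}
    (z : Fin n → (Em K → ℍ)) (hz : ∀ i, z i ∈ BX K r) (hd : (Matrix.of fun i j =>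
      kp k (z j) (z i) (Lat.ds 1 1)).det ≠ 0) :
    LinearIndependent ℂ (fun j => (⟨kF k (z j), kF_form hg hk he (hz j)⟩ : VV K k)) := by
  rw [Fintype.linearIndependent_iff]
  intro c hc
  have hv : (Matrix.of fun i j => kp k (z j) (z i) (Lat.ds 1 1)).mulVec c = 0 := by
    ext i
    have h1 := congrArg (fun F : VV K k => (F : (Em K → ℍ) → Lat K → ℂ) (z i) (Lat.ds 1 1)) hc
    simp only [Submodule.coe_sum, Submodule.coe_smul, Submodule.coe_zero, Finset.sum_apply,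
      Pi.smul_apply, Pi.zero_apply, smul_eq_mul] at h1
    have hf : (((NY (z i) * nI (Lat.ds (K := K) 1 1).det) ^ (-(k : ℝ) / 2) : ℝ) : ℂ) ≠ 0 := by
      rw [Ne, ofReal_eq_zero]
      exact (Real.rpow_pos_of_pos (mul_pos (rj_NY_pos _) (nI_pos _)) _).ne'
    have h2 : (∑ j, kp k (z j) (z i) (Lat.ds 1 1) * c j) *
        (((NY (z i) * nI (Lat.ds (K := K) 1 1).det) ^ (-(k : ℝ) / 2) : ℝ) : ℂ) = 0 := by
      rw [Finset.sum_mul, ← h1]
      refine Finset.sum_congr rfl fun j _ => ?_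
      unfold kF
      ring
    have h3 := (mul_eq_zero.1 h2).resolve_right hf
    simpa [Matrix.mulVec, dotProduct] using h3
  have h4 := Matrix.eq_zero_of_mulVec_eq_zero hd hv
  intro i
  exact congrFun h4 i

theorem vv_low : ∃ (c : ℝ) (k₀ : ℕ), 0 < c ∧ ∀ k : ℕ, k₀ ≤ k → Even k →
    FiniteDimensional ℂ (VV K k) → c * (k : ℝ) ^ dg K ≤ Module.finrank ℂ (VV K k) := by
  obtain ⟨r, δ, hg⟩ := gap_exists (K := K)
  obtain ⟨C, hC, hrest⟩ := sg_rest hg
  obtain ⟨c, C', k₁, hc, hC', hgrid⟩ := grid (K := K) hg.rpos hg.rle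
  obtain ⟨k₂, hk₂⟩ := rj_decay (C' * C) δ hg.dpos (Fintype.card (Em K))
  obtain ⟨k₃, hk₃⟩ := rj_decay C δ hg.dpos 0
  refine ⟨c, max (max 16 k₁) (max k₂ k₃), hc, fun k hk he hfin => ?_⟩
  have a1 : 16 ≤ k := le_trans (le_trans (le_max_left _ _) (le_max_left _ _)) hk
  have a2 : k₁ ≤ k := le_trans (le_trans (le_max_right _ _) (le_max_left _ _)) hk
  have a3 : k₂ ≤ k := le_trans (le_trans (le_max_left _ _) (le_max_right _ _)) hk
  have a4 : k₃ ≤ k := le_trans (le_trans (le_max_right _ _) (le_max_right _ _)) hk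
  obtain ⟨n, z, hn1, hn2, hz, hsum⟩ := hgrid k a2
  set e : ℝ := C * (1 + δ) ^ (8 - (k : ℝ) / 2) with hedef
  have he0 : 0 ≤ e := mul_nonneg hC.le (Real.rpow_nonneg (by linarith [hg.dpos]) _)
  have he1 : e ≤ 1 / 4 := by
    have := hk₃ k a4
    rw [pow_zero, mul_one] at this
    exact this
  have hne : (n : ℝ) * e ≤ 1 / 4 := by
    have h1 := hk₂ k a3
    have h2 : (n : ℝ) * e ≤ C' * (k : ℝ) ^ Fintype.card (Em K) * e :=
      mul_le_mul_of_nonneg_right hn2 he0
    refine h2.trans (le_trans (le_of_eq ?_) h1)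
    rw [hedef]
    ring
  have hent : ∀ i j, ‖kp k (z j) (z i) (Lat.ds 1 1) - EW k (z j) (z i)‖ ≤ e := fun i j =>
    hrest k a1 he (z j) (hz j) (z i) (hz i)
  have hdet : (Matrix.of fun i j => kp k (z j) (z i) (Lat.ds 1 1)).det ≠ 0 := by
    refine det_ne_zero_of_sum_row_lt_diag fun i => ?_
    have h1 : 1 - e ≤ ‖kp k (z i) (z i) (Lat.ds 1 1)‖ := by
      have h2 := hent i i
      have h3 : ‖EW k (z i) (z i)‖ = 1 := by
        rw [rj_ew_norm, rj_chW_self, Real.one_rpow]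
      have h4 : ‖EW k (z i) (z i)‖ - ‖kp k (z i) (z i) (Lat.ds 1 1)‖ ≤
          ‖kp k (z i) (z i) (Lat.ds 1 1) - EW k (z i) (z i)‖ := by
        rw [norm_sub_rev]
        exact norm_sub_norm_le _ _
      linarith
    have h5 : ∑ j ∈ Finset.univ.erase i, ‖kp k (z j) (z i) (Lat.ds 1 1)‖ ≤ 1 / 4 + n * e := by
      calc ∑ j ∈ Finset.univ.erase i, ‖kp k (z j) (z i) (Lat.ds 1 1)‖
          ≤ ∑ j ∈ Finset.univ.erase i, (chW (z j) (z i) ^ (-(k : ℝ) / 2) + e) := by
            refine Finset.sum_le_sum fun j _ => ?_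
            have h6 := hent i j
            have h7 : ‖kp k (z j) (z i) (Lat.ds 1 1)‖ ≤
                ‖EW k (z j) (z i)‖ + ‖kp k (z j) (z i) (Lat.ds 1 1) - EW k (z j) (z i)‖ := by
              have := norm_add_le (EW k (z j) (z i))
                (kp k (z j) (z i) (Lat.ds 1 1) - EW k (z j) (z i))
              rwa [add_sub_cancel] at this
            rw [rj_ew_norm] at h7
            linarith
        _ = ∑ j ∈ Finset.univ.erase i, chW (z j) (z i) ^ (-(k : ℝ) / 2) +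
            ((Finset.univ.erase i).card : ℝ) * e := by
            rw [Finset.sum_add_distrib, Finset.sum_const, nsmul_eq_mul]
        _ ≤ 1 / 4 + n * e := by
            have h8 : ((Finset.univ.erase i).card : ℝ) ≤ n := by
              have := Finset.card_le_univ (Finset.univ.erase i)
              rw [Fintype.card_fin] at this
              exact_mod_cast this
            exact add_le_add (hsum i) (mul_le_mul_of_nonneg_right h8 he0)
    show ∑ j ∈ Finset.univ.erase i, ‖kp k (z j) (z i) (Lat.ds 1 1)‖ <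
      ‖kp k (z i) (z i) (Lat.ds 1 1)‖
    linarith
  have hli := rj_indep hg a1 he z hz hdet
  have hle := hli.fintype_card_le_finrank
  rw [Fintype.card_fin] at hle
  have h9 : c * (k : ℝ) ^ Fintype.card (Em K) ≤ (Module.finrank ℂ (VV K k) : ℝ) :=
    hn1.trans (by exact_mod_cast hle)
  rw [card_em] at h9
  exact h9

end tr2

end Pool.Agent.HSG
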