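import Pool.Agent.Lib_helper45.HSK.Defs
import Pool.Agent.Lib_helper45.HSRF.RK1
import Pool.Agent.Lib_helper84.HSGF.GA3
import Pool.Agent.Lib_helper84.HSGF.GD1
import Pool.Agent.Lib_helper84.HSGF.GL1
import Pool.Agent.Lib_helper84.HSGF.GL2
import Pool.Agent.Lib_helper84.HSGF.GR3
import Pool.Agent.Lib_helper84.HSGF.GT
import Pool.Agent.Lib_helper84.HSGF.HF
import Pool.Agent.Lib_helper84.HSGF.HG

/-!
# HSR, block RK2: the spaces of forms are finite dimensional
-/

namespace Pool.Agent.HSG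

open Complex MeasureTheory Filter Topology UpperHalfPlane NumberField IsDedekindDomain
open scoped nonZeroDivisors MatrixGroups ENNReal

variable {K : Type} [Field K] [NumberField K]

theorem rk2_omk_pos {k : ℕ} (hk : 2 ≤ k) : 0 < WA.omk k := by
  have h2 : (2 : ℝ) ≤ k := by exact_mod_cast hk
  exact div_pos (Real.Gamma_pos_of_pos (by linarith)) (pow_pos (by positivity) _)

section tr2
variable [IsTotallyReal K]

/-- a form whose first coefficients vanish is zero -/
theorem rk2_zero : ∃ (B : ℝ) (k₀ : ℕ), ∀ k : ℕ, k₀ ≤ k → ∀ {F : (Em K → ℍ) → Lat K → ℂ}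
    {A : Id K → ℂ}, IsForm k F → IsCo k F A →
    (∀ m : Id K, IsInt m → nI m ≤ B * (k : ℝ) ^ dg K → A m = 0) → ∀ z L, F z L = 0 := by
  obtain ⟨ω⟩ := exw_exists (K := K)
  obtain ⟨C1, k1, hC1, h1⟩ := pn_form ω
  obtain ⟨C2, k2, hC2, h2⟩ := ls_form ω
  obtain ⟨k3, h3⟩ := pn_pos ω
  obtain ⟨C3, hC3, h4⟩ := dyad
  have hc0 : 0 < C1 * C2 * C3 := mul_pos (mul_pos hC1 hC2) hC3
  set B : ℝ := 1 + C1 * C2 * C3 with hB
  have hB1 : 1 ≤ B := by linarith
  refine ⟨B, max (max k1 k2) (max k3 2), ?_⟩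
  intro k hk F A hF hA hv
  have hk1 : k1 ≤ k := le_trans (le_trans (le_max_left _ _) (le_max_left _ _)) hk
  have hk2 : k2 ≤ k := le_trans (le_trans (le_max_right _ _) (le_max_left _ _)) hk
  have hk3 : k3 ≤ k := le_trans (le_trans (le_max_left _ _) (le_max_right _ _)) hk
  have hk4 : 2 ≤ k := le_trans (le_trans (le_max_right _ _) (le_max_right _ _)) hk
  have hkr : (0 : ℝ) < k := by
    have : (2 : ℝ) ≤ k := by exact_mod_cast hk4
    linarith
  have hN0 : 0 < (k : ℝ) ^ dg K := pow_pos hkr _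
  have hD : 0 < dK K ^ k * WA.omk k ^ dg K :=
    mul_pos (pow_pos (lt_of_lt_of_le one_pos dK_ge) _) (pow_pos (rk2_omk_pos hk4) _)
  have hp0 : 0 ≤ pn ω k F := pn_nonneg ω k F
  obtain ⟨hsum, hup⟩ := h1 k hk1 hF hA
  -- the large sieve
  have hls : ∀ Y : ℝ, 0 ≤ Y → ∀ s : Finset (Id K), (∀ m ∈ s, nI m ≤ Y) →
      ∑ m ∈ s, ‖A m‖ ^ 2 * nI m ^ (-((k : ℝ) - 1)) ≤
        C2 * pn ω k F / (dK K ^ k * WA.omk k ^ dg K) * (1 + Y / (k : ℝ) ^ dg K) := by
    classical
    intro Y hY s hs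
    have e1 : ∑ m ∈ s, ‖A m‖ ^ 2 * nI m ^ (-((k : ℝ) - 1)) =
        ∑ m ∈ s.filter (fun m => IsInt m), ‖A m‖ ^ 2 * nI m ^ (-((k : ℝ) - 1)) := by
      rw [Finset.sum_filter]
      refine Finset.sum_congr rfl fun m _ => ?_
      split_ifs with h
      · rfl
      · rw [hA.int m h, norm_zero]
        ring
    have e2 := h2 k hk2 hF hA Y (s.filter (fun m => IsInt m)) hY
      (fun m hm => ⟨(Finset.mem_filter.mp hm).2, hs m (Finset.mem_filter.mp hm).1⟩)
    rw [← Finset.sum_mul] at e2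
    rw [e1, div_mul_eq_mul_div, le_div_iff₀ hD]
    calc (∑ m ∈ s.filter (fun m => IsInt m), ‖A m‖ ^ 2 * nI m ^ (-((k : ℝ) - 1))) *
          (dK K ^ k * WA.omk k ^ dg K)
        ≤ C2 * (1 + Y / (k : ℝ) ^ dg K) * pn ω k F := e2
      _ = C2 * pn ω k F * (1 + Y / (k : ℝ) ^ dg K) := by ring
  have hdy := h4 (fun m : Id K => ‖A m‖ ^ 2 * nI m ^ (-((k : ℝ) - 1))) (fun m : Id K => nI m)
    ((k : ℝ) ^ dg K) (C2 * pn ω k F / (dK K ^ k * WA.omk k ^ dg K)) B hN0
    (div_nonneg (mul_nonneg hC2.le hp0) hD.le) hB1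
    (fun m => mul_nonneg (sq_nonneg _) (Real.rpow_nonneg (nI_pos m).le _)) (fun m => nI_pos m)
    (by
      intro m hm
      by_contra hcon
      push Not at hcon
      apply hm
      by_cases hi : IsInt m
      · rw [hv m hi hcon, norm_zero]
        ring
      · rw [hA.int m hi, norm_zero]
        ring) hls
  have hts : ∑' m : Id K, ‖A m‖ ^ 2 * nI m ^ (-((k : ℝ) - 1)) *
      min 1 (((k : ℝ) ^ dg K / nI m) ^ 6) ≤
      C3 * (C2 * pn ω k F / (dK K ^ k * WA.omk k ^ dg K)) / B ^ 5 :=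
    hsum.tsum_le_of_sum_le hdy
  have hfin : pn ω k F ≤ C1 * C2 * C3 / B ^ 5 * pn ω k F := by
    calc pn ω k F ≤ C1 * (dK K ^ k * WA.omk k ^ dg K) *
          (C3 * (C2 * pn ω k F / (dK K ^ k * WA.omk k ^ dg K)) / B ^ 5) :=
          hup.trans (mul_le_mul_of_nonneg_left hts (mul_nonneg hC1.le hD.le))
      _ = C1 * C2 * C3 / B ^ 5 * pn ω k F := by
          have hB5 : B ^ 5 ≠ 0 := by positivity
          have hD' := hD.ne'
          generalize dK K ^ k * WA.omk k ^ dg K = D at hD'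
          field_simp
  have hlt : C1 * C2 * C3 / B ^ 5 < 1 := by
    rw [div_lt_one (by positivity)]
    calc C1 * C2 * C3 < B := by linarith
      _ = B ^ 1 := (pow_one B).symm
      _ ≤ B ^ 5 := pow_le_pow_right₀ hB1 (by norm_num)
  have hz : pn ω k F = 0 := by
    nlinarith
  by_contra hcon
  push Not at hcon
  obtain ⟨z, L, hzL⟩ := hcon
  have := h3 k hk3 hF ⟨z, L, hzL⟩
  linarith

/-- RK2 -/
theorem vv_fin : ∃ k₀ : ℕ, ∀ k : ℕ, k₀ ≤ k → FiniteDimensional ℂ (VV K k) := by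
  classical
  obtain ⟨B, k₀, h0⟩ := rk2_zero (K := K)
  refine ⟨max k₀ 1, fun k hk => ?_⟩
  have hk0 : k₀ ≤ k := le_trans (le_max_left _ _) hk
  have hk1 : 1 ≤ k := le_trans (le_max_right _ _) hk
  set S : Set (Id K) := {m : Id K | IsInt m ∧ nI m ≤ B * (k : ℝ) ^ dg K} with hS
  have hfin : S.Finite := id_finite _
  have : Finite S := hfin.to_subtype
  have hex : ∀ F : VV K k, ∃ A, IsCo k (F : (Em K → ℍ) → Lat K → ℂ) A :=
    fun F => co_exists hk1 F.2
  choose c hc using hex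
  have hadd : ∀ F G : VV K k, c (F + G) = c F + c G := by
    intro F G
    have h1 := co_lin (k := k) (Finset.univ : Finset (Fin 2)) (fun _ => (1 : ℂ))
      (F := fun i => if i = 0 then (F : (Em K → ℍ) → Lat K → ℂ) else G)
      (A := fun i => if i = 0 then c F else c G)
      (by
        intro i _
        fin_cases i
        · exact hc F
        · exact hc G)
    have h2 : IsCo k ((F + G : VV K k) : (Em K → ℍ) → Lat K → ℂ) (c F + c G) := by
      convert h1 using 1
      · funext z L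
        simp
      · funext m
        simp
    exact co_unique (hc (F + G)) h2
  have hsmul : ∀ (a : ℂ) (F : VV K k), c (a • F) = a • c F := by
    intro a F
    have h1 := co_lin (k := k) (Finset.univ : Finset (Fin 1)) (fun _ => a)
      (F := fun _ => (F : (Em K → ℍ) → Lat K → ℂ)) (A := fun _ => c F)
      (fun i _ => hc F)
    have h2 : IsCo k ((a • F : VV K k) : (Em K → ℍ) → Lat K → ℂ) (a • c F) := by
      convert h1 using 1
      · funext z L
        simp
      · funext m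
        simp
    exact co_unique (hc (a • F)) h2
  let φ : VV K k →ₗ[ℂ] (S → ℂ) :=
    { toFun := fun F m => c F m.1
      map_add' := fun F G => by
        funext m
        rw [hadd]
        rfl
      map_smul' := fun a F => by
        funext m
        rw [hsmul]
        rfl }
  have hinj : Function.Injective φ := by
    rw [injective_iff_map_eq_zero]
    intro F hF
    apply Subtype.ext
    funext z L
    refine h0 k hk0 F.2 (hc F) ?_ z L
    intro m hm1 hm2
    exact congrFun hF ⟨m, hm1, hm2⟩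
  exact FiniteDimensional.of_injective φ hinj

end tr2

end Pool.Agent.HSG
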