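import Pool.Agent.Lib_helper45.HSK.Defs
import Pool.Agent.Lib_helper84.HSGF.GJ1
import Pool.Agent.Lib_helper84.HSGF.GJ2
import Pool.Agent.Lib_helper84.HSGF.GQ

/-! # Hilbert-Selberg, stage 2, block RL: the Petersson product -/

namespace Pool.Agent.HSG

open Complex MeasureTheory Filter Topology UpperHalfPlane NumberField IsDedekindDomain
open scoped nonZeroDivisors MatrixGroups ENNReal

variable {K : Type} [Field K] [NumberField K]

section tr
variable [IsTotallyReal K]

theorem rl_int (ω : ExW K) {k : ℕ} {F H : (Em K → ℍ) → Lat K → ℂ} (hF : IsForm k F)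
    (hH : IsForm k H) :
    Integrable (fun x : XX K => PF k F x.1 x.2 * starRingEnd ℂ (PF k H x.1 x.2)) (mX ω) := by
  have := mX_fin ω
  obtain ⟨C, hC0, hC⟩ := pf_bdd hF
  obtain ⟨D, hD0, hD⟩ := pf_bdd hH
  refine Integrable.of_bound (C := C * D) ?_ ?_
  · exact ((pf_meas hF).mul (Complex.continuous_conj.measurable.comp
      (pf_meas hH))).aestronglyMeasurable
  · refine Filter.Eventually.of_forall fun x => ?_
    rw [norm_mul, RCLike.norm_conj]
    exact mul_le_mul (hC _ _) (hD _ _) (norm_nonneg _) hC0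

theorem pet_add (ω : ExW K) {k : ℕ} {F G H : (Em K → ℍ) → Lat K → ℂ} (hF : IsForm k F)
    (hG : IsForm k G) (hH : IsForm k H) : pet ω k (F + G) H = pet ω k F H + pet ω k G H := by
  unfold pet
  rw [← integral_add (rl_int ω hF hH) (rl_int ω hG hH)]
  refine integral_congr_ae (Filter.Eventually.of_forall fun x => ?_)
  show (F x.1 x.2 + G x.1 x.2) * _ * _ = F x.1 x.2 * _ * _ + G x.1 x.2 * _ * _
  ring

theorem pet_smul (ω : ExW K) (k : ℕ) (c : ℂ) (F H : (Em K → ℍ) → Lat K → ℂ) :
    pet ω k (c • F) H = c * pet ω k F H := by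
  unfold pet
  rw [← integral_const_mul]
  refine integral_congr_ae (Filter.Eventually.of_forall fun x => ?_)
  show (c * F x.1 x.2) * _ * _ = c * (F x.1 x.2 * _ * _)
  ring

theorem pet_conj (ω : ExW K) (k : ℕ) (F H : (Em K → ℍ) → Lat K → ℂ) :
    pet ω k H F = starRingEnd ℂ (pet ω k F H) := by
  unfold pet
  rw [← integral_conj]
  refine integral_congr_ae (Filter.Eventually.of_forall fun x => ?_)
  show PF k H x.1 x.2 * starRingEnd ℂ (PF k F x.1 x.2) =
    starRingEnd ℂ (PF k F x.1 x.2 * starRingEnd ℂ (PF k H x.1 x.2))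
  rw [map_mul, Complex.conj_conj, mul_comm]

theorem pet_self (ω : ExW K) (k : ℕ) (F : (Em K → ℍ) → Lat K → ℂ) :
    pet ω k F F = (pn ω k F : ℂ) := by
  unfold pet pn
  rw [← integral_complex_ofReal]
  refine integral_congr_ae (Filter.Eventually.of_forall fun x => ?_)
  show PF k F x.1 x.2 * starRingEnd ℂ (PF k F x.1 x.2) = ((‖PF k F x.1 x.2‖ ^ 2 : ℝ) : ℂ)
  rw [Complex.mul_conj, Complex.normSq_eq_norm_sq]

end tr

end Pool.Agent.HSG
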