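import Pool.Agent.Lib_helper45.HSK.Defs
import Pool.Agent.Lib_helper84.HSGF.GA1
import Pool.Agent.Lib_helper84.HSGF.GA3
import Pool.Agent.Lib_helper84.HSGF.GC1
import Pool.Agent.Lib_helper84.HSGF.GJ1
import Pool.Agent.Lib_helper84.HSGF.GJ2
import Pool.Agent.Lib_helper84.HSGF.GL1
import Pool.Agent.Lib_helper84.HSGF.GL2
import Pool.Agent.Lib_helper84.HSGF.GM

/-! # Hilbert-Selberg, stage 2, block RM: the Hecke operators on the space of forms -/

namespace Pool.Agent.HSG

open Complex MeasureTheory Filter Topology UpperHalfPlane NumberField IsDedekindDomain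
open scoped nonZeroDivisors MatrixGroups ENNReal

variable {K : Type} [Field K] [NumberField K]

section tr
variable [IsTotallyReal K]

omit [IsTotallyReal K] in
private theorem rm_TT_add (p : Pr K) (F G : (Em K → ℍ) → Lat K → ℂ) (z : Em K → ℍ) (L : Lat K) :
    TT p (F + G) z L = TT p F z L + TT p G z L := by
  haveI := sub_fin p L
  unfold TT
  rw [← finsum_add_distrib (Set.toFinite _) (Set.toFinite _)]
  rfl

omit [IsTotallyReal K] in
private theorem rm_TT_smul (p : Pr K) (c : ℂ) (F : (Em K → ℍ) → Lat K → ℂ) (z : Em K → ℍ)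
    (L : Lat K) : TT p (c • F) z L = c * TT p F z L := by
  haveI := sub_fin p L
  unfold TT
  rw [mul_finsum]
  rfl

theorem tv_exists (k : ℕ) (p : Pr K) : ∃ T : VV K k →ₗ[ℂ] VV K k,
    ∀ (F : VV K k) z L, (T F : (Em K → ℍ) → Lat K → ℂ) z L =
      TT p (F : (Em K → ℍ) → Lat K → ℂ) z L := by
  refine ⟨{ toFun := fun F => ⟨TT p (F : (Em K → ℍ) → Lat K → ℂ), form_TT F.2 p⟩
            map_add' := ?_
            map_smul' := ?_ }, fun F z L => rfl⟩
  · intro F G
    apply Subtype.ext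
    funext z L
    exact rm_TT_add p F G z L
  · intro c F
    apply Subtype.ext
    funext z L
    exact rm_TT_smul p c F z L

omit [IsTotallyReal K] in
/-- cancellation of a coprime prime -/
private theorem rm_cop {p q : Pr K} (hpq : p ≠ q) {m : Id K} (hm : IsInt m)
    (h : IsInt (m * HS.frP q / HS.frP p)) : IsInt (m / HS.frP p) := by
  rw [isInt_div] at h ⊢
  have hc : p.asIdeal ⊔ q.asIdeal = ⊤ := by
    have h1 : IsCoprime p.asIdeal q.asIdeal := by
      rw [Ideal.isCoprime_iff_sup_eq]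
      exact Ideal.IsMaximal.coprime_of_ne p.isMaximal q.isMaximal
        (fun h => hpq (HeightOneSpectrum.ext h))
    rwa [Ideal.isCoprime_iff_sup_eq] at h1
  have h1 : (1 : 𝓞 K) ∈ p.asIdeal ⊔ q.asIdeal := by rw [hc]; trivial
  obtain ⟨a, ha, b, hb, hab⟩ := Submodule.mem_sup.mp h1
  have ha' : ((a : 𝓞 K) : K) ∈ Id.m (HS.frP p) := by
    rw [(pI_facts p).1]
    exact (FractionalIdeal.mem_coeIdeal _).mpr ⟨a, ha, rfl⟩
  have hb' : ((b : 𝓞 K) : K) ∈ Id.m (HS.frP q) := by
    rw [(pI_facts q).1]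
    exact (FractionalIdeal.mem_coeIdeal _).mpr ⟨b, hb, rfl⟩
  intro x hx
  have hx1 : x ∈ (1 : Id K).m := (isInt_iff m).mp hm hx
  have e1 : x = x * (a : K) + x * (b : K) := by
    rw [← mul_add, ← map_add, hab, map_one, mul_one]
  rw [e1]
  refine Submodule.add_mem _ ?_ (h (mem_mul_of hx hb'))
  have := mem_mul_of hx1 ha'
  rwa [one_mul] at this

/-- the coefficients of `T_p T_q F` -/
private theorem rm_co {k : ℕ} {p q : Pr K} (hpq : p ≠ q) (hk : 1 ≤ k)
    {F : (Em K → ℍ) → Lat K → ℂ} (hF : IsForm k F) {A B : Id K → ℂ} (hA : IsCo k F A)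
    (hB : IsCo k (TT p (TT q F)) B) (m : Id K) (hm : IsInt m) :
    B m = A (m / (HS.frP p * HS.frP q)) +
      (((qP q : ℝ) ^ (1 - (k : ℝ)) : ℝ) : ℂ) * A (m * HS.frP q / HS.frP p) +
      (((qP p : ℝ) ^ (1 - (k : ℝ)) : ℝ) : ℂ) * A (m * HS.frP p / HS.frP q) +
      (((qP p : ℝ) ^ (1 - (k : ℝ)) : ℝ) : ℂ) * (((qP q : ℝ) ^ (1 - (k : ℝ)) : ℝ) : ℂ) *
        A (m * (HS.frP p * HS.frP q)) := by
  have hFq : IsForm k (TT q F) := form_TT hF q
  obtain ⟨C, hC⟩ := co_exists hk hFq
  have h1 := co_TT hFq hC p m hm hB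
  have h2 := co_TT hF hA q (m * HS.frP p) (isInt_mul hm (pI_facts p).2.1) hC
  have h3 : C (m / HS.frP p) = A (m / (HS.frP p * HS.frP q)) +
      (((qP q : ℝ) ^ (1 - (k : ℝ)) : ℝ) : ℂ) * A (m * HS.frP q / HS.frP p) := by
    by_cases hi : IsInt (m / HS.frP p)
    · rw [co_TT hF hA q _ hi hC, div_div, div_mul_eq_mul_div]
    · rw [hC.int _ hi]
      have h4 : ¬ IsInt (m / (HS.frP p * HS.frP q)) := by
        intro h
        apply hi
        have h5 := isInt_mul h (pI_facts q).2.1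
        rwa [← div_div, div_mul_cancel] at h5
      have h6 : ¬ IsInt (m * HS.frP q / HS.frP p) := fun h => hi (rm_cop hpq hm h)
      rw [hA.int _ h4, hA.int _ h6]
      ring
  rw [h1, h3, h2, mul_assoc m]
  ring

private theorem rm_comm {k : ℕ} (hk : 1 ≤ k) (p q : Pr K) {F : (Em K → ℍ) → Lat K → ℂ}
    (hF : IsForm k F) (z : Em K → ℍ) (L : Lat K) : TT p (TT q F) z L = TT q (TT p F) z L := by
  by_cases hpq : p = q
  · rw [hpq]
  obtain ⟨A, hA⟩ := co_exists hk hF
  have hpqF : IsForm k (TT p (TT q F)) := form_TT (form_TT hF q) p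
  have hqpF : IsForm k (TT q (TT p F)) := form_TT (form_TT hF p) q
  obtain ⟨B, hB⟩ := co_exists hk hpqF
  obtain ⟨B', hB'⟩ := co_exists hk hqpF
  have hBB : B = B' := by
    funext m
    by_cases hm : IsInt m
    · rw [rm_co hpq hk hF hA hB m hm, rm_co (Ne.symm hpq) hk hF hA hB' m hm,
        mul_comm (HS.frP q) (HS.frP p)]
      ring
    · rw [hB.int m hm, hB'.int m hm]
  have h1 : IsForm k (fun z L => ∑ i ∈ (Finset.univ : Finset Bool), (if i then (1 : ℂ) else -1) *
      (if i then TT p (TT q F) else TT q (TT p F)) z L) := by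
    refine form_lin _ _ ?_
    intro i _
    cases i
    · simpa using hqpF
    · simpa using hpqF
  have h2 : IsCo k (fun z L => ∑ i ∈ (Finset.univ : Finset Bool), (if i then (1 : ℂ) else -1) *
      (if i then TT p (TT q F) else TT q (TT p F)) z L)
      (fun m => ∑ i ∈ (Finset.univ : Finset Bool), (if i then (1 : ℂ) else -1) *
      (if i then B else B') m) := by
    refine co_lin (F := fun i : Bool => if i then TT p (TT q F) else TT q (TT p F))
      (A := fun i : Bool => if i then B else B') Finset.univ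
      (fun i : Bool => if i then (1 : ℂ) else -1) ?_
    intro i _
    cases i
    · simpa using hB'
    · simpa using hB
  have h3 : (fun m => ∑ i ∈ (Finset.univ : Finset Bool), (if i then (1 : ℂ) else -1) *
      (if i then B else B') m) = 0 := by
    funext m
    simp [hBB]
  rw [h3] at h2
  have h4 := co_inj h1 h2 z L
  simp only [Fintype.sum_bool, if_true, one_mul, Bool.false_eq_true, if_false] at h4
  linear_combination h4

theorem tv_comm {k : ℕ} (hk : 1 ≤ k) {p q : Pr K} {T S : VV K k →ₗ[ℂ] VV K k}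
    (hT : ∀ (F : VV K k) z L, (T F : (Em K → ℍ) → Lat K → ℂ) z L =
      TT p (F : (Em K → ℍ) → Lat K → ℂ) z L)
    (hS : ∀ (F : VV K k) z L, (S F : (Em K → ℍ) → Lat K → ℂ) z L =
      TT q (F : (Em K → ℍ) → Lat K → ℂ) z L) : Commute T S := by
  have hT' : ∀ F : VV K k, (T F : (Em K → ℍ) → Lat K → ℂ) =
      TT p (F : (Em K → ℍ) → Lat K → ℂ) := fun F => funext fun z => funext fun L => hT F z L
  have hS' : ∀ F : VV K k, (S F : (Em K → ℍ) → Lat K → ℂ) =
      TT q (F : (Em K → ℍ) → Lat K → ℂ) := fun F => funext fun z => funext fun L => hS F z L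
  show T * S = S * T
  apply LinearMap.ext
  intro F
  apply Subtype.ext
  show (T (S F) : (Em K → ℍ) → Lat K → ℂ) = (S (T F) : (Em K → ℍ) → Lat K → ℂ)
  rw [hT', hS', hS', hT']
  funext z L
  exact rm_comm hk p q F.2 z L

end tr

end Pool.Agent.HSG
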