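import Pool.Agent.Lib_helper45.HSK.Defs
import Pool.Agent.Lib_helper45.HSRF.RL
import Pool.Agent.Lib_helper45.HSRF.RN
import Pool.Agent.Lib_helper84.HSGF.GH
import Pool.Agent.Lib_helper84.HSGF.GJ1
import Pool.Agent.Lib_helper84.HSGF.GL1
import Pool.Agent.Lib_helper84.HSGF.GL2
import Pool.Agent.Lib_helper84.HSGF.GM
import Pool.Agent.Lib_helper84.HSGF.GR3
import Pool.Agent.Lib_helper84.HSGF.GS
import Pool.Agent.Lib_helper84.HSGF.HF

/-! Block RO: the number of eigensystems. -/

namespace Pool.Agent.HSG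

open Complex MeasureTheory Filter Topology UpperHalfPlane NumberField IsDedekindDomain
open scoped nonZeroDivisors MatrixGroups ENNReal

section ro_lin

/-- orthogonal vectors are linearly independent -/
theorem ro_indep {V : Type} [AddCommGroup V] [Module ℂ V]
    (B : V → V → ℂ) (hsymm : ∀ x y, starRingEnd ℂ (B y x) = B x y)
    (hadd : ∀ x y z, B (x + y) z = B x z + B y z)
    (hsmul : ∀ x y (r : ℂ), B (r • x) y = starRingEnd ℂ r * B x y)
    (hpos : ∀ x, x ≠ 0 → 0 < (B x x).re) {ι : Type} (v : ι → V) (hz : ∀ i, v i ≠ 0)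
    (ho : ∀ i j, i ≠ j → B (v i) (v j) = 0) : LinearIndependent ℂ v := by
  have h00 : ∀ y, B 0 y = 0 := by
    intro y
    have := hsmul 0 y 0
    simpa using this
  let core : InnerProductSpace.Core ℂ V :=
    { inner := B
      conj_inner_symm := hsymm
      re_inner_nonneg := by
        intro x
        rcases eq_or_ne x 0 with rfl | hx
        · change 0 ≤ (B 0 0).re
          rw [h00]; simp
        · exact (hpos x hx).le
      add_left := hadd
      smul_left := hsmul
      definite := by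
        intro x hx
        by_contra hne
        have h1 := hpos x hne
        have h2 : B x x = 0 := hx
        rw [h2] at h1
        simp at h1 }
  let _ : NormedAddCommGroup V := core.toNormedAddCommGroup
  let _ : InnerProductSpace ℂ V := InnerProductSpace.ofCore core.toCore
  exact linearIndependent_of_ne_zero_of_inner_eq_zero (𝕜 := ℂ) hz (fun i j h => ho i j h)

end ro_lin

variable {K : Type} [Field K] [NumberField K] [IsTotallyReal K]

/-- multiplicity one -/
theorem eig_one {k : ℕ} (hk : 1 ≤ k) {F G : (Em K → ℍ) → Lat K → ℂ} {lam : Pr K → ℝ}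
    (hF : IsEig k F lam) (hG : IsEig k G lam) : ∃ c : ℂ, c ≠ 0 ∧ ∀ z L, G z L = c * F z L := by
  obtain ⟨A, hA⟩ := co_exists hk hF.form
  obtain ⟨B, hB⟩ := co_exists hk hG.form
  obtain ⟨hA1, hAm⟩ := eig_co hF hA
  obtain ⟨hB1, hBm⟩ := eig_co hG hB
  refine ⟨B 1 / A 1, div_ne_zero hB1 hA1, ?_⟩
  set c : ℂ := B 1 / A 1 with hc
  have hcA : c * A 1 = B 1 := by rw [hc]; field_simp
  have hform := form_lin (k := k) (Finset.univ : Finset (Fin 2)) ![1, -c] (F := ![G, F]) (by
    intro i _
    fin_cases i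
    · exact hG.form
    · exact hF.form)
  have hco := co_lin (k := k) (Finset.univ : Finset (Fin 2)) ![1, -c] (F := ![G, F])
    (A := ![B, A]) (by
    intro i _
    fin_cases i
    · exact hB
    · exact hA)
  have hzero : (fun m => ∑ i ∈ (Finset.univ : Finset (Fin 2)), (![1, -c] : Fin 2 → ℂ) i *
      (![B, A] : Fin 2 → Id K → ℂ) i m) = 0 := by
    funext m
    rw [Fin.sum_univ_two]
    simp only [Matrix.cons_val_zero, Matrix.cons_val_one, Pi.zero_apply]
    by_cases hm : IsInt m
    · obtain ⟨f, rfl⟩ := idl_sur hm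
      rw [hAm, hBm, ← hcA]
      ring
    · rw [hA.int m hm, hB.int m hm]
      simp
  rw [hzero] at hco
  intro z L
  have h1 := co_inj hform hco z L
  simp only [Fin.sum_univ_two, Matrix.cons_val_zero, Matrix.cons_val_one] at h1
  linear_combination h1

theorem ss_card : ∃ k₀ : ℕ, ∀ k : ℕ, k₀ ≤ k → FiniteDimensional ℂ (VV K k) →
    (SS K k).Finite ∧ (SS K k).ncard = Module.finrank ℂ (VV K k) := by
  obtain ⟨ω⟩ := exw_exists (K := K)
  obtain ⟨k1, h1⟩ := pn_pos ω
  obtain ⟨k2, h2⟩ := vv_diag (K := K)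
  obtain ⟨k3, h3⟩ := eig_real (K := K)
  refine ⟨max (max k1 k2) (max k3 1), fun k hk hfd => ?_⟩
  have hk1 : k1 ≤ k := le_trans (le_trans (le_max_left _ _) (le_max_left _ _)) hk
  have hk2 : k2 ≤ k := le_trans (le_trans (le_max_right _ _) (le_max_left _ _)) hk
  have hk3 : k3 ≤ k := le_trans (le_trans (le_max_left _ _) (le_max_right _ _)) hk
  have hk4 : 1 ≤ k := le_trans (le_trans (le_max_right _ _) (le_max_right _ _)) hk
  -- the chosen eigenforms
  choose F hF using fun lam : SS K k => lam.2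
  set v : SS K k → VV K k := fun lam => ⟨F lam, (hF lam).form⟩ with hv
  have hne : ∀ x : VV K k, x ≠ 0 → ∃ z L, (x : (Em K → ℍ) → Lat K → ℂ) z L ≠ 0 := by
    intro x hx
    by_contra hcon
    push Not at hcon
    exact hx (Subtype.ext (funext fun z => funext fun L => hcon z L))
  have hform : ∀ x : VV K k, IsForm k (x : (Em K → ℍ) → Lat K → ℂ) := fun x => x.2
  have hli : LinearIndependent ℂ v := by
    refine ro_indep (V := VV K k) (fun x y => pet ω k (y : (Em K → ℍ) → Lat K → ℂ) x)
      ?_ ?_ ?_ ?_ v ?_ ?_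
    · intro x y
      exact (pet_conj ω k (x : (Em K → ℍ) → Lat K → ℂ) y).symm
    · intro x y z
      show pet ω k (z : (Em K → ℍ) → Lat K → ℂ) ((x + y : VV K k) : (Em K → ℍ) → Lat K → ℂ) =
        pet ω k (z : (Em K → ℍ) → Lat K → ℂ) x + pet ω k (z : (Em K → ℍ) → Lat K → ℂ) y
      rw [pet_conj ω k ((x + y : VV K k) : (Em K → ℍ) → Lat K → ℂ) z, Submodule.coe_add,
        pet_add ω (hform x) (hform y) (hform z), map_add, ← pet_conj, ← pet_conj]
    · intro x y r
      show pet ω k (y : (Em K → ℍ) → Lat K → ℂ) ((r • x : VV K k) : (Em K → ℍ) → Lat K → ℂ) =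
        starRingEnd ℂ r * pet ω k (y : (Em K → ℍ) → Lat K → ℂ) x
      rw [pet_conj ω k ((r • x : VV K k) : (Em K → ℍ) → Lat K → ℂ) y, Submodule.coe_smul,
        pet_smul, map_mul, ← pet_conj]
    · intro x hx
      show 0 < (pet ω k (x : (Em K → ℍ) → Lat K → ℂ) x).re
      rw [pet_self, Complex.ofReal_re]
      exact h1 k hk1 (hform x) (hne x hx)
    · intro lam h0
      obtain ⟨z, L, hzL⟩ := (hF lam).ne
      apply hzL
      have := congrArg (fun x : VV K k => (x : (Em K → ℍ) → Lat K → ℂ) z L) h0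
      simpa [hv] using this
    · intro lam lam' hll
      exact eig_orth ω (hF lam') (hF lam) (fun h => hll (Subtype.ext h.symm))
  obtain ⟨T, hT, hTtop⟩ := h2 k hk2 hfd
  have hspan : ⊤ ≤ Submodule.span ℂ (Set.range v) := by
    rw [← hTtop]
    refine iSup_le fun χ => ?_
    intro f hf
    rw [Submodule.mem_iInf] at hf
    by_cases hf0 : f = 0
    · rw [hf0]
      exact Submodule.zero_mem _
    · have h4 : ∀ p z L, TT p (f : (Em K → ℍ) → Lat K → ℂ) z L =
          χ p * (f : (Em K → ℍ) → Lat K → ℂ) z L := by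
        intro p z L
        have h5 := Module.End.mem_eigenspace_iff.1 (hf p)
        rw [← hT p f z L, h5]
        rfl
      obtain ⟨lam, hlam, -⟩ := h3 k hk3 (hform f) (hne f hf0) h4
      have hmem : lam ∈ SS K k := ⟨_, hlam⟩
      obtain ⟨c, -, hc⟩ := eig_one hk4 (hF ⟨lam, hmem⟩) hlam
      have h6 : f = c • v ⟨lam, hmem⟩ := by
        apply Subtype.ext
        funext z L
        exact hc z L
      rw [h6]
      exact Submodule.smul_mem _ _ (Submodule.subset_span ⟨_, rfl⟩)
  let b := Module.Basis.mk hli hspan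
  have hfin : Finite (SS K k) := Module.Finite.finite_basis b
  refine ⟨Set.toFinite _, ?_⟩
  rw [Module.finrank_eq_nat_card_basis b]
  exact (Nat.card_coe_set_eq _).symm

end Pool.Agent.HSG
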