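import Pool.Agent.Lib_helper45.HSK.Defs
import Pool.Agent.Lib_helper45.HSRF.RJ
import Pool.Agent.Lib_helper45.HSRF.RK2
import Pool.Agent.Lib_helper45.HSRF.RO

/-! # HSR block RP (TOP): the theorem of stage 2 (cites RJ, RK2, RO) -/

namespace Pool.Agent.HSG

open Complex MeasureTheory Filter Topology UpperHalfPlane NumberField IsDedekindDomain
open scoped nonZeroDivisors MatrixGroups ENNReal

variable {K : Type} [Field K] [NumberField K]

section tr2
variable [IsTotallyReal K]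

theorem ss_count : ∃ (c : ℝ) (k₀ : ℕ), 0 < c ∧ ∀ k : ℕ, k₀ ≤ k → Even k →
    (SS K k).Finite ∧ c * (k : ℝ) ^ dg K ≤ (SS K k).ncard := by
  obtain ⟨c, k₁, hc, h1⟩ := vv_low (K := K)
  obtain ⟨k₂, h2⟩ := vv_fin (K := K)
  obtain ⟨k₃, h3⟩ := ss_card (K := K)
  refine ⟨c, max k₁ (max k₂ k₃), hc, fun k hk he => ?_⟩
  have hf := h2 k (le_trans (le_trans (le_max_left _ _) (le_max_right _ _)) hk)
  obtain ⟨h4, h5⟩ := h3 k (le_trans (le_trans (le_max_right _ _) (le_max_right _ _)) hk) hf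
  refine ⟨h4, ?_⟩
  rw [h5]
  exact h1 k (le_trans (le_max_left _ _) hk) he hf


end tr2

end Pool.Agent.HSG
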